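import Pool.Agent.H441.FT.Cls

/-!
The function field of a subvariety of a copy.
-/

set_option autoImplicit false

namespace Pool.Agent.H441.FT

open MvPolynomial
open Pool.Agent.N254.SQ hiding Extends lin
open Pool.Agent.W602.GT (GeneralType coords)
open Pool.Agent.H441.DQ (dform dform_hom dform_eval)
open Pool.Agent.H441.UA (FEmb vals exists_femb)

variable {K : Type} [Field K] {m n N k : ℕ} {ι κ γ : Type} {F : ι → MvPolynomial (Fin (n + 1)) K}
  {T : κ → MvPolynomial (Fin (n + 1)) K} {G : γ → MvPolynomial (Fin (n + 1)) K}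
  {φ : Fin (N + 1) → MvPolynomial (Fin (n + 1)) K} {c : Fin k → Fin (N + 1) → K}
  {I J : Set (Fin (N + 1))}

/-- the ratios of the coordinates of a point of `X` generate the function field of its image in a
copy of `X` -/
theorem copy_gen (hE : FEmb m F T G φ c I J) {E L : Type} [Field E] [Field L] [Algebra E L]
    (σ : K →+* E) {y : Fin (N + 1) → L} (hy : coords E y = ⊤) {x : Fin (n + 1) → L} (hx : x ≠ 0)
    {s : L} (hs : s ≠ 0) {ζ : Fin (N + 1) → E}
    (hyx : ∀ j, y j = s * (algebraMap E L (ζ j) * vals ((algebraMap E L).comp σ) φ x j)) :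
    coords E x = ⊤ := by
  obtain ⟨e, he, hφ, -⟩ := hE.mono
  obtain ⟨a, ha⟩ : ∃ a, x a ≠ 0 := by
    by_contra hcon
    push Not at hcon
    exact hx (funext hcon)
  rw [eq_top_iff, ← hy]
  have h0 : ∀ i, x i / x a ∈ coords E x := fun i =>
    IntermediateField.subset_adjoin E {z | ∃ i j, x j ≠ 0 ∧ z = x i / x j} ⟨i, a, ha, rfl⟩
  -- the values at the normalized point
  have h1 : ∀ P : MvPolynomial (Fin (n + 1)) K,
      eval₂ ((algebraMap E L).comp σ) (fun i => x i / x a) P ∈ coords E x := by
    intro P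
    induction P using MvPolynomial.induction_on with
    | C b =>
      rw [eval₂_C]
      exact (coords E x).algebraMap_mem _
    | add p q hp hq =>
      rw [eval₂_add]
      exact add_mem hp hq
    | mul_X p i hp =>
      rw [eval₂_mul, eval₂_X]
      exact mul_mem hp (h0 i)
  have h2 : ∀ j, vals ((algebraMap E L).comp σ) φ x j =
      x a ^ e * eval₂ ((algebraMap E L).comp σ) (fun i => x i / x a) (φ j) := by
    intro j
    unfold vals
    rw [← eval₂_scale _ (hφ j)]
    congr 1
    funext i
    rw [Pi.smul_apply, smul_eq_mul, mul_div_cancel₀ _ ha]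
  have hxa : x a ^ e ≠ 0 := pow_ne_zero _ ha
  unfold coords
  rw [IntermediateField.adjoin_le_iff]
  rintro _ ⟨i, j, hj, rfl⟩
  have h3 : y i / y j = (algebraMap E L (ζ i) *
      eval₂ ((algebraMap E L).comp σ) (fun i => x i / x a) (φ i)) / (algebraMap E L (ζ j) *
      eval₂ ((algebraMap E L).comp σ) (fun i => x i / x a) (φ j)) := by
    rw [hyx, hyx, h2, h2, mul_div_mul_left _ _ hs, mul_left_comm, mul_left_comm _ (x a ^ e),
      mul_div_mul_left _ _ hxa]
  rw [h3]
  exact div_mem (mul_mem ((coords E x).algebraMap_mem _) (h1 _))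
    (mul_mem ((coords E x).algebraMap_mem _) (h1 _))

end Pool.Agent.H441.FT
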