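import Pool.Agent.H441.FT.Gen

/-!
Embedding of affine varieties: the complement of one form becomes the complement of one coordinate
hyperplane.
-/

set_option autoImplicit false

namespace Pool.Agent.H441.FT

open MvPolynomial
open Pool.Agent.N254.SQ hiding Extends lin
open Pool.Agent.H441.DF (Cut mult bound exists_mon exists_cut)
open Pool.Agent.H441.DQ (vec vec_eval linK linK_hom linK_eval rel comb Box rel_small dform dform_hom)
open Pool.Agent.H441.UA (FEmb femb_of bd mform exists_mult)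

/-- **The embedding of an affine variety.** -/
theorem exists_femb1 {K : Type} [Field K] [CharZero K] [Algebra ℚ K] (D : Set K)
    (h1D : (1 : K) ∈ D) (hneg : ∀ x ∈ D, -x ∈ D) (hD : Submodule.span ℚ D = ⊤) {m : ℕ}
    (hm : 2 ≤ m) {n : ℕ} {ι γ : Type} [Finite ι] [Finite γ]
    (F : ι → MvPolynomial (Fin (n + 1)) K) (G : γ → MvPolynomial (Fin (n + 1)) K)
    (hF : ∀ i, ∃ e, (F i).IsHomogeneous e) (hG : ∀ i, ∃ e, (G i).IsHomogeneous e)
    {H : MvPolynomial (Fin (n + 1)) K} {r : ℕ} (hr : 1 ≤ r) (hH : H.IsHomogeneous r) :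
    ∃ (N k : ℕ) (φ : Fin (N + 1) → MvPolynomial (Fin (n + 1)) K)
      (c : Fin k → Fin (N + 1) → K) (i₀ : Fin (N + 1)) (J : Set (Fin (N + 1))),
      (∀ i j, c i j = 0 ∨ c i j ∈ D) ∧ FEmb m F (fun _ : Unit => H) G φ c {i₀} J := by
  classical
  obtain ⟨a, ha1, hdF, -, hdG⟩ := common_degree F (fun e : Empty => e.elim) G hF
    (fun e => e.elim) hG
  have hae : a ≤ r * a := Nat.le_mul_of_pos_left a hr
  have he : 1 ≤ r * a := le_trans ha1 hae
  obtain ⟨γ', _, G', hG'h, hG'e⟩ := exists_mult (e := r * a) G (fun i => by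
    obtain ⟨d, hd, h⟩ := hdG i
    exact ⟨d, hd.trans hae, h⟩)
  obtain ⟨M, v, hv⟩ := exists_mon n (r * a)
  obtain ⟨ι', _, q, hC⟩ := exists_cut hv he F (fun i => by
    obtain ⟨d, hd, h⟩ := hdF i
    exact ⟨d, hd.trans hae, h⟩)
  have hT' : ∀ _ : Unit, (H ^ a).IsHomogeneous (r * a) := fun _ => hH.pow a
  -- the linear forms
  obtain ⟨N, A, k, c, ha, hb, -, hcD, hc⟩ := rel_small (K := K) D h1D hneg hD (m := m)
    (bound m + bd (M + 1) m)
    (κ := Unit ⊕ γ') (Sum.elim (fun _ => vec v (H ^ a)) fun l => vec v (G' l)) q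
  obtain ⟨i₀, -, hi₀⟩ := hb (Sum.inl ())
  have hE := femb_of hm he hv hF hT' hG'h hC ha (Nat.le_add_right _ _) (Nat.le_add_left _ _) hc
    (I := {i₀}) (J := {j | ∃ l, A j = vec v (G' l)}) (fun i hi => ⟨(), by
      rw [Set.mem_singleton_iff] at hi
      rw [hi]
      exact hi₀⟩)
    (fun _ => ⟨i₀, rfl, hi₀⟩) (fun i hi => hi)
    (fun l => by
      obtain ⟨j, -, hj⟩ := hb (Sum.inr l)
      exact ⟨j, ⟨l, hj⟩, hj⟩)
  refine ⟨N, k, _, c, _, _, hcD, hE.congr (fun Ω _ τ x hx => ?_) fun Ω _ τ x hx => ?_⟩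
  · simp only [eval₂_pow, ne_eq, pow_eq_zero_iff (show a ≠ 0 by omega)]
  · rw [← not_iff_not]
    have := hG'e Ω τ x hx
    push Not
    exact this

/-- **Four terms**, for given multiples of the forms. -/
theorem four_of {K : Type} [Field K] [CharZero K] {n M e : ℕ} (he : 1 ≤ e)
    {v : Fin (M + 1) → Fin (n + 1) → ℕ} (hv : Mon n M e v)
    {ι ι' κ κ' γ γ' : Type} [Finite ι'] [Finite κ'] [Finite γ']
    {F : ι → MvPolynomial (Fin (n + 1)) K} {T : κ → MvPolynomial (Fin (n + 1)) K}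
    {G : γ → MvPolynomial (Fin (n + 1)) K} (hF : ∀ i, ∃ d, (F i).IsHomogeneous d)
    {F' : ι' → MvPolynomial (Fin (n + 1)) K} {T' : κ' → MvPolynomial (Fin (n + 1)) K}
    {G' : γ' → MvPolynomial (Fin (n + 1)) K} (hF' : ∀ k, (F' k).IsHomogeneous e)
    (hT' : ∀ k, (T' k).IsHomogeneous e) (hG' : ∀ k, (G' k).IsHomogeneous e)
    (hFF : ∀ (Ω : Type) [Field Ω] (τ : K →+* Ω) (x : Fin (n + 1) → Ω), x ≠ 0 →
      ((∀ k, eval₂ τ x (F' k) = 0) ↔ ∀ i, eval₂ τ x (F i) = 0))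
    (hTT : ∀ (Ω : Type) [Field Ω] (τ : K →+* Ω) (x : Fin (n + 1) → Ω), x ≠ 0 →
      ((∃ k, eval₂ τ x (T' k) ≠ 0) ↔ ∃ k, eval₂ τ x (T k) ≠ 0))
    (hGG : ∀ (Ω : Type) [Field Ω] (τ : K →+* Ω) (x : Fin (n + 1) → Ω), x ≠ 0 →
      ((∀ k, eval₂ τ x (G' k) = 0) ↔ ∀ k, eval₂ τ x (G k) = 0)) :
    ∃ (N k : ℕ) (φ : Fin (N + 1) → MvPolynomial (Fin (n + 1)) K)
      (c : Fin k → Fin (N + 1) → K) (I J : Set (Fin (N + 1))),
      (∀ i, ∃ p p' q q', c i = row K p p' q q' ∨ ∃ x : K, c i = Pi.single p 1 - Pi.single p' 1 -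
        x • (Pi.single q 1 - Pi.single q' 1)) ∧
      ((∀ i ∈ I, ∃ k, φ i = mform v (vec v (T' k))) ∧
        ∀ k, ∃ i ∈ I, φ i = mform v (vec v (T' k))) ∧
      FEmb 2 F T G φ c I J ∧ Pow 2 φ := by
  classical
  have := Fintype.ofFinite ι'
  have := Fintype.ofFinite κ'
  have := Fintype.ofFinite γ'
  obtain ⟨Λ, hΛ⟩ : ∃ Λ : Finset K, Λ = insert 1
      ((Finset.univ.image fun z : ι' × Fin (M + 1) => vec (K := K) v (F' z.1) z.2) ∪
      ((Finset.univ.image fun z : κ' × Fin (M + 1) => vec (K := K) v (T' z.1) z.2) ∪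
      (Finset.univ.image fun z : γ' × Fin (M + 1) => vec (K := K) v (G' z.1) z.2))) := ⟨_, rfl⟩
  have hΛ1 : (1 : K) ∈ Λ := by
    rw [hΛ]
    exact Finset.mem_insert_self _ _
  let ε : Λ × Fin (M + 1) ≃ Fin (Fintype.card (Λ × Fin (M + 1))) := Fintype.equivFin _
  have hu : ∀ f : Fin (M + 1) → K, (∀ i, f i ∈ Λ) →
      ∃ u : Fin (Fintype.card (Λ × Fin (M + 1))) → ℤ, vecs (fun s => (ε.symm s).2)
        (fun s => ((ε.symm s).1 : K)) u = f := by
    intro f hf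
    refine ⟨fun s => if f (ε.symm s).2 = (ε.symm s).1 then 1 else 0, ?_⟩
    funext i
    unfold vecs
    rw [Finset.sum_eq_single (ε (⟨f i, hf i⟩, i))]
    · simp
    · intro s _ hsi
      split
      · rename_i h
        simp only
        rw [if_neg, Int.cast_zero, zero_mul]
        intro hcon
        apply hsi
        rw [← Equiv.symm_apply_eq]
        refine Prod.ext (Subtype.ext ?_) h
        rw [← hcon]
        exact congrArg f h
      · rfl
    · intro h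
      exact absurd (Finset.mem_univ _) h
  obtain ⟨N, k, φ, c, I, J, idx, hc1, hφ, hI, hE⟩ := core he hv (l := fun s => (ε.symm s).2)
    (t := fun s => ((ε.symm s).1 : K)) (s₀ := fun i => ε (⟨1, hΛ1⟩, i))
    (fun i => ⟨by simp, by simp⟩) hF hF' hT' hG'
    hFF hTT hGG
    (fun k => hu _ fun i => by
      rw [hΛ]
      exact Finset.mem_insert_of_mem (Finset.mem_union_left _
        (Finset.mem_image.2 ⟨(k, i), Finset.mem_univ _, rfl⟩))) (fun k => hu _ fun i => by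
      rw [hΛ]
      exact Finset.mem_insert_of_mem (Finset.mem_union_right _ (Finset.mem_union_left _
        (Finset.mem_image.2 ⟨(k, i), Finset.mem_univ _, rfl⟩)))) (fun k => hu _ fun i => by
      rw [hΛ]
      exact Finset.mem_insert_of_mem (Finset.mem_union_right _ (Finset.mem_union_right _
        (Finset.mem_image.2 ⟨(k, i), Finset.mem_univ _, rfl⟩))))
  refine ⟨N, k, φ, c, I, J, fun i => ?_, hI, hE⟩
  obtain ⟨h0, ⟨p, p', q, q', h⟩ | ⟨s, s', h⟩⟩ := hc1 i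
  · exact ⟨p, p', q, q', Or.inl h⟩
  · exact ⟨_, _, _, _, Or.inr ⟨_, h⟩⟩

/-- **The embedding of an affine variety with equations with four terms.** -/
theorem exists_four1 {K : Type} [Field K] [CharZero K] {n : ℕ} {ι γ : Type} [Finite ι]
    [Finite γ] (F : ι → MvPolynomial (Fin (n + 1)) K) (G : γ → MvPolynomial (Fin (n + 1)) K)
    (hF : ∀ i, ∃ e, (F i).IsHomogeneous e) (hG : ∀ i, ∃ e, (G i).IsHomogeneous e)
    {H : MvPolynomial (Fin (n + 1)) K} {r : ℕ} (hr : 1 ≤ r) (hH : H.IsHomogeneous r) :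
    ∃ (N k : ℕ) (φ : Fin (N + 1) → MvPolynomial (Fin (n + 1)) K)
      (c : Fin k → Fin (N + 1) → K) (i₀ : Fin (N + 1)) (J : Set (Fin (N + 1))),
      (∀ i, ∃ p p' q q', c i = row K p p' q q' ∨ ∃ x : K, c i = Pi.single p 1 - Pi.single p' 1 -
        x • (Pi.single q 1 - Pi.single q' 1)) ∧
      FEmb 2 F (fun _ : Unit => H) G φ c {i₀} J ∧ Pow 2 φ := by
  classical
  obtain ⟨a, ha1, hdF, -, hdG⟩ := common_degree F (fun e : Empty => e.elim) G hF
    (fun e => e.elim) hG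
  have hae : a ≤ r * a := Nat.le_mul_of_pos_left a hr
  have he : 1 ≤ r * a := le_trans ha1 hae
  obtain ⟨ι', _, F', hF', hFe⟩ := exists_mult (e := r * a) F (fun i => by
    obtain ⟨d, hd, h⟩ := hdF i
    exact ⟨d, hd.trans hae, h⟩)
  obtain ⟨γ', _, G', hG', hGe⟩ := exists_mult (e := r * a) G (fun i => by
    obtain ⟨d, hd, h⟩ := hdG i
    exact ⟨d, hd.trans hae, h⟩)
  obtain ⟨M, v, hv⟩ := exists_mon n (r * a)
  obtain ⟨N, k, φ, c, I, J, hc, ⟨hI1, hI2⟩, hE, hP⟩ := four_of he hv hF hF'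
    (T := fun _ : Unit => H) (T' := fun _ : Unit => H ^ a) (fun _ => hH.pow a) hG'
    (fun Ω _ τ x hx => not_ex (hFe Ω τ x hx)) (fun Ω _ τ x hx => by
      simp only [eval₂_pow, ne_eq, pow_eq_zero_iff (show a ≠ 0 by omega)])
    (fun Ω _ τ x hx => not_ex (hGe Ω τ x hx))
  obtain ⟨i₀, hi₀, h0⟩ := hI2 ()
  refine ⟨N, k, φ, c, i₀, J, hc, ⟨hE.mono, hE.ne, hE.inj, hE.pts, ?_, hE.onG, hE.curves, hE.sub, hE.alg,
    hE.copies⟩, hP⟩
  intro Ω _ τ x hx
  rw [← hE.onT Ω τ x hx]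
  constructor
  · rintro ⟨i, hi, h⟩
    rw [Set.mem_singleton_iff] at hi
    exact ⟨i, by rwa [hi], h⟩
  · rintro ⟨i, hi, h⟩
    refine ⟨i₀, rfl, ?_⟩
    obtain ⟨_, hk⟩ := hI1 i hi
    unfold Pool.Agent.H441.UA.vals at h ⊢
    rw [h0, ← hk]
    exact h

/-- classes of systems which contain the embeddings of affine varieties -/
structure IsClass1 (m : ℕ) (𝒴 : ∀ N k : ℕ, (Fin k → MvPolynomial (Fin (N + 1)) ℂ) → Prop) :
    Prop extends IsClass m 𝒴 where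
  emb1 : ∀ (n : ℕ) (ι γ : Type) [Finite ι] [Finite γ]
    (F : ι → MvPolynomial (Fin (n + 1)) ℂ) (G : γ → MvPolynomial (Fin (n + 1)) ℂ),
    (∀ i, ∃ e, (F i).IsHomogeneous e) → (∀ i, ∃ e, (G i).IsHomogeneous e) →
    ∀ (H : MvPolynomial (Fin (n + 1)) ℂ) (r : ℕ), 1 ≤ r → H.IsHomogeneous r →
    ∃ (N k : ℕ) (φ : Fin (N + 1) → MvPolynomial (Fin (n + 1)) ℂ) (c : Fin k → Fin (N + 1) → ℂ)
      (i₀ : Fin (N + 1)) (J : Set (Fin (N + 1))), 𝒴 N k (fun i => dform m (c i)) ∧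
        FEmb m F (fun _ : Unit => H) G φ c {i₀} J

theorem isClass1_diagonal {m : ℕ} (hm : 2 ≤ m) {D : Set ℂ} (hD1 : 1 ∈ D) (hD2 : ∀ x ∈ D, -x ∈ D)
    (hD3 : Submodule.span ℚ D = ⊤) : IsClass1 m (Diagonal m D) := by
  refine ⟨isClass_diagonal hm hD1 hD2 hD3, ?_⟩
  intro n ι γ _ _ F G hF hG H r hr hH
  obtain ⟨N, k, φ, c, i₀, J, hcD, hE⟩ := exists_femb1 D hD1 hD2 hD3 hm F G hF hG hr hH
  exact ⟨N, k, φ, c, i₀, J, fun i => ⟨c i, hcD i, rfl⟩, hE⟩

theorem fourTerms_of {N k : ℕ} {c : Fin k → Fin (N + 1) → ℂ}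
    (hc : ∀ i, ∃ p p' q q', c i = row ℂ p p' q q' ∨ ∃ x : ℂ, c i = Pi.single p 1 -
      Pi.single p' 1 - x • (Pi.single q 1 - Pi.single q' 1)) :
    FourTerms N k (fun i => dform 2 (c i)) := by
  classical
  intro i
  obtain ⟨p, p', q, q', h⟩ := hc i
  rcases h with h | ⟨x, h⟩
  · refine ⟨p, p', q, q', Or.inl ?_⟩
    simp only
    rw [h, dform_row]
  · refine ⟨p, p', q, q', Or.inr ⟨x, ?_⟩⟩
    have e1 : c i = Pi.single p 1 + (-1 : ℂ) • Pi.single p' 1 +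
        (-x) • (Pi.single q 1 + (-1 : ℂ) • Pi.single q' 1) := by
      rw [h, neg_one_smul, neg_one_smul, neg_smul, sub_eq_add_neg, sub_eq_add_neg,
        sub_eq_add_neg]
    simp only
    rw [e1]
    simp only [dform_add, dform_smul, dform_single, C_neg, C_1]
    ring

theorem isClass1_four : IsClass1 2 FourTerms := by
  refine ⟨isClass_four, ?_⟩
  intro n ι γ _ _ F G hF hG H r hr hH
  obtain ⟨N, k, φ, c, i₀, J, hc, hE, -⟩ := exists_four1 F G hF hG hr hH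
  exact ⟨N, k, φ, c, i₀, J, fourTerms_of hc, hE⟩

end Pool.Agent.H441.FT
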