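import Pool.Agent.H441.FT.Trans

/-!
Reduction of the conjectures on entire curves and rational points for all projective varieties over all
number fields to systems of equations `y_p ^ 2 + y_q ^ 2 = 2 y_s ^ 2 + 2 y_t ^ 2` over the rational
numbers.
-/

set_option autoImplicit false

namespace Pool.Agent.H441.FT

open MvPolynomial
open Pool.Agent.N254.SQ hiding Extends lin
open Pool.Agent.H441.DQ (dform dform_hom)
open Pool.Agent.H441.UA (FEmb vals)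

/-- the equations `y_p ^ 2 + y_q ^ 2 = 2 y_s ^ 2 + 2 y_t ^ 2` -/
noncomputable def par {N k : ℕ} (R : Fin k → Fin 4 → Fin (N + 1)) :
    Fin k → MvPolynomial (Fin (N + 1)) ℚ :=
  fun i => X (R i 0) ^ 2 + X (R i 1) ^ 2 - 2 * (X (R i 2) ^ 2 + X (R i 3) ^ 2)

/-- the embedding over the rational numbers -/
theorem exists_parQ' {n : ℕ} {ι γ : Type} [Finite ι] [Finite γ]
    (F : ι → MvPolynomial (Fin (n + 1)) ℚ) (G : γ → MvPolynomial (Fin (n + 1)) ℚ)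
    (hF : ∀ i, ∃ e, (F i).IsHomogeneous e) (hG : ∀ i, ∃ e, (G i).IsHomogeneous e) :
    ∃ (N k : ℕ) (R : Fin k → Fin 4 → Fin (N + 1)) (φ : Fin (N + 1) → MvPolynomial (Fin (n + 1)) ℚ)
      (c : Fin k → Fin (N + 1) → ℚ) (J : Set (Fin (N + 1)))
      (F' : ι → MvPolynomial (Fin (n + 1)) ℚ) (G' : γ → MvPolynomial (Fin (n + 1)) ℚ),
      (∀ i, dform 2 (c i) = par R i) ∧ (∀ j s, ∃ z : ℤ, coeff s (φ j) = (z : ℚ)) ∧
      (∀ i, ∃ e, (F' i).IsHomogeneous e) ∧ (∀ i, ∃ e, (G' i).IsHomogeneous e) ∧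
      (∀ (Ω : Type) [Field Ω] (ρ : ℚ →+* Ω) (x : Fin (n + 1) → Ω) (i : ι),
        eval₂ ρ x (F' i) = 0 ↔ eval₂ ρ x (F i) = 0) ∧
      (∀ (Ω : Type) [Field Ω] (ρ : ℚ →+* Ω) (x : Fin (n + 1) → Ω) (i : γ),
        eval₂ ρ x (G' i) = 0 ↔ eval₂ ρ x (G i) = 0) ∧
      FEmb 2 F' (fun e : Empty => e.elim) G' φ c ∅ J ∧ Pow 2 φ := by
  obtain ⟨F', hF'h, hF'z, hF'⟩ := exists_ints F hF
  obtain ⟨G', hG'h, hG'z, hG'⟩ := exists_ints G hG
  obtain ⟨N, k, φ, c, I, J, hc, hφ, hE, hpow⟩ := exists_par F' (fun e : Empty => e.elim) G' hF'h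
    (fun e => e.elim) hG'h hF'z (fun e => e.elim) hG'z
  choose p p' q q' hc using hc
  refine ⟨N, k, fun i => ![p i, p' i, q i, q' i], φ, c, J, F', G', fun i => ?_, hφ, hF'h, hG'h,
    hF', hG', ?_, hpow⟩
  · rw [hc, dform_row]
    rfl
  · refine ⟨hE.mono, hE.ne, hE.inj, hE.pts, fun Ω _ τ x hx => ?_, hE.onG, hE.curves, hE.sub, hE.alg,
      hE.copies⟩
    constructor
    · rintro ⟨i, hi, -⟩
      exact absurd hi (Set.notMem_empty i)
    · rintro ⟨i, -⟩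
      exact i.elim

theorem exists_parQ {n : ℕ} {ι γ : Type} [Finite ι] [Finite γ]
    (F : ι → MvPolynomial (Fin (n + 1)) ℚ) (G : γ → MvPolynomial (Fin (n + 1)) ℚ)
    (hF : ∀ i, ∃ e, (F i).IsHomogeneous e) (hG : ∀ i, ∃ e, (G i).IsHomogeneous e) :
    ∃ (N k : ℕ) (R : Fin k → Fin 4 → Fin (N + 1)) (φ : Fin (N + 1) → MvPolynomial (Fin (n + 1)) ℚ)
      (c : Fin k → Fin (N + 1) → ℚ) (J : Set (Fin (N + 1)))
      (F' : ι → MvPolynomial (Fin (n + 1)) ℚ) (G' : γ → MvPolynomial (Fin (n + 1)) ℚ),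
      (∀ i, dform 2 (c i) = par R i) ∧ (∀ j s, ∃ z : ℤ, coeff s (φ j) = (z : ℚ)) ∧
      (∀ i, ∃ e, (F' i).IsHomogeneous e) ∧ (∀ i, ∃ e, (G' i).IsHomogeneous e) ∧
      (∀ (Ω : Type) [Field Ω] (ρ : ℚ →+* Ω) (x : Fin (n + 1) → Ω) (i : ι),
        eval₂ ρ x (F' i) = 0 ↔ eval₂ ρ x (F i) = 0) ∧
      (∀ (Ω : Type) [Field Ω] (ρ : ℚ →+* Ω) (x : Fin (n + 1) → Ω) (i : γ),
        eval₂ ρ x (G' i) = 0 ↔ eval₂ ρ x (G i) = 0) ∧
      FEmb 2 F' (fun e : Empty => e.elim) G' φ c ∅ J := by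
  obtain ⟨N, k, R, φ, c, J, F', G', h1, h2, h3, h4, h5, h6, h7, -⟩ := exists_parQ' F G hF hG
  exact ⟨N, k, R, φ, c, J, F', G', h1, h2, h3, h4, h5, h6, h7⟩

section

variable {n : ℕ} {ι γ : Type}

theorem curves_congr {K : Type} [Field K] {σ : K →+* ℂ}
    {F F' : ι → MvPolynomial (Fin (n + 1)) K} {G G' : γ → MvPolynomial (Fin (n + 1)) K}
    (hF : ∀ (Ω : Type) [Field Ω] (ρ : K →+* Ω) (x : Fin (n + 1) → Ω) (i : ι),
        eval₂ ρ x (F' i) = 0 ↔ eval₂ ρ x (F i) = 0)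
    (hG : ∀ (Ω : Type) [Field Ω] (ρ : K →+* Ω) (x : Fin (n + 1) → Ω) (i : γ),
        eval₂ ρ x (G' i) = 0 ↔ eval₂ ρ x (G i) = 0) : CurvesIn σ F' G' ↔ CurvesIn σ F G := by
  unfold CurvesIn
  simp only [hF, hG]

theorem points_congr {K : Type} [Field K]
    {F F' : ι → MvPolynomial (Fin (n + 1)) K} {G G' : γ → MvPolynomial (Fin (n + 1)) K}
    (hF : ∀ (Ω : Type) [Field Ω] (ρ : K →+* Ω) (x : Fin (n + 1) → Ω) (i : ι),
        eval₂ ρ x (F' i) = 0 ↔ eval₂ ρ x (F i) = 0)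
    (hG : ∀ (Ω : Type) [Field Ω] (ρ : K →+* Ω) (x : Fin (n + 1) → Ω) (i : γ),
        eval₂ ρ x (G' i) = 0 ↔ eval₂ ρ x (G i) = 0) : PointsIn F' G' ↔ PointsIn F G := by
  unfold PointsIn
  simp only [hF, hG]

/-- **From curves to points, over the rational numbers.** -/
theorem implicationQ [Finite ι] [Finite γ]
    (H : ∀ (N k : ℕ) (R : Fin k → Fin 4 → Fin (N + 1)) (J : Set (Fin (N + 1))),
      CurvesIn (algebraMap ℚ ℂ) (par R) (coord ℚ J) → PointsIn (par R) (coord ℚ J))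
    (F : ι → MvPolynomial (Fin (n + 1)) ℚ) (G : γ → MvPolynomial (Fin (n + 1)) ℚ)
    (hF : ∀ i, ∃ e, (F i).IsHomogeneous e) (hG : ∀ i, ∃ e, (G i).IsHomogeneous e)
    (h : CurvesIn (algebraMap ℚ ℂ) F G) : PointsIn F G := by
  obtain ⟨N, k, R, φ, c, J, F', G', hc, -, -, -, hF', hG', hE⟩ := exists_parQ F G hF hG
  have hc' : (fun i => dform 2 (c i)) = par R := funext hc
  rw [← points_congr hF' hG']
  rw [← curves_congr hF' hG'] at h
  refine points_of hE ?_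
  rw [hc']
  apply H
  rw [← hc']
  exact curves_to hE _ h

/-- **From points to curves, over the rational numbers.** -/
theorem converseQ [Finite ι] [Finite γ]
    (H : ∀ (N k : ℕ) (R : Fin k → Fin 4 → Fin (N + 1)) (J : Set (Fin (N + 1))),
      CurvesIn (algebraMap ℚ ℂ) (par R) (coord ℚ J) ↔ PointsIn (par R) (coord ℚ J))
    (F : ι → MvPolynomial (Fin (n + 1)) ℚ) (G : γ → MvPolynomial (Fin (n + 1)) ℚ)
    (hF : ∀ i, ∃ e, (F i).IsHomogeneous e) (hG : ∀ i, ∃ e, (G i).IsHomogeneous e)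
    (h : PointsIn F G) : CurvesIn (algebraMap ℚ ℂ) F G := by
  obtain ⟨N, k, R, φ, c, J, F', G', hc, -, hF'h, -, hF', hG', hE⟩ := exists_parQ F G hF hG
  have hc' : (fun i => dform 2 (c i)) = par R := funext hc
  rw [← curves_congr hF' hG']
  rw [← points_congr hF' hG'] at h
  obtain ⟨κ₁, _, Z, hZh, hZa, hZb⟩ := hE.copies
  have h1 : PointsIn (fun i => dform 2 (c i)) Z := by
    refine implicationQ (fun N k R J => (H N k R J).1) (fun i => dform 2 (c i)) Z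
      (fun i => ⟨2, dform_hom _⟩) hZh ?_
    intro f hf hf0 hfX hnc z s
    obtain ⟨ζ, x, hζ, hxd, hx0, hxF, hfx⟩ := hE.curves (algebraMap ℚ ℂ) f hf hf0 hfX hnc
    refine hZa ℂ (algebraMap ℚ ℂ) (x z) (f z) 1 (hxF z) (fun j => ?_) s
    rw [hfx, mul_pow, hζ]
  refine curves_of hE _ ?_
  rw [hc', H, ← hc']
  exact points_to le_rfl hE hF'h hZb h1 h

variable {K : Type} [Field K] [NumberField K]

/-- **From curves to points.** -/
theorem implicationK [Finite ι] [Finite γ]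
    (H : ∀ (N k : ℕ) (R : Fin k → Fin 4 → Fin (N + 1)) (J : Set (Fin (N + 1))),
      CurvesIn (algebraMap ℚ ℂ) (par R) (coord ℚ J) → PointsIn (par R) (coord ℚ J))
    (F : ι → MvPolynomial (Fin (n + 1)) K) (G : γ → MvPolynomial (Fin (n + 1)) K)
    (hF : ∀ i, ∃ e, (F i).IsHomogeneous e) (hG : ∀ i, ∃ e, (G i).IsHomogeneous e)
    (h : ∀ σ : K →+* ℂ, CurvesIn σ F G) : PointsIn F G :=
  (conj_points hF hG).1 (implicationQ H _ _ (conjF_hom F hF) (conjG_hom G hG) (conj_curves.2 h))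

/-- **From points to curves.** -/
theorem converseK [Finite ι] [Finite γ]
    (H : ∀ (N k : ℕ) (R : Fin k → Fin 4 → Fin (N + 1)) (J : Set (Fin (N + 1))),
      CurvesIn (algebraMap ℚ ℂ) (par R) (coord ℚ J) ↔ PointsIn (par R) (coord ℚ J))
    (F : ι → MvPolynomial (Fin (n + 1)) K) (G : γ → MvPolynomial (Fin (n + 1)) K)
    (hF : ∀ i, ∃ e, (F i).IsHomogeneous e) (hG : ∀ i, ∃ e, (G i).IsHomogeneous e)
    (h : PointsIn F G) : ∀ σ : K →+* ℂ, CurvesIn σ F G :=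
  conj_curves.1 (converseQ H _ _ (conjF_hom F hF) (conjG_hom G hG) ((conj_points hF hG).2 h))

/-- **Hyperbolicity and finiteness, over the rational numbers.** -/
theorem hyperbolicQ [Finite ι]
    (H : ∀ (N k : ℕ) (R : Fin k → Fin 4 → Fin (N + 1)),
      CurvesIn (algebraMap ℚ ℂ) (par R) (fun _ : Unit => 1) → PointsIn (par R) (fun _ : Unit => 1))
    (F : ι → MvPolynomial (Fin (n + 1)) ℚ)
    (hF : ∀ i, ∃ e, (F i).IsHomogeneous e)
    (h : CurvesIn (algebraMap ℚ ℂ) F fun _ : Unit => 1) : PointsIn F fun _ : Unit => 1 := by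
  obtain ⟨N, k, R, φ, c, J, F', G', hc, -, -, -, hF', hG', hE⟩ := exists_parQ F
    (fun _ : Unit => (1 : MvPolynomial (Fin (n + 1)) ℚ)) hF
    (fun _ => ⟨0, isHomogeneous_one _ _⟩)
  have hc' : (fun i => dform 2 (c i)) = par R := funext hc
  rw [← points_congr hF' hG']
  rw [← curves_congr hF' hG'] at h
  refine points_of hE ?_
  rw [hc']
  have h1 : CurvesIn (algebraMap ℚ ℂ) (par R)
      (fun _ : Unit => (1 : MvPolynomial (Fin (N + 1)) ℚ)) := by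
    rw [← hc']
    intro f hf hf0 hfX hnc
    exfalso
    obtain ⟨ζ, x, hζ, hxd, hx0, hxF, hfx⟩ := hE.curves _ f hf hf0 hfX hnc
    obtain ⟨e, hsm⟩ := vals_smul hE
    obtain ⟨z₀, w₀, hnc⟩ := hnc
    have h2 := h x hxd hx0 hxF ⟨z₀, w₀, fun b hb => hnc (b ^ e) (funext fun j => by
      rw [hfx, hb, hsm, Pi.smul_apply, Pi.smul_apply, smul_eq_mul, smul_eq_mul, hfx]
      ring)⟩ 0 ()
    rw [hG'] at h2
    simp at h2
  intro L _ _ _
  refine (H N k R h1 L).subset ?_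
  rintro P ⟨hP, -⟩
  refine ⟨hP, fun hcon => ?_⟩
  have := hcon ()
  simp at this

/-- **Hyperbolicity and finiteness.** -/
theorem hyperbolicK [Finite ι]
    (H : ∀ (N k : ℕ) (R : Fin k → Fin 4 → Fin (N + 1)),
      CurvesIn (algebraMap ℚ ℂ) (par R) (fun _ : Unit => 1) → PointsIn (par R) (fun _ : Unit => 1))
    (F : ι → MvPolynomial (Fin (n + 1)) K)
    (hF : ∀ i, ∃ e, (F i).IsHomogeneous e)
    (h : ∀ σ : K →+* ℂ, CurvesIn σ F fun _ : Unit => 1) : PointsIn F fun _ : Unit => 1 := by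
  have hG : ∀ _ : Unit, ∃ e, (1 : MvPolynomial (Fin (n + 1)) K).IsHomogeneous e :=
    fun _ => ⟨0, isHomogeneous_one _ _⟩
  rw [← conj_points hF hG]
  have h1 : CurvesIn (algebraMap ℚ ℂ) (conjF F)
      (fun _ : Unit => (1 : MvPolynomial (Fin (n + 1 + n + 1)) ℚ)) := by
    intro f hf hf0 hfX hnc z
    exfalso
    have h2 := conj_curves.2 h f hf hf0 hfX hnc z
    have h3 := (conj_pts (F := F) (algebraMap ℚ ℂ) (hf0 z)).1 (hfX z)
    obtain ⟨τ, u, hu, hfu, -⟩ := h3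
    rw [hfu, conj_iff (algebraMap ℚ ℂ) τ hu] at h2
    have := h2 ()
    simp at this
  intro L _ _ _
  refine (hyperbolicQ H _ (conjF_hom F hF) h1 L).subset ?_
  rintro P ⟨hP, -⟩
  refine ⟨hP, fun hcon => ?_⟩
  have := hcon ()
  simp at this

end

end Pool.Agent.H441.FT
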