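import Pool.Agent.H441.FT.Maps
import Pool.Agent.H441.UA.Key

/-!
Two classes of systems of diagonal equations over the complex numbers.
-/

set_option autoImplicit false

namespace Pool.Agent.H441.FT

open MvPolynomial
open Pool.Agent.N254.SQ hiding Extends lin
open Pool.Agent.H441.DQ (dform dform_hom dform_eval)
open Pool.Agent.H441.UA (FEmb vals exists_femb)

/-- the systems of diagonal equations `∑ j, c_j * y_j ^ m = 0` in `P^N` with coefficients in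
`D ∪ {0}` -/
def Diagonal (m : ℕ) (D : Set ℂ) (N k : ℕ) (Y : Fin k → MvPolynomial (Fin (N + 1)) ℂ) : Prop :=
  ∀ i, ∃ c : Fin (N + 1) → ℂ, (∀ j, c j = 0 ∨ c j ∈ D) ∧ Y i = ∑ j, C (c j) * X j ^ m

/-- the systems of equations `y_p ^ 2 + y_q ^ 2 = 2 y_s ^ 2 + 2 y_t ^ 2` or
`y_p ^ 2 - y_q ^ 2 = a (y_s ^ 2 - y_t ^ 2)` in `P^N` -/
def FourTerms (N k : ℕ) (Y : Fin k → MvPolynomial (Fin (N + 1)) ℂ) : Prop :=
  ∀ i, ∃ p q s t : Fin (N + 1), Y i = X p ^ 2 + X q ^ 2 - 2 * (X s ^ 2 + X t ^ 2) ∨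
    ∃ a : ℂ, Y i = X p ^ 2 - X q ^ 2 - C a * (X s ^ 2 - X t ^ 2)

/-- the properties of the classes of systems -/
structure IsClass (m : ℕ) (𝒴 : ∀ N k : ℕ, (Fin k → MvPolynomial (Fin (N + 1)) ℂ) → Prop) :
    Prop where
  pos : 2 ≤ m
  hom : ∀ (N k : ℕ) (Y : Fin k → MvPolynomial (Fin (N + 1)) ℂ), 𝒴 N k Y →
    ∀ i, (Y i).IsHomogeneous m
  emb : ∀ (n : ℕ) (ι κ γ : Type) [Finite ι] [Finite κ] [Finite γ]
    (F : ι → MvPolynomial (Fin (n + 1)) ℂ) (T : κ → MvPolynomial (Fin (n + 1)) ℂ)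
    (G : γ → MvPolynomial (Fin (n + 1)) ℂ), (∀ i, ∃ e, (F i).IsHomogeneous e) →
    (∀ i, ∃ e, (T i).IsHomogeneous e) → (∀ i, ∃ e, (G i).IsHomogeneous e) →
    ∃ (N k : ℕ) (φ : Fin (N + 1) → MvPolynomial (Fin (n + 1)) ℂ) (c : Fin k → Fin (N + 1) → ℂ)
      (I J : Set (Fin (N + 1))), 𝒴 N k (fun i => dform m (c i)) ∧ FEmb m F T G φ c I J

theorem isClass_diagonal {m : ℕ} (hm : 2 ≤ m) {D : Set ℂ} (hD1 : 1 ∈ D) (hD2 : ∀ x ∈ D, -x ∈ D)
    (hD3 : Submodule.span ℚ D = ⊤) : IsClass m (Diagonal m D) := by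
  refine ⟨hm, ?_, ?_⟩
  · intro N k Y hY i
    obtain ⟨c, -, hc⟩ := hY i
    rw [hc]
    exact dform_hom c
  · intro n ι κ γ _ _ _ F T G hF hT hG
    obtain ⟨N, k, φ, c, I, J, hcD, hE⟩ := exists_femb D hD1 hD2 hD3 hm F T G hF hT hG
    exact ⟨N, k, φ, c, I, J, fun i => ⟨c i, hcD i, rfl⟩, hE⟩

theorem isClass_four : IsClass 2 FourTerms := by
  classical
  refine ⟨le_rfl, ?_, ?_⟩
  · intro N k Y hY i
    have h1 := fun j : Fin (N + 1) => (isHomogeneous_X ℂ j).pow 2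
    have h2 := fun (a : ℂ) (P : MvPolynomial (Fin (N + 1)) ℂ) (hP : P.IsHomogeneous (1 * 2)) =>
      (isHomogeneous_C (Fin (N + 1)) a).mul hP
    obtain ⟨p, q, s, t, hi | ⟨a, hi⟩⟩ := hY i
    · rw [hi]
      exact ((h1 p).add (h1 q)).sub (h2 2 _ ((h1 s).add (h1 t)))
    · rw [hi]
      exact ((h1 p).sub (h1 q)).sub (h2 a _ ((h1 s).sub (h1 t)))
  · intro n ι κ γ _ _ _ F T G hF hT hG
    obtain ⟨N, k, φ, c, I, J, hc, hE, -⟩ := exists_four F T G hF hT hG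
    refine ⟨N, k, φ, c, I, J, fun i => ?_, hE⟩
    obtain ⟨p, p', q, q', h⟩ := hc i
    rcases h with h | ⟨x, h⟩
    · refine ⟨p, p', q, q', Or.inl ?_⟩
      simp only
      rw [h, dform_row]
    · refine ⟨p, p', q, q', Or.inr ⟨x, ?_⟩⟩
      have e1 : c i = Pi.single p 1 + (-1 : ℂ) • Pi.single p' 1 +
          (-x) • (Pi.single q 1 + (-1 : ℂ) • Pi.single q' 1) := by
        rw [h, neg_one_smul, neg_one_smul, neg_smul, sub_eq_add_neg, sub_eq_add_neg,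
          sub_eq_add_neg]
      simp only
      rw [e1]
      simp only [dform_add, dform_smul, dform_single, C_neg, C_1]
      ring

section

variable {n : ℕ}

/-- finitely many equations with the same zeros -/
theorem exists_fin (S : Set (MvPolynomial (Fin (n + 1)) ℂ)) :
    ∃ T : Finset (MvPolynomial (Fin (n + 1)) ℂ), (T : Set _) ⊆ S ∧
      ∀ (Ω : Type) [Field Ω] [Algebra ℂ Ω] (x : Fin (n + 1) → Ω),
        (∀ p : T, aeval x (p : MvPolynomial (Fin (n + 1)) ℂ) = 0) ↔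
          ∀ p ∈ S, aeval x p = 0 := by
  obtain ⟨T, hT, hTS⟩ := reduce S
  refine ⟨T, hT, fun Ω _ _ x => ⟨fun hx p hp => ?_, fun hx p => hx p (hT p.2)⟩⟩
  have h1 := hTS Ω (algebraMap ℂ Ω) x (fun p hp => by
    rw [eval_map]
    exact hx ⟨p, hp⟩) p hp
  rwa [eval_map] at h1

theorem root_ne {m N : ℕ} (hm : m ≠ 0) {ζ : Fin (N + 1) → ℂ} (hζ : ∀ j, ζ j ^ m = 1)
    (j : Fin (N + 1)) : ζ j ≠ 0 := by
  intro h0
  have := hζ j
  rw [h0, zero_pow hm] at this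
  exact zero_ne_one this

end

end Pool.Agent.H441.FT
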