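import Pool.Agent.H441.FT.Rat

/-!
The union of the conjugates of a projective variety over a number field, as a projective variety over
the rational numbers.
-/

set_option autoImplicit false

namespace Pool.Agent.H441.FT

open MvPolynomial
open Pool.Agent.N254.SQ hiding Extends lin
open scoped LinearAlgebra.Projectivization

section

/-- a power basis -/
noncomputable def pb (K : Type) [Field K] [NumberField K] : PowerBasis ℚ K :=
  Field.powerBasisOfFiniteOfSeparable ℚ K

variable {K : Type} [Field K] [NumberField K] {n : ℕ}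

theorem hom_ext {Ω : Type} [Field Ω] [CharZero Ω] {τ τ' : K →+* Ω}
    (h : τ (pb K).gen = τ' (pb K).gen) : τ = τ' := by
  have h1 : τ.toRatAlgHom = τ'.toRatAlgHom := (pb K).algHom_ext h
  ext x
  exact DFunLike.congr_fun h1 x

theorem exists_hom {Ω : Type} [Field Ω] [CharZero Ω] (ρ : ℚ →+* Ω) {t : Ω}
    (ht : (minpoly ℚ (pb K).gen).eval₂ ρ t = 0) : ∃ τ : K →+* Ω, τ (pb K).gen = t := by
  have h1 : ρ = algebraMap ℚ Ω := Subsingleton.elim _ _
  have h2 : Polynomial.aeval t (minpoly ℚ (pb K).gen) = 0 := by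
    rw [Polynomial.aeval_def, ← h1]
    exact ht
  exact ⟨((pb K).lift t h2).toRingHom, (pb K).lift_gen t h2⟩

/-- the components of a polynomial with respect to the power basis -/
noncomputable def cpt (P : MvPolynomial (Fin (n + 1)) K) (l : Fin (pb K).dim) :
    MvPolynomial (Fin (n + 1)) ℚ :=
  ∑ s ∈ P.support, monomial s ((pb K).basis.repr (coeff s P) l)

theorem cpt_hom {P : MvPolynomial (Fin (n + 1)) K} {e : ℕ} (hP : P.IsHomogeneous e)
    (l : Fin (pb K).dim) : (cpt P l).IsHomogeneous e := by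
  unfold cpt
  apply IsHomogeneous.sum
  intro s hs
  apply isHomogeneous_monomial
  have h1 := hP (mem_support_iff.1 hs)
  rw [Finsupp.degree_eq_weight_one]
  exact h1

theorem cpt_eval {Ω : Type} [Field Ω] (ρ : ℚ →+* Ω) (τ : K →+* Ω)
    (P : MvPolynomial (Fin (n + 1)) K) (u : Fin (n + 1) → Ω) :
    eval₂ τ u P = ∑ l : Fin (pb K).dim, τ (pb K).gen ^ (l : ℕ) * eval₂ ρ u (cpt P l) := by
  have hρ : ∀ q : ℚ, ρ q = τ (algebraMap ℚ K q) := by
    intro q
    have : ρ = τ.comp (algebraMap ℚ K) := Subsingleton.elim _ _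
    rw [this]
    rfl
  have h1 : ∀ l, eval₂ ρ u (cpt P l) =
      ∑ s ∈ P.support, ρ ((pb K).basis.repr (coeff s P) l) * ∏ i, u i ^ s i := by
    intro l
    unfold cpt
    rw [← coe_eval₂Hom, map_sum]
    refine Finset.sum_congr rfl fun s _ => ?_
    rw [coe_eval₂Hom, eval₂_monomial, Finsupp.prod_fintype]
    intro i
    exact pow_zero _
  rw [eval₂_eq']
  simp only [h1, Finset.mul_sum]
  rw [Finset.sum_comm]
  refine Finset.sum_congr rfl fun s _ => ?_
  have h2 : coeff s P = ∑ l : Fin (pb K).dim,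
      (pb K).basis.repr (coeff s P) l • (pb K).gen ^ (l : ℕ) := by
    conv_lhs => rw [← (pb K).basis.sum_repr (coeff s P)]
    refine Finset.sum_congr rfl fun l _ => ?_
    rw [PowerBasis.coe_basis]
  conv_lhs => rw [h2]
  rw [map_sum, Finset.sum_mul]
  refine Finset.sum_congr rfl fun l _ => ?_
  rw [Algebra.smul_def, map_mul, map_pow, hρ]
  ring

/-- the first coordinates -/
def lft {n : ℕ} (i : Fin (n + 1)) : Fin (n + 1 + n + 1) := Fin.castAdd (n + 1) i

/-- the second coordinates -/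
def rgt {n : ℕ} (i : Fin (n + 1)) : Fin (n + 1 + n + 1) := Fin.natAdd (n + 1) i

/-- the point with given coordinates -/
def app {n : ℕ} {Ω : Type} (u v : Fin (n + 1) → Ω) : Fin (n + 1 + n + 1) → Ω :=
  Fin.append (m := n + 1) (n := n + 1) u v

theorem app_lft {Ω : Type} (u v : Fin (n + 1) → Ω) (i : Fin (n + 1)) : app u v (lft i) = u i :=
  Fin.append_left (m := n + 1) (n := n + 1) u v i

theorem app_rgt {Ω : Type} (u v : Fin (n + 1) → Ω) (i : Fin (n + 1)) : app u v (rgt i) = v i :=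
  Fin.append_right (m := n + 1) (n := n + 1) u v i

theorem eq_app {Ω : Type} (y : Fin (n + 1 + n + 1) → Ω) :
    y = app (fun i => y (lft i)) fun i => y (rgt i) :=
  (Fin.append_castAdd_natAdd (m := n + 1) (n := n + 1)
    (f := (y : Fin ((n + 1) + (n + 1)) → Ω))).symm

theorem app_smul {Ω : Type} [Field Ω] (u v : Fin (n + 1) → Ω) (b : Ω) :
    app (b • u) (b • v) = b • app u v := by
  rw [eq_app (b • app u v)]
  simp only [Pi.smul_apply, app_lft, app_rgt]
  rfl

theorem app_ne {Ω : Type} [Field Ω] {u v : Fin (n + 1) → Ω} (hu : u ≠ 0) : app u v ≠ 0 := by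
  intro h
  apply hu
  funext i
  rw [← app_lft u v i, h]
  rfl

/-- `u_i v_j - u_j v_i` -/
noncomputable def hom1 (n : ℕ) (z : Fin (n + 1) × Fin (n + 1)) :
    MvPolynomial (Fin (n + 1 + n + 1)) ℚ :=
  X (lft z.1) * X (rgt z.2) - X (lft z.2) * X (rgt z.1)

/-- the homogeneous minimal polynomial at `v_i, u_i` -/
noncomputable def hom2 (K : Type) [Field K] [NumberField K] (n : ℕ) (i : Fin (n + 1)) :
    MvPolynomial (Fin (n + 1 + n + 1)) ℚ :=
  ∑ k ∈ Finset.range ((pb K).dim + 1), C ((minpoly ℚ (pb K).gen).coeff k) * X (rgt i) ^ k *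
    X (lft i) ^ ((pb K).dim - k)

/-- the equations of the conjugates -/
noncomputable def hom3 (P : MvPolynomial (Fin (n + 1)) K) (i : Fin (n + 1)) :
    MvPolynomial (Fin (n + 1 + n + 1)) ℚ :=
  ∑ l : Fin (pb K).dim, rename lft (cpt P l) * X (rgt i) ^ (l : ℕ) *
    X (lft i) ^ ((pb K).dim - 1 - l)

theorem hom1_hom (z : Fin (n + 1) × Fin (n + 1)) : (hom1 n z).IsHomogeneous 2 :=
  ((isHomogeneous_X _ _).mul (isHomogeneous_X _ _)).sub
    ((isHomogeneous_X _ _).mul (isHomogeneous_X _ _))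

theorem hom2_hom (i : Fin (n + 1)) : (hom2 K n i).IsHomogeneous (pb K).dim := by
  unfold hom2
  apply IsHomogeneous.sum
  intro k hk
  have h1 := ((isHomogeneous_C (Fin (n + 1 + n + 1)) ((minpoly ℚ (pb K).gen).coeff k)).mul
    ((isHomogeneous_X ℚ (rgt i)).pow k)).mul ((isHomogeneous_X ℚ (lft i)).pow ((pb K).dim - k))
  have e : 0 + 1 * k + 1 * ((pb K).dim - k) = (pb K).dim := by
    have := Finset.mem_range.1 hk
    omega
  rwa [e] at h1

theorem hom3_hom {P : MvPolynomial (Fin (n + 1)) K} {e : ℕ} (hP : P.IsHomogeneous e)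
    (i : Fin (n + 1)) : (hom3 P i).IsHomogeneous (e + ((pb K).dim - 1)) := by
  unfold hom3
  apply IsHomogeneous.sum
  intro l _
  have h1 := (((cpt_hom hP l).rename_isHomogeneous (f := lft)).mul
    ((isHomogeneous_X ℚ (rgt i)).pow (l : ℕ))).mul
    ((isHomogeneous_X ℚ (lft i)).pow ((pb K).dim - 1 - l))
  have e : e + 1 * (l : ℕ) + 1 * ((pb K).dim - 1 - l) = e + ((pb K).dim - 1) := by
    have := l.2
    omega
  rwa [e] at h1

theorem hom2_eval {Ω : Type} [Field Ω] (ρ : ℚ →+* Ω) (u : Fin (n + 1) → Ω) (t : Ω)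
    (i : Fin (n + 1)) : eval₂ ρ (app u (t • u)) (hom2 K n i) =
      u i ^ (pb K).dim * (minpoly ℚ (pb K).gen).eval₂ ρ t := by
  unfold hom2
  rw [Polynomial.eval₂_eq_sum_range, (pb K).natDegree_minpoly, Finset.mul_sum, ← coe_eval₂Hom,
    map_sum]
  refine Finset.sum_congr rfl fun k hk => ?_
  have hk' := Finset.mem_range.1 hk
  rw [map_mul, map_mul, map_pow, map_pow, coe_eval₂Hom, eval₂_C, eval₂_X, eval₂_X, app_lft,
    app_rgt, Pi.smul_apply, smul_eq_mul, mul_pow]
  have e : u i ^ (pb K).dim = u i ^ k * u i ^ ((pb K).dim - k) := by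
    rw [← pow_add]
    congr 1
    omega
  rw [e]
  ring

theorem hom3_eval {Ω : Type} [Field Ω] (ρ : ℚ →+* Ω) (τ : K →+* Ω) (u : Fin (n + 1) → Ω)
    (P : MvPolynomial (Fin (n + 1)) K) (i : Fin (n + 1)) :
    eval₂ ρ (app u (τ (pb K).gen • u)) (hom3 P i) =
      u i ^ ((pb K).dim - 1) * eval₂ τ u P := by
  unfold hom3
  rw [cpt_eval ρ τ, Finset.mul_sum, ← coe_eval₂Hom, map_sum]
  refine Finset.sum_congr rfl fun l _ => ?_
  have h1 : eval₂ ρ (app u (τ (pb K).gen • u)) (rename lft (cpt P l)) = eval₂ ρ u (cpt P l) := by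
    rw [eval₂_rename]
    congr 1
    funext j
    exact app_lft _ _ _
  rw [map_mul, map_mul, map_pow, map_pow, coe_eval₂Hom, h1, eval₂_X, eval₂_X, app_lft,
    app_rgt, Pi.smul_apply, smul_eq_mul, mul_pow]
  have e : u i ^ ((pb K).dim - 1) = u i ^ (l : ℕ) * u i ^ ((pb K).dim - 1 - l) := by
    rw [← pow_add]
    congr 1
    have := l.2
    omega
  rw [e]
  ring

variable {ι γ : Type} (F : ι → MvPolynomial (Fin (n + 1)) K)
  (G : γ → MvPolynomial (Fin (n + 1)) K)

/-- the equations of the union of the conjugates -/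
noncomputable def conjF : (Fin (n + 1) × Fin (n + 1)) ⊕ (Fin (n + 1) ⊕ (ι × Fin (n + 1))) →
    MvPolynomial (Fin (n + 1 + n + 1)) ℚ :=
  Sum.elim (hom1 n) (Sum.elim (hom2 K n) fun z => hom3 (F z.1) z.2)

/-- the equations of the union of the conjugates of a subset -/
noncomputable def conjG : γ × Fin (n + 1) → MvPolynomial (Fin (n + 1 + n + 1)) ℚ :=
  fun z => hom3 (G z.1) z.2

theorem conjF_hom (hF : ∀ i, ∃ e, (F i).IsHomogeneous e)
    (a : (Fin (n + 1) × Fin (n + 1)) ⊕ (Fin (n + 1) ⊕ (ι × Fin (n + 1)))) :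
    ∃ e, (conjF F a).IsHomogeneous e := by
  rcases a with z | i | z
  · exact ⟨_, hom1_hom z⟩
  · exact ⟨_, hom2_hom i⟩
  · obtain ⟨e, he⟩ := hF z.1
    exact ⟨_, hom3_hom he z.2⟩

theorem conjG_hom (hG : ∀ i, ∃ e, (G i).IsHomogeneous e) (a : γ × Fin (n + 1)) :
    ∃ e, (conjG G a).IsHomogeneous e := by
  obtain ⟨e, he⟩ := hG a.1
  exact ⟨_, hom3_hom he a.2⟩

variable {G} in
theorem conj_iff {Ω : Type} [Field Ω] (ρ : ℚ →+* Ω) (τ : K →+* Ω) {u : Fin (n + 1) → Ω}
    (hu : u ≠ 0) : (∀ a, eval₂ ρ (app u (τ (pb K).gen • u)) (conjG G a) = 0) ↔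
      ∀ l, eval₂ τ u (G l) = 0 := by
  constructor
  · intro h l
    obtain ⟨i, hi⟩ : ∃ i, u i ≠ 0 := by
      by_contra hcon
      push Not at hcon
      exact hu (funext hcon)
    have h1 := h (l, i)
    unfold conjG at h1
    rw [hom3_eval] at h1
    exact (mul_eq_zero.1 h1).resolve_left (pow_ne_zero _ hi)
  · intro h a
    unfold conjG
    rw [hom3_eval, h, mul_zero]

variable {F} in
theorem conj_pts {Ω : Type} [Field Ω] [CharZero Ω] (ρ : ℚ →+* Ω)
    {y : Fin (n + 1 + n + 1) → Ω} (hy : y ≠ 0) : (∀ a, eval₂ ρ y (conjF F a) = 0) ↔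
      ∃ (τ : K →+* Ω) (u : Fin (n + 1) → Ω), u ≠ 0 ∧ y = app u (τ (pb K).gen • u) ∧
        ∀ i, eval₂ τ u (F i) = 0 := by
  constructor
  · intro h
    obtain ⟨u, hu⟩ : ∃ u : Fin (n + 1) → Ω, u = fun i => y (lft i) := ⟨_, rfl⟩
    obtain ⟨v, hv⟩ : ∃ v : Fin (n + 1) → Ω, v = fun i => y (rgt i) := ⟨_, rfl⟩
    have hyuv : y = app u v := by
      rw [hu, hv]
      exact eq_app y
    have h1 : ∀ i j, u i * v j = u j * v i := by
      intro i j
      have := h (Sum.inl (i, j))
      change eval₂ ρ y (X (lft i) * X (rgt j) - X (lft j) * X (rgt i)) = 0 at this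
      rw [← coe_eval₂Hom, map_sub, map_mul, map_mul, coe_eval₂Hom, eval₂_X, eval₂_X, eval₂_X,
        eval₂_X] at this
      rw [hu, hv]
      exact sub_eq_zero.1 this
    have h2 : ∀ i, ∑ k ∈ Finset.range ((pb K).dim + 1), ρ ((minpoly ℚ (pb K).gen).coeff k) *
        v i ^ k * u i ^ ((pb K).dim - k) = 0 := by
      intro i
      have := h (Sum.inr (Sum.inl i))
      change eval₂ ρ y (hom2 K n i) = 0 at this
      unfold hom2 at this
      rw [← coe_eval₂Hom, map_sum] at this
      rw [← this]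
      refine Finset.sum_congr rfl fun k _ => ?_
      rw [map_mul, map_mul, map_pow, map_pow, coe_eval₂Hom, eval₂_C, eval₂_X, eval₂_X, hu, hv]
    have hu0 : u ≠ 0 := by
      intro h0
      apply hy
      have hv0 : v = 0 := by
        funext i
        have h3 := h2 i
        rw [Finset.sum_eq_single (pb K).dim] at h3
        · rw [Nat.sub_self, pow_zero, mul_one, ← (pb K).natDegree_minpoly] at h3
          have hmonic : (minpoly ℚ (pb K).gen).Monic :=
            minpoly.monic (Algebra.IsIntegral.isIntegral _)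
          rw [hmonic.coeff_natDegree, map_one, one_mul] at h3
          exact eq_zero_of_pow_eq_zero h3
        · intro k hk hkd
          have := Finset.mem_range.1 hk
          rw [h0, Pi.zero_apply, zero_pow (by omega), mul_zero]
        · intro hcon
          exact absurd (Finset.mem_range.2 (by omega)) hcon
      rw [hyuv, h0, hv0, eq_app (0 : Fin (n + 1 + n + 1) → Ω)]
      rfl
    obtain ⟨i, hi⟩ : ∃ i, u i ≠ 0 := by
      by_contra hcon
      push Not at hcon
      exact hu0 (funext hcon)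
    obtain ⟨t, ht⟩ : ∃ t, t = v i / u i := ⟨_, rfl⟩
    have hvt : v = t • u := by
      funext j
      rw [Pi.smul_apply, smul_eq_mul, ht, div_mul_eq_mul_div, eq_div_iff hi]
      have := h1 i j
      linear_combination this
    rw [hvt] at hyuv
    have h3 := h (Sum.inr (Sum.inl i))
    change eval₂ ρ y (hom2 K n i) = 0 at h3
    rw [hyuv, hom2_eval] at h3
    obtain ⟨τ, hτ⟩ := exists_hom ρ ((mul_eq_zero.1 h3).resolve_left (pow_ne_zero _ hi))
    rw [← hτ] at hyuv
    refine ⟨τ, u, hu0, hyuv, ?_⟩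
    rw [← conj_iff ρ τ hu0, ← hyuv]
    intro a
    exact h (Sum.inr (Sum.inr a))
  · rintro ⟨τ, u, hu, rfl, hF⟩ a
    rcases a with z | i | z
    · change eval₂ ρ _ (X (lft z.1) * X (rgt z.2) - X (lft z.2) * X (rgt z.1)) = 0
      rw [← coe_eval₂Hom, map_sub, map_mul, map_mul, coe_eval₂Hom, eval₂_X, eval₂_X, eval₂_X,
        eval₂_X, app_lft, app_lft, app_rgt, app_rgt, Pi.smul_apply, Pi.smul_apply, smul_eq_mul,
        smul_eq_mul]
      ring
    · change eval₂ ρ _ (hom2 K n i) = 0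
      have h1 : ρ = τ.comp (algebraMap ℚ K) := Subsingleton.elim _ _
      rw [hom2_eval, h1, ← Polynomial.hom_eval₂, ← Polynomial.aeval_def, minpoly.aeval,
        map_zero, mul_zero]
    · change eval₂ ρ _ (hom3 (F z.1) z.2) = 0
      rw [hom3_eval, hF, mul_zero]

end

end Pool.Agent.H441.FT
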