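import Pool.Agent.H441.FT.Row
import Pool.Agent.H441.UA.Emb

/-!
The Veronese image of a projective variety by binomials and squares of linear forms.
-/

set_option autoImplicit false

namespace Pool.Agent.H441.FT

open MvPolynomial
open Pool.Agent.N254.SQ hiding Extends lin
open Pool.Agent.H441.DF (Cut mult)
open Pool.Agent.H441.DQ (vec vec_eval linK linK_hom linK_eval)

section

variable {K : Type} [Field K] [CharZero K] {n M e : ℕ} {v : Fin (M + 1) → Fin (n + 1) → ℕ}
  {ι κ : Type}

/-- the binomials and the squares -/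
noncomputable def qq (v : Fin (M + 1) → Fin (n + 1) → ℕ) (F : κ → MvPolynomial (Fin (n + 1)) K) :
    {t : Fin (M + 1) × Fin (M + 1) × Fin (M + 1) × Fin (M + 1) //
      v t.1 + v t.2.1 = v t.2.2.1 + v t.2.2.2} ⊕ κ → MvPolynomial (Fin (M + 1)) K :=
  Sum.elim (fun t => X t.1.1 * X t.1.2.1 - X t.1.2.2.1 * X t.1.2.2.2)
    fun k => linK (vec v (F k)) ^ 2

theorem cut_sq (hv : Mon n M e v) (he : 1 ≤ e) (F : ι → MvPolynomial (Fin (n + 1)) K)
    (F' : κ → MvPolynomial (Fin (n + 1)) K) (hF' : ∀ k, (F' k).IsHomogeneous e)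
    (hFF' : ∀ (Ω : Type) [Field Ω] (τ : K →+* Ω) (x : Fin (n + 1) → Ω), x ≠ 0 →
      ((∀ k, eval₂ τ x (F' k) = 0) ↔ ∀ i, eval₂ τ x (F i) = 0)) : Cut v F (qq v F') := by
  classical
  have hlin : ∀ (Ω : Type) [Field Ω] [Algebra K Ω] (x : Fin (n + 1) → Ω) (k : κ),
      aeval (ver v x) (linK (vec (K := K) v (F' k))) = aeval x (F' k) := by
    intro Ω _ _ x k
    rw [linK_eval]
    exact vec_eval (R := K) hv (hF' k) (algebraMap K Ω) x
  refine ⟨?_, ?_, ?_⟩
  · rintro (t | k)
    · exact ((isHomogeneous_X K _).mul (isHomogeneous_X K _)).sub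
        ((isHomogeneous_X K _).mul (isHomogeneous_X K _))
    · exact linK_hom _ 2
  · intro Ω _ _ x hx i
    rcases i with t | k
    · change aeval (ver v x) (X t.1.1 * X t.1.2.1 - X t.1.2.2.1 * X t.1.2.2.2) = 0
      simp only [map_sub, map_mul, aeval_X]
      unfold ver
      rw [← ver_add, ← ver_add, t.2, sub_self]
    · change aeval (ver v x) (linK (vec v (F' k)) ^ 2) = 0
      rw [map_pow, hlin]
      have h1 : aeval x (F' k) = 0 := by
        by_cases hx0 : x = 0
        · rw [hx0]
          change aeval (fun _ => (0 : Ω)) (F' k) = 0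
          have h0 : coeff 0 (F' k) = 0 := by
            by_contra hne
            have := hF' k hne
            rw [map_zero] at this
            omega
          rw [aeval_zero', constantCoeff_eq, h0, map_zero]
        · exact (hFF' Ω (algebraMap K Ω) x hx0).2 hx k
      rw [h1, zero_pow two_ne_zero]
  · intro Ω _ _ y hy0 hy
    have hrel : ∀ p q r s : Fin (M + 1), v p + v q = v r + v s → y p * y q = y r * y s := by
      intro p q r s h
      have h1 := hy (Sum.inl ⟨(p, q, r, s), h⟩)
      change aeval y (X p * X q - X r * X s) = 0 at h1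
      simp only [map_sub, map_mul, aeval_X] at h1
      exact sub_eq_zero.1 h1
    obtain ⟨a, b, hb, hyb⟩ := ver_exists hv he y hy0 hrel
    have ht : ∀ j, ∃ u, v u + Pi.single a 1 = v b + Pi.single j 1 := by
      intro j
      apply ver_shift hv b j a
      rw [hb, Pi.single_eq_same]
      omega
    choose t ht using ht
    have hpt := ver_point hv he y hrel a b hb hyb t ht
    obtain ⟨x, hx⟩ : ∃ x : Fin (n + 1) → Ω, x = fun j => y (t j) / y b := ⟨_, rfl⟩
    rw [← hx] at hpt
    have hxa : x a = 1 := by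
      have e1 : t a = b := hv.inj (add_right_cancel (ht a))
      rw [hx]
      simp only
      rw [e1]
      exact div_self hyb
    have hx0 : x ≠ 0 := by
      rintro rfl
      exact zero_ne_one hxa
    refine ⟨x, a, b, hxa, hyb, hpt, ?_⟩
    apply (hFF' Ω (algebraMap K Ω) x hx0).1
    intro k
    have h1 := hy (Sum.inr k)
    change aeval y (linK (vec v (F' k)) ^ 2) = 0 at h1
    rw [map_pow] at h1
    have h2 := pow_eq_zero_iff (two_ne_zero) |>.1 h1
    have h3 : y = y b • ver v x := funext fun c => hpt c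
    rw [linK_eval] at h2
    have h4 := hlin Ω x k
    rw [linK_eval] at h4
    change aeval x (F' k) = 0
    rw [← h4]
    have h5 : y b * ∑ l, algebraMap K Ω (vec v (F' k) l) * ver v x l = 0 := by
      rw [← h2, Finset.mul_sum]
      refine Finset.sum_congr rfl fun l _ => ?_
      rw [hpt l]
      ring
    exact (mul_eq_zero.1 h5).resolve_left hyb

end

/-- the multiples of forms of a given degree, with the same coefficients -/
theorem exists_mult' {K : Type} [Field K] {n e : ℕ} {κ : Type} [Finite κ]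
    (T : κ → MvPolynomial (Fin (n + 1)) K) (hT : ∀ k, ∃ d ≤ e, (T k).IsHomogeneous d) :
    ∃ (κ' : Type) (_ : Finite κ') (T' : κ' → MvPolynomial (Fin (n + 1)) K),
      (∀ k, (T' k).IsHomogeneous e) ∧
      (∀ (Ω : Type) [Field Ω] (τ : K →+* Ω) (x : Fin (n + 1) → Ω), x ≠ 0 →
        ((∃ k, eval₂ τ x (T' k) ≠ 0) ↔ ∃ k, eval₂ τ x (T k) ≠ 0)) ∧
      ∀ k s, coeff s (T' k) = 0 ∨ ∃ k₀ s₀, coeff s (T' k) = coeff s₀ (T k₀) := by
  classical
  choose d hd hTd using hT
  let κ' : Type := Σ k : κ, {α : Fin (n + 1) → Fin (e + 1) // ∑ j, (α j : ℕ) = e - d k}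
  let T' : κ' → MvPolynomial (Fin (n + 1)) K := fun p => T p.1 * ∏ j, X j ^ (p.2.1 j : ℕ)
  have hev : ∀ (Ω : Type) [Field Ω] (τ : K →+* Ω) (x : Fin (n + 1) → Ω) (p : κ'),
      eval₂ τ x (T' p) = eval₂ τ x (T p.1) * ∏ j, x j ^ (p.2.1 j : ℕ) := by
    intro Ω _ τ x p
    simp only [T']
    rw [eval₂_mul, ← coe_eval₂Hom, map_prod]
    simp
  -- powers of one variable
  have hpow : ∀ (k : κ) (j : Fin (n + 1)), ∃ p : κ', p.1 = k ∧ ∀ (Ω : Type) [Field Ω]
      (x : Fin (n + 1) → Ω), ∏ i, x i ^ (p.2.1 i : ℕ) = x j ^ (e - d k) := by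
    intro k j
    refine ⟨⟨k, ⟨fun i => if i = j then ⟨e - d k, by omega⟩ else 0, ?_⟩⟩, rfl, ?_⟩
    · rw [Finset.sum_eq_single j]
      · simp
      · intro i _ hi
        simp [hi]
      · intro h
        exact absurd (Finset.mem_univ j) h
    · intro Ω _ x
      simp only
      rw [Finset.prod_eq_single j]
      · simp
      · intro i _ hi
        simp [hi]
      · intro h
        exact absurd (Finset.mem_univ j) h
  refine ⟨κ', inferInstance, T', ?_, ?_, ?_⟩
  · rintro ⟨k, α, hα⟩
    have h1 := (hTd k).mul (UA.prodX_hom (K := K) fun i => (α i : ℕ))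
    have h2 : d k + ∑ i, (α i : ℕ) = e := by
      rw [hα]
      have := hd k
      omega
    rwa [h2] at h1
  · intro Ω _ τ x hx
    constructor
    · rintro ⟨p, hp⟩
      rw [hev] at hp
      exact ⟨p.1, left_ne_zero_of_mul hp⟩
    · rintro ⟨k, hk⟩
      obtain ⟨j, hj⟩ : ∃ j, x j ≠ 0 := by
        by_contra hcon
        push Not at hcon
        exact hx (funext hcon)
      obtain ⟨p, hp1, hp2⟩ := hpow k j
      refine ⟨p, ?_⟩
      rw [hev, hp2, hp1]
      exact mul_ne_zero hk (pow_ne_zero _ hj)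
  · rintro ⟨k, α, hα⟩ s
    have e1 : (∏ j, X j ^ (α j : ℕ) : MvPolynomial (Fin (n + 1)) K) =
        monomial (Finsupp.equivFunOnFinite.symm fun j => (α j : ℕ)) 1 := by
      rw [monomial_eq, C_1, one_mul, Finsupp.prod_fintype]
      · rfl
      · intro i
        exact pow_zero _
    have e2 : coeff s (T' ⟨k, α, hα⟩) = coeff s (T k *
        monomial (Finsupp.equivFunOnFinite.symm fun j => (α j : ℕ)) 1) := by
      rw [← e1]
    rw [e2, coeff_mul_monomial']
    split
    · right
      exact ⟨k, _, mul_one _⟩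
    · left
      rfl

end Pool.Agent.H441.FT
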