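import Pool.Agent.H441.UA.Key
import Pool.Graph.R_pool_sql_team_seeded_63374d34.N254.SQ.VerSurj

/-!
Forms on a variety as functions of the powers of the coordinates of its embedding.
-/

set_option autoImplicit false

namespace Pool.Agent.H441.FT

open MvPolynomial
open Pool.Agent.N254.SQ hiding Extends lin
open Pool.Agent.H441.DF (exists_mon)
open Pool.Agent.H441.DQ (linK linK_hom linK_eval comb comb_surj comb_eval Box lins)
open Pool.Agent.H441.UA (FEmb vals mform mform_eval twist twist_hom twist_form twist_eval pullφ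
  pullφ_eval form_smul)
open Pool.Agent.W602.GT (GeneralType coords SubVar val)

/-- some power of every form is a form in the `m`-th powers of the coordinates -/
def Pow {K : Type} [Field K] (m : ℕ) {n N : ℕ} (φ : Fin (N + 1) → MvPolynomial (Fin (n + 1)) K) :
    Prop :=
  ∀ (σ : K →+* ℂ) (Q : MvPolynomial (Fin (n + 1)) ℂ), IsForm Q →
    ∃ (P : MvPolynomial (Fin (N + 1)) ℂ) (r d : ℕ), IsForm P ∧ 1 ≤ r ∧
      ∀ (Ω : Type) [Field Ω] [Algebra ℂ Ω] (x : Fin (n + 1) → Ω) (y : Fin (N + 1) → Ω) (t : Ω),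
        (∀ j, y j ^ m = t * vals ((algebraMap ℂ Ω).comp σ) φ x j ^ m) →
        aeval y P = t ^ d * aeval x Q ^ r

theorem pow_of {K : Type} [Field K] [CharZero K] {m n M e N B : ℕ} (hm : 1 ≤ m) (he : 1 ≤ e)
    {v : Fin (M + 1) → Fin (n + 1) → ℕ} (hv : Mon n M e v) {A : Fin (N + 1) → Fin (M + 1) → K}
    (ha : Box B A) (hB : m ≤ B) : Pow m (fun j => mform v (A j)) := by
  intro σ Q hQ
  obtain ⟨p, hp⟩ := hQ
  obtain ⟨M', v', hv'⟩ := exists_mon M m
  -- forms in the monomials
  have hQ1 : (Q ^ (e * m)).IsHomogeneous (e * (m * p)) := by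
    have := hp.pow (e * m)
    have e1 : p * (e * m) = e * (m * p) := by ring
    rwa [e1] at this
  obtain ⟨G₁, hG₁, hG₁Q⟩ := t_versurj n M e v hv (m * p) _ hQ1
  obtain ⟨G₂, hG₂, hG₂G⟩ := t_versurj M M' m v' hv' p G₁ hG₁
  have hβ : ∀ β : Fin (M' + 1), ∃ c, comb m A c = ∏ i, X i ^ v' β i := by
    intro β
    apply comb_surj ha hB
    have := UA.prodX_hom (K := K) (v' β)
    rwa [hv'.deg] at this
  choose b hb using hβ
  obtain ⟨P, hP⟩ : ∃ P : MvPolynomial (Fin (N + 1)) ℂ, P = aeval (fun β =>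
    ∑ j, C (σ (b β j)) * (X j : MvPolynomial (Fin (N + 1)) ℂ) ^ m) G₂ := ⟨_, rfl⟩
  refine ⟨P, e * m, p, ⟨m * p, ?_⟩, Nat.mul_pos he hm, ?_⟩
  · rw [hP]
    refine hG₂.aeval _ fun β => ?_
    apply IsHomogeneous.sum
    intro j _
    have h1 := (isHomogeneous_C (Fin (N + 1)) (σ (b β j))).mul ((isHomogeneous_X ℂ j).pow m)
    have e1 : 0 + 1 * m = m := by omega
    rwa [e1] at h1
  · intro Ω _ _ x y t hy
    obtain ⟨w, hw⟩ : ∃ w : Fin (M + 1) → Ω, w = ver v x := ⟨_, rfl⟩
    have h1 : aeval y P = aeval (fun β => ∑ j, algebraMap ℂ Ω (σ (b β j)) * y j ^ m) G₂ := by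
      rw [hP, ← AlgHom.comp_apply]
      congr 1
      apply MvPolynomial.algHom_ext
      intro β
      rw [AlgHom.comp_apply, aeval_X, aeval_X, map_sum]
      refine Finset.sum_congr rfl fun j _ => ?_
      rw [map_mul, map_pow, aeval_C, aeval_X]
    have h2 : (fun β => ∑ j, algebraMap ℂ Ω (σ (b β j)) * y j ^ m) = t • ver v' w := by
      funext β
      rw [Pi.smul_apply, smul_eq_mul]
      let _ : Algebra K Ω := ((algebraMap ℂ Ω).comp σ).toAlgebra
      have h3 := comb_eval (m := m) (A := A) (b β) w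
      rw [hb, map_prod] at h3
      have h4 : ∏ i, aeval w ((X i : MvPolynomial (Fin (M + 1)) K) ^ v' β i) = ver v' w β := by
        unfold ver
        refine Finset.prod_congr rfl fun i _ => ?_
        rw [map_pow, aeval_X]
      rw [h4] at h3
      rw [h3, Finset.mul_sum]
      refine Finset.sum_congr rfl fun j _ => ?_
      have h5 : vals ((algebraMap ℂ Ω).comp σ) (fun j => mform v (A j)) x j =
          ∑ l, algebraMap K Ω (A j l) * w l := by
        unfold vals
        rw [mform_eval, hw]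
        rfl
      rw [hy, h5]
      change algebraMap ℂ Ω (σ (b β j)) * _ = t * (algebraMap ℂ Ω (σ (b β j)) * _)
      ring
    have h6 : aeval (ver v' w) G₂ = aeval w G₁ := by
      rw [← hG₂G, ← aeval_pull]
      rfl
    have h7 : aeval w G₁ = aeval x Q ^ (e * m) := by
      rw [← map_pow, ← hG₁Q, hw, ← aeval_pull]
      rfl
    have h8 : aeval (t • ver v' w) G₂ = t ^ p * aeval (ver v' w) G₂ := by
      have := eval₂_scale (algebraMap ℂ Ω) hG₂ t (ver v' w)
      exact this
    rw [h1, h2, h8, h6, h7]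

section

variable {K : Type} [Field K] {m n N k : ℕ} {ι κ γ : Type} {F : ι → MvPolynomial (Fin (n + 1)) K}
  {T : κ → MvPolynomial (Fin (n + 1)) K} {G : γ → MvPolynomial (Fin (n + 1)) K}
  {φ : Fin (N + 1) → MvPolynomial (Fin (n + 1)) K} {c : Fin k → Fin (N + 1) → K}
  {I J : Set (Fin (N + 1))}

/-- **The key lemma for components.** -/
theorem key2 (hC : Comp_stm) (hm : m ≠ 0) (σ : K →+* ℂ) (hE : FEmb m F T G φ c I J)
    (hpow : Pow m φ) {L : Type}
    [Field L] [Algebra ℂ L] {w : ℕ} {y : Fin (n + 1) → L} (hw : 1 ≤ w) (hy : Gen L w y)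
    (hirr : ∀ P, IsForm P → aeval y P = 0 → ∀ (Ω : Type) [Field Ω] [Algebra ℂ Ω]
      (x : Fin (n + 1) → Ω), x ≠ 0 → (∀ i, eval₂ ((algebraMap ℂ Ω).comp σ) x (F i) = 0) →
        (∀ Q, IsForm Q → aeval x Q = 0 → aeval y Q = 0) → aeval x P = 0)
    (hgt : GeneralType ℂ L w) {Q : MvPolynomial (Fin (N + 1)) ℂ → Prop} (hQ : Idl Q)
    (hQc : ∀ i, Q (map σ (DQ.dform m (c i))))
    (hno : ∀ (L' : Type) [Field L'] [Algebra ℂ L'] (w' : ℕ) (y' : Fin (N + 1) → L'), 1 ≤ w' →
      SubVar (fun i : Fin k => map σ (DQ.dform m (c i))) L' w' y' → GeneralType ℂ L' w' →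
      ¬ Component Q y') :
    ∃ P, IsForm P ∧ Q P ∧ aeval (vals ((algebraMap ℂ L).comp σ) φ y) P ≠ 0 := by
  by_contra hcon
  push Not at hcon
  have hform : ∀ i, IsForm (map σ (DQ.dform m (c i))) := fun i => ⟨m, (DQ.dform_hom (c i)).map σ⟩
  have hsub : ∀ (L' : Type) [Field L'] [Algebra ℂ L'] (w' : ℕ) (y' : Fin (N + 1) → L'),
      Gen L' w' y' → (∀ P, IsForm P → Q P → aeval y' P = 0) →
      SubVar (fun i : Fin k => map σ (DQ.dform m (c i))) L' w' y' := by
    intro L' _ _ w' y' hg hv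
    exact ⟨hg.ne, fun i => hv _ (hform i) (hQc i), hg.gen, hg.dim⟩
  rcases hC N Q hQ L w _ (hE.gen σ hy) hcon with ⟨H, hH, hH0, hHI⟩ |
    ⟨L', iF, iA, w', y', hgen, hw', hI', hle, ⟨P, hP, hP0, hP1⟩, hcomp⟩
  · exact hno L w _ hw (hsub L w _ (hE.gen σ hy) hcon) hgt ⟨hcon, H, hH, hH0, hHI⟩
  · have hs := hsub L' w' y' hgen hI'
    by_cases hg : GeneralType ℂ L' w'
    · exact hno L' w' y' hw' hs hg ⟨hI', hcomp⟩
    · obtain ⟨ζ, x, s, hζ, hx, hs0, hxF, hyx⟩ := hE.sub ℂ σ L' w' y' hgen.ne hgen.gen hgen.dim hg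
        (fun i => by
          have h1 := hs.mem i
          unfold val at h1
          rw [aeval_def, eval₂_map] at h1
          exact h1)
      have hζ0 : ∀ j, ζ j ≠ 0 := by
        intro j h0
        have := hζ j
        rw [h0, zero_pow hm] at this
        exact zero_ne_one this
      -- `x` specializes to `y`
      have hxy : ∀ Q, IsForm Q → aeval x Q = 0 → aeval y Q = 0 := by
        intro Q₀ hQ₀ h0
        obtain ⟨P₀, r, d, hP₀, hr, hPQ⟩ := hpow σ Q₀ hQ₀
        have h1 : aeval y' P₀ = 0 := by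
          rw [hPQ L' x y' (s ^ m) (fun j => by
            rw [hyx j, mul_pow, mul_pow, ← map_pow, hζ, map_one, one_mul]), h0,
            zero_pow (by omega), mul_zero]
        have h2 := hle P₀ hP₀ h1
        rw [hPQ L y _ 1 (fun j => by rw [one_mul]), one_pow, one_mul] at h2
        exact pow_eq_zero_iff (by omega) |>.1 h2
      -- if `P` vanishes at the point of `X`, then it vanishes at the twist of `y'`
      have h1 : ∀ P, IsForm P → aeval (vals ((algebraMap ℂ L).comp σ) φ y) P = 0 →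
          aeval y' (twist (fun j => (ζ j)⁻¹) P) = 0 := by
        intro P hP h0
        have h2 := hirr (pullφ σ φ P) (hE.pull_form σ hP) (by rw [pullφ_eval]; exact h0) L' x hx
          hxF hxy
        rw [pullφ_eval] at h2
        rw [twist_eval]
        have e1 : (fun j => algebraMap ℂ L' (ζ j)⁻¹ * y' j) =
            fun j => s * vals ((algebraMap ℂ L').comp σ) φ x j := by
          funext j
          rw [hyx j, map_inv₀]
          have : algebraMap ℂ L' (ζ j) ≠ 0 := (_root_.map_ne_zero _).2 (hζ0 j)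
          field_simp
        rw [e1, form_smul hP hs0]
        exact h2
      have h2 : ∀ (r : ℕ) (P : MvPolynomial (Fin (N + 1)) ℂ), IsForm P → aeval y' P = 0 →
          aeval y' (twist (fun j => (ζ j)⁻¹ ^ r) P) = 0 := by
        intro r
        induction r with
        | zero =>
          intro P hP h0
          rw [twist_eval]
          simpa using h0
        | succ r ih =>
          intro P hP h0
          have h3 := ih _ (twist_form (fun j => (ζ j)⁻¹) hP) (h1 P hP (hle P hP h0))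
          rw [twist_eval, twist_eval] at h3
          rw [twist_eval]
          have e1 : (fun j => algebraMap ℂ L' ((ζ j)⁻¹ ^ (r + 1)) * y' j) =
              fun j => algebraMap ℂ L' (ζ j)⁻¹ * (algebraMap ℂ L' ((ζ j)⁻¹ ^ r) * y' j) := by
            funext j
            rw [pow_succ, map_mul]
            ring
          rw [e1]
          exact h3
      apply hP1
      obtain ⟨r, hr⟩ : ∃ r, m = r + 1 := ⟨m - 1, by omega⟩
      have h3 := h2 r _ (twist_form (fun j => (ζ j)⁻¹) hP) (h1 P hP hP0)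
      rw [twist_eval, twist_eval] at h3
      have e1 : (fun j => algebraMap ℂ L' (ζ j)⁻¹ * (algebraMap ℂ L' ((ζ j)⁻¹ ^ r) * y' j)) =
          y' := by
        funext j
        rw [← mul_assoc, ← map_mul]
        have : (ζ j)⁻¹ * (ζ j)⁻¹ ^ r = 1 := by
          rw [← pow_succ', ← hr, inv_pow, hζ, inv_one]
        rw [this, map_one, one_mul]
      rwa [e1] at h3

end

end Pool.Agent.H441.FT
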