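import Pool.Agent.H441.FT.Cut
import Pool.Agent.H441.FT.Pow

/-!
Embedding of projective varieties in intersections of diagonal quadrics with at most four terms.
-/

set_option autoImplicit false

namespace Pool.Agent.H441.FT

open MvPolynomial
open Pool.Agent.N254.SQ hiding Extends lin
open Pool.Agent.H441.DF (Cut mult bound exists_mon)
open Pool.Agent.H441.DQ (vec vec_eval linK linK_hom linK_eval rel comb Box)
open Pool.Agent.H441.UA (FEmb femb_of bd mform)

/-- a list of the vectors of the box -/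
theorem exists_box (r B : ℕ) : ∃ (N : ℕ) (a : Fin (N + 1) → Fin r → ℤ)
    (idx : (Fin r → ℤ) → Fin (N + 1)), (∀ u ∈ IBox r B, a (idx u) = u) ∧ (∀ j, idx (a j) = j) ∧
      ∀ j, a j ∈ IBox r B := by
  classical
  have hS : (IBox r B).Finite := by
    have h1 : (Set.pi Set.univ fun _ : Fin r => Set.Icc (-(B : ℤ)) B).Finite :=
      Set.Finite.pi fun _ => Set.finite_Icc _ _
    refine h1.subset fun u hu i _ => ?_
    have := hu i
    constructor <;> omega
  have := hS.fintype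
  have hne : 0 < Fintype.card (IBox r B) :=
    Fintype.card_pos_iff.2 ⟨⟨0, fun i => by simp⟩⟩
  obtain ⟨N, hN⟩ : ∃ N, Fintype.card (IBox r B) = N + 1 :=
    ⟨Fintype.card (IBox r B) - 1, by omega⟩
  let e : Fin (N + 1) ≃ IBox r B := (Fintype.equivFinOfCardEq hN).symm
  refine ⟨N, fun j => (e j).1, fun u => if h : u ∈ IBox r B then e.symm ⟨u, h⟩ else 0, ?_, ?_, ?_⟩
  · intro u hu
    simp only
    rw [dif_pos hu, Equiv.apply_symm_apply]
  · intro j
    simp only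
    rw [dif_pos (e j).2]
    exact e.symm_apply_apply j
  · intro j
    exact (e j).2

section

set_option linter.unusedSectionVars false

variable {K : Type} [Field K] [CharZero K] {M N r B : ℕ}
  {l : Fin r → Fin (M + 1)} {t : Fin r → K} {s₀ : Fin (M + 1) → Fin r}
  {a : Fin (N + 1) → Fin r → ℤ} {idx : (Fin r → ℤ) → Fin (N + 1)}

theorem box_vecs (hs : ∀ i, l (s₀ i) = i ∧ t (s₀ i) = 1)
    (hidx : ∀ u ∈ IBox r B, a (idx u) = u) : Box B (fun j => vecs l t (a j)) := by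
  classical
  intro c hc
  obtain ⟨u, hu⟩ : ∃ u : Fin r → ℤ, u = fun s => if s₀ (l s) = s then (c (l s) : ℤ) else 0 :=
    ⟨_, rfl⟩
  have hub : u ∈ IBox r B := by
    intro s
    rw [hu]
    simp only
    split
    · rw [Int.natAbs_natCast]
      exact hc _
    · simp
  refine ⟨idx u, ?_⟩
  simp only
  rw [hidx u hub]
  funext i
  unfold vecs
  rw [Finset.sum_eq_single (s₀ i)]
  · rw [if_pos (hs i).1, hu]
    simp only
    rw [(hs i).1, if_pos rfl, (hs i).2]
    push_cast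
    ring
  · intro s _ hsi
    by_cases h : l s = i
    · rw [if_pos h, hu]
      simp only
      rw [if_neg, Int.cast_zero, zero_mul]
      rw [h]
      exact Ne.symm hsi
    · rw [if_neg h]
  · intro h
    exact absurd (Finset.mem_univ _) h

theorem vecs_zero : vecs l t (0 : Fin r → ℤ) = 0 := by
  funext i
  unfold vecs
  refine Finset.sum_eq_zero fun s _ => ?_
  simp

theorem linK_zero : linK (0 : Fin (M + 1) → K) = 0 := by
  unfold linK
  simp

/-- the binomials are given by relations with four terms -/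
theorem comb_bin (hs : ∀ i, l (s₀ i) = i ∧ t (s₀ i) = 1)
    (hidx : ∀ u ∈ IBox r B, a (idx u) = u) (hB : 4 ≤ B) (p p' q q' : Fin (M + 1)) :
    comb 2 (fun j => vecs l t (a j)) (row K
      (idx (Pi.single (s₀ p) 1 + Pi.single (s₀ p') 1 + (Pi.single (s₀ q) 1 - Pi.single (s₀ q') 1)))
      (idx (Pi.single (s₀ p) 1 + Pi.single (s₀ p') 1 - (Pi.single (s₀ q) 1 - Pi.single (s₀ q') 1)))
      (idx (Pi.single (s₀ p) 1 - Pi.single (s₀ p') 1))
      (idx (Pi.single (s₀ q) 1 + Pi.single (s₀ q') 1))) =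
    (8 : K) • (X p * X p' - X q * X q') := by
  have hb1 : (Pi.single (s₀ p) 1 + Pi.single (s₀ p') 1 +
      (Pi.single (s₀ q) 1 - Pi.single (s₀ q') 1) : Fin r → ℤ) ∈ IBox r B := by
    intro i
    have h1 := (box_pm (B := 2) le_rfl (s₀ p) (s₀ p')).1 i
    have h2 := (box_pm (B := 2) le_rfl (s₀ q) (s₀ q')).2 i
    rw [Pi.add_apply]
    omega
  have hb2 : (Pi.single (s₀ p) 1 + Pi.single (s₀ p') 1 -
      (Pi.single (s₀ q) 1 - Pi.single (s₀ q') 1) : Fin r → ℤ) ∈ IBox r B := by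
    intro i
    have h1 := (box_pm (B := 2) le_rfl (s₀ p) (s₀ p')).1 i
    have h2 := (box_pm (B := 2) le_rfl (s₀ q) (s₀ q')).2 i
    rw [Pi.sub_apply]
    omega
  rw [comb_row, hidx _ hb1, hidx _ hb2, hidx _ (box_pm (by omega) (s₀ p) (s₀ p')).2,
    hidx _ (box_pm (by omega) (s₀ q) (s₀ q')).1]
  simp only [vecs_add, vecs_sub, vecs_single, linK_add, linK_sub, linK_single, (hs _).1, (hs _).2,
    one_smul, smul_eq_C_mul]
  have e2 : (C (2 : K) : MvPolynomial (Fin (M + 1)) K) = 2 := rfl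
  have e8 : (C (8 : K) : MvPolynomial (Fin (M + 1)) K) = 8 := rfl
  rw [e2, e8]
  ring

theorem comb_sq (hidx : ∀ u ∈ IBox r B, a (idx u) = u) {u : Fin r → ℤ} (hu : u ∈ IBox r B) :
    comb 2 (fun j => vecs l t (a j)) (row K (idx u) (idx u) (idx 0) (idx 0)) =
      (2 : K) • linK (vecs l t u) ^ 2 := by
  have h0 : (0 : Fin r → ℤ) ∈ IBox r B := fun i => by simp
  rw [comb_row, hidx _ hu, hidx _ h0, vecs_zero, linK_zero, smul_eq_C_mul, smul_eq_C_mul]
  have e2 : (C (2 : K) : MvPolynomial (Fin (M + 1)) K) = 2 := rfl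
  rw [e2]
  ring

end

/-- **The embedding.** -/
theorem core {K : Type} [Field K] [CharZero K] {n M e r : ℕ} (he : 1 ≤ e)
    {v : Fin (M + 1) → Fin (n + 1) → ℕ} (hv : Mon n M e v)
    {l : Fin r → Fin (M + 1)} {t : Fin r → K} {s₀ : Fin (M + 1) → Fin r}
    (hs : ∀ i, l (s₀ i) = i ∧ t (s₀ i) = 1) {ι ι' κ κ' γ γ' : Type} [Finite ι'] [Finite κ']
    [Finite γ']
    {F : ι → MvPolynomial (Fin (n + 1)) K} {T : κ → MvPolynomial (Fin (n + 1)) K}
    {G : γ → MvPolynomial (Fin (n + 1)) K} (hF : ∀ i, ∃ d, (F i).IsHomogeneous d)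
    {F' : ι' → MvPolynomial (Fin (n + 1)) K} {T' : κ' → MvPolynomial (Fin (n + 1)) K}
    {G' : γ' → MvPolynomial (Fin (n + 1)) K} (hF' : ∀ k, (F' k).IsHomogeneous e)
    (hT' : ∀ k, (T' k).IsHomogeneous e) (hG' : ∀ k, (G' k).IsHomogeneous e)
    (hFF : ∀ (Ω : Type) [Field Ω] (τ : K →+* Ω) (x : Fin (n + 1) → Ω), x ≠ 0 →
      ((∀ k, eval₂ τ x (F' k) = 0) ↔ ∀ i, eval₂ τ x (F i) = 0))
    (hTT : ∀ (Ω : Type) [Field Ω] (τ : K →+* Ω) (x : Fin (n + 1) → Ω), x ≠ 0 →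
      ((∃ k, eval₂ τ x (T' k) ≠ 0) ↔ ∃ k, eval₂ τ x (T k) ≠ 0))
    (hGG : ∀ (Ω : Type) [Field Ω] (τ : K →+* Ω) (x : Fin (n + 1) → Ω), x ≠ 0 →
      ((∀ k, eval₂ τ x (G' k) = 0) ↔ ∀ k, eval₂ τ x (G k) = 0))
    (hFu : ∀ k, ∃ u : Fin r → ℤ, vecs l t u = vec v (F' k))
    (hTu : ∀ k, ∃ u : Fin r → ℤ, vecs l t u = vec v (T' k))
    (hGu : ∀ k, ∃ u : Fin r → ℤ, vecs l t u = vec v (G' k)) :
    ∃ (N k : ℕ) (φ : Fin (N + 1) → MvPolynomial (Fin (n + 1)) K)
      (c : Fin k → Fin (N + 1) → K) (I J : Set (Fin (N + 1)))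
      (idx : (Fin r → ℤ) → Fin (N + 1)),
      (∀ i, c i ≠ 0 ∧ ((∃ p p' q q', c i = row K p p' q q') ∨
        ∃ s s', c i = tvec idx l t s₀ s s')) ∧
      (∀ j, ∃ u, φ j = mform v (vecs l t u)) ∧
      ((∀ i ∈ I, ∃ k, φ i = mform v (vec v (T' k))) ∧
        ∀ k, ∃ i ∈ I, φ i = mform v (vec v (T' k))) ∧ FEmb 2 F T G φ c I J ∧ Pow 2 φ := by
  classical
  choose uF huF using hFu
  choose uT huT using hTu
  choose uG huG using hGu
  obtain ⟨B₀, hB₀⟩ : ∃ B₀ : ℕ, (∀ k s, (uF k s).natAbs ≤ B₀) ∧ (∀ k s, (uT k s).natAbs ≤ B₀) ∧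
      ∀ k s, (uG k s).natAbs ≤ B₀ := by
    have := Fintype.ofFinite ι'
    have := Fintype.ofFinite κ'
    have := Fintype.ofFinite γ'
    refine ⟨(∑ k, ∑ s, (uF k s).natAbs) + ((∑ k, ∑ s, (uT k s).natAbs) +
      ∑ k, ∑ s, (uG k s).natAbs), fun k s => ?_, fun k s => ?_, fun k s => ?_⟩
    · have h1 : (uF k s).natAbs ≤ ∑ s, (uF k s).natAbs :=
        Finset.single_le_sum (f := fun s => (uF k s).natAbs) (fun _ _ => Nat.zero_le _)
          (Finset.mem_univ s)
      have h2 : ∑ s, (uF k s).natAbs ≤ ∑ k, ∑ s, (uF k s).natAbs :=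
        Finset.single_le_sum (f := fun k => ∑ s, (uF k s).natAbs) (fun _ _ => Nat.zero_le _)
          (Finset.mem_univ k)
      omega
    · have h1 : (uT k s).natAbs ≤ ∑ s, (uT k s).natAbs :=
        Finset.single_le_sum (f := fun s => (uT k s).natAbs) (fun _ _ => Nat.zero_le _)
          (Finset.mem_univ s)
      have h2 : ∑ s, (uT k s).natAbs ≤ ∑ k, ∑ s, (uT k s).natAbs :=
        Finset.single_le_sum (f := fun k => ∑ s, (uT k s).natAbs) (fun _ _ => Nat.zero_le _)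
          (Finset.mem_univ k)
      omega
    · have h1 : (uG k s).natAbs ≤ ∑ s, (uG k s).natAbs :=
        Finset.single_le_sum (f := fun s => (uG k s).natAbs) (fun _ _ => Nat.zero_le _)
          (Finset.mem_univ s)
      have h2 : ∑ s, (uG k s).natAbs ≤ ∑ k, ∑ s, (uG k s).natAbs :=
        Finset.single_le_sum (f := fun k => ∑ s, (uG k s).natAbs) (fun _ _ => Nat.zero_le _)
          (Finset.mem_univ k)
      omega
  obtain ⟨B, hB⟩ : ∃ B, B = B₀ + bound 2 + bd (M + 1) 2 + 4 := ⟨_, rfl⟩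
  obtain ⟨N, a, idx, hidx, hidx', hab⟩ := exists_box r B
  have hC := cut_sq hv he F F' hF' hFF
  have ha : Box B (fun j => vecs l t (a j)) := box_vecs hs hidx
  have bF : ∀ k, uF k ∈ IBox r B := fun k s => by
    have := hB₀.1 k s
    omega
  have bT : ∀ k, uT k ∈ IBox r B := fun k s => by
    have := hB₀.2.1 k s
    omega
  have bG : ∀ k, uG k ∈ IBox r B := fun k s => by
    have := hB₀.2.2 k s
    omega
  have hspan := span_rows (q := qq v F') hs hidx hidx' hab (by omega) (by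
    rintro (⟨⟨p, p', q, q'⟩, h⟩ | k)
    · exact ⟨_, 8, ⟨_, _, _, _, rfl⟩, by norm_num, comb_bin hs hidx (by omega) p p' q q'⟩
    · refine ⟨_, 2, ⟨_, _, _, _, rfl⟩, by norm_num, (comb_sq hidx (bF k)).trans ?_⟩
      rw [huF]
      rfl)
  -- a finite list of generators
  obtain ⟨S, hS⟩ : ∃ S : Set (Fin (N + 1) → K), S = ({c | (∃ p p' p'' p''', c =
      row K p p' p'' p''') ∧ c ∈ rel 2 (fun j => vecs l t (a j)) (qq v F')} ∪
      Set.range fun s : Fin r × Fin r => tvec idx l t s₀ s.1 s.2) \ {0} := ⟨_, rfl⟩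
  have hSspan : Submodule.span K S = rel 2 (fun j => vecs l t (a j)) (qq v F') := by
    rw [hS, Submodule.span_sdiff_singleton_zero]
    exact hspan
  have hSfin : S.Finite := by
    rw [hS]
    apply Set.Finite.sdiff
    apply Set.Finite.union
    · refine (Set.finite_range fun z : Fin (N + 1) × Fin (N + 1) × Fin (N + 1) × Fin (N + 1) =>
        row K z.1 z.2.1 z.2.2.1 z.2.2.2).subset ?_
      rintro c ⟨⟨p, p', p'', p''', rfl⟩, -⟩
      exact ⟨(p, p', p'', p'''), rfl⟩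
    · exact Set.finite_range _
  have := hSfin.fintype
  let ε := Fintype.equivFin S
  obtain ⟨c, hc⟩ : ∃ c : Fin (Fintype.card S) → Fin (N + 1) → K, c = fun i => (ε.symm i).1 :=
    ⟨_, rfl⟩
  have hrange : Set.range c = S := by
    ext x
    constructor
    · rintro ⟨i, rfl⟩
      rw [hc]
      exact (ε.symm i).2
    · intro hx
      refine ⟨ε ⟨x, hx⟩, ?_⟩
      rw [hc]
      simp
  have hcS : ∀ i, c i ∈ S := fun i => by
    rw [← hrange]
    exact ⟨i, rfl⟩
  have hE := femb_of (m := 2) le_rfl he hv hF hT' hG' hC ha (by omega) (by omega)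
    (c := c) (by rw [hrange, hSspan])
    (I := {j | ∃ k, vecs l t (a j) = vec v (T' k)}) (J := {j | ∃ k, vecs l t (a j) = vec v (G' k)})
    (fun i hi => hi)
    (fun k => ⟨idx (uT k), ⟨k, by rw [hidx _ (bT k), huT]⟩, by rw [hidx _ (bT k), huT]⟩)
    (fun i hi => hi)
    (fun k => ⟨idx (uG k), ⟨k, by rw [hidx _ (bG k), huG]⟩, by rw [hidx _ (bG k), huG]⟩)
  refine ⟨N, _, fun j => mform v (vecs l t (a j)), c, {j | ∃ k, vecs l t (a j) = vec v (T' k)},
    {j | ∃ k, vecs l t (a j) = vec v (G' k)}, idx, fun i => ?_, fun j => ⟨a j, rfl⟩,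
    ⟨fun i ⟨k, hk⟩ => ⟨k, congrArg (mform v) hk⟩,
      fun k => ⟨idx (uT k), ⟨k, by rw [hidx _ (bT k), huT]⟩, by
        simp only
        rw [hidx _ (bT k), huT]⟩⟩, hE.congr hTT hGG,
    pow_of (by omega) he hv ha (by omega)⟩
  have := hcS i
  rw [hS] at this
  refine ⟨this.2, ?_⟩
  rcases this.1 with ⟨h, -⟩ | ⟨⟨s, s'⟩, h⟩
  · exact Or.inl h
  · exact Or.inr ⟨s, s', h.symm⟩

/-- multiples of the same degree of all forms -/
theorem common_degree {K : Type} [Field K] {n : ℕ} {ι κ γ : Type} [Finite ι] [Finite κ] [Finite γ]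
    (F : ι → MvPolynomial (Fin (n + 1)) K) (T : κ → MvPolynomial (Fin (n + 1)) K)
    (G : γ → MvPolynomial (Fin (n + 1)) K) (hF : ∀ i, ∃ e, (F i).IsHomogeneous e)
    (hT : ∀ i, ∃ e, (T i).IsHomogeneous e) (hG : ∀ i, ∃ e, (G i).IsHomogeneous e) :
    ∃ e, 1 ≤ e ∧ (∀ i, ∃ d ≤ e, (F i).IsHomogeneous d) ∧
      (∀ i, ∃ d ≤ e, (T i).IsHomogeneous d) ∧ (∀ i, ∃ d ≤ e, (G i).IsHomogeneous d) := by
  have := Fintype.ofFinite ι
  have := Fintype.ofFinite κ
  have := Fintype.ofFinite γ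
  choose eF heF using hF
  choose eT heT using hT
  choose eG heG using hG
  refine ⟨1 + (Finset.univ.sup eF + (Finset.univ.sup eT + Finset.univ.sup eG)), by omega,
    fun i => ⟨eF i, ?_, heF i⟩, fun i => ⟨eT i, ?_, heT i⟩, fun i => ⟨eG i, ?_, heG i⟩⟩
  · have := Finset.le_sup (f := eF) (Finset.mem_univ i)
    omega
  · have := Finset.le_sup (f := eT) (Finset.mem_univ i)
    omega
  · have := Finset.le_sup (f := eG) (Finset.mem_univ i)
    omega

theorem not_ex {κ κ' : Type} {p : κ → Prop} {p' : κ' → Prop}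
    (h : (∃ k, ¬ p k) ↔ ∃ k, ¬ p' k) : (∀ k, p k) ↔ ∀ k, p' k := by
  rw [← not_iff_not]
  push Not
  exact h

/-- **Integral forms**: all equations are of the form `y_p ^ 2 + y_q ^ 2 = 2 y_s ^ 2 + 2 y_t ^ 2`. -/
theorem exists_par {K : Type} [Field K] [CharZero K] {n : ℕ} {ι κ γ : Type} [Finite ι] [Finite κ]
    [Finite γ] (F : ι → MvPolynomial (Fin (n + 1)) K) (T : κ → MvPolynomial (Fin (n + 1)) K)
    (G : γ → MvPolynomial (Fin (n + 1)) K) (hF : ∀ i, ∃ e, (F i).IsHomogeneous e)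
    (hT : ∀ i, ∃ e, (T i).IsHomogeneous e) (hG : ∀ i, ∃ e, (G i).IsHomogeneous e)
    (zF : ∀ i s, ∃ z : ℤ, coeff s (F i) = z) (zT : ∀ i s, ∃ z : ℤ, coeff s (T i) = z)
    (zG : ∀ i s, ∃ z : ℤ, coeff s (G i) = z) :
    ∃ (N k : ℕ) (φ : Fin (N + 1) → MvPolynomial (Fin (n + 1)) K)
      (c : Fin k → Fin (N + 1) → K) (I J : Set (Fin (N + 1))),
      (∀ i, ∃ p p' q q', c i = row K p p' q q') ∧
      (∀ j s, ∃ z : ℤ, coeff s (φ j) = z) ∧ FEmb 2 F T G φ c I J ∧ Pow 2 φ := by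
  classical
  obtain ⟨e, he, hdF, hdT, hdG⟩ := common_degree F T G hF hT hG
  obtain ⟨ι', _, F', hF', hFe, hFc⟩ := exists_mult' F hdF
  obtain ⟨κ', _, T', hT', hTe, hTc⟩ := exists_mult' T hdT
  obtain ⟨γ', _, G', hG', hGe, hGc⟩ := exists_mult' G hdG
  obtain ⟨M, v, hv⟩ := exists_mon n e
  have hvecs : ∀ u : Fin (M + 1) → ℤ, vecs (fun i => i) (fun _ => (1 : K)) u =
      fun i => (u i : K) := by
    intro u
    funext i
    unfold vecs
    rw [Finset.sum_eq_single i]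
    · rw [if_pos rfl, mul_one]
    · intro s _ hsi
      rw [if_neg hsi]
    · intro h
      exact absurd (Finset.mem_univ _) h
  have hu : ∀ P : MvPolynomial (Fin (n + 1)) K, (∀ s, ∃ z : ℤ, coeff s P = z) →
      ∃ u : Fin (M + 1) → ℤ, vecs (fun i => i) (fun _ => (1 : K)) u = vec v P := by
    intro P hP
    choose z hz using hP
    refine ⟨fun i => z (Finsupp.equivFunOnFinite.symm (v i)), ?_⟩
    rw [hvecs]
    funext i
    exact (hz _).symm
  have hc : ∀ {ι ι' : Type} (F : ι → MvPolynomial (Fin (n + 1)) K)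
      (F' : ι' → MvPolynomial (Fin (n + 1)) K), (∀ i s, ∃ z : ℤ, coeff s (F i) = z) →
      (∀ k s, coeff s (F' k) = 0 ∨ ∃ k₀ s₀, coeff s (F' k) = coeff s₀ (F k₀)) →
      ∀ k s, ∃ z : ℤ, coeff s (F' k) = z := by
    intro ι ι' F F' h1 h2 k s
    rcases h2 k s with h | ⟨k₀, s₀, h⟩
    · exact ⟨0, by rw [h, Int.cast_zero]⟩
    · rw [h]
      exact h1 _ _
  obtain ⟨N, k, φ, c, I, J, idx, hc1, hφ, -, hE⟩ := core he hv (l := fun i => i)
    (t := fun _ => (1 : K)) (s₀ := fun i => i) (fun i => ⟨rfl, rfl⟩) hF hF' hT' hG'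
    (fun Ω _ τ x hx => not_ex (hFe Ω τ x hx)) hTe (fun Ω _ τ x hx => not_ex (hGe Ω τ x hx))
    (fun k => hu _ (hc F F' zF hFc k)) (fun k => hu _ (hc T T' zT hTc k))
    (fun k => hu _ (hc G G' zG hGc k))
  refine ⟨N, k, φ, c, I, J, fun i => ?_, fun j s => ?_, hE⟩
  · obtain ⟨h0, h | ⟨s, s', h⟩⟩ := hc1 i
    · exact h
    · exfalso
      apply h0
      rw [h]
      unfold tvec
      rw [mul_one, one_smul, sub_self]
  · obtain ⟨u, hu⟩ := hφ j
    rw [hu, hvecs]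
    unfold mform
    have e1 : (∑ l, C (u l : K) * ∏ i, X i ^ v l i : MvPolynomial (Fin (n + 1)) K) =
        map (Int.castRingHom K) (∑ l, C (u l) * ∏ i, X i ^ v l i) := by
      rw [map_sum]
      refine Finset.sum_congr rfl fun l _ => ?_
      rw [map_mul, map_C, map_prod]
      congr 1
      refine Finset.prod_congr rfl fun i _ => ?_
      rw [map_pow, map_X]
    rw [e1, coeff_map]
    exact ⟨_, rfl⟩

/-- **Four terms**: all equations have at most four terms. -/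
theorem exists_four {K : Type} [Field K] [CharZero K] {n : ℕ} {ι κ γ : Type} [Finite ι] [Finite κ]
    [Finite γ] (F : ι → MvPolynomial (Fin (n + 1)) K) (T : κ → MvPolynomial (Fin (n + 1)) K)
    (G : γ → MvPolynomial (Fin (n + 1)) K) (hF : ∀ i, ∃ e, (F i).IsHomogeneous e)
    (hT : ∀ i, ∃ e, (T i).IsHomogeneous e) (hG : ∀ i, ∃ e, (G i).IsHomogeneous e) :
    ∃ (N k : ℕ) (φ : Fin (N + 1) → MvPolynomial (Fin (n + 1)) K)
      (c : Fin k → Fin (N + 1) → K) (I J : Set (Fin (N + 1))),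
      (∀ i, ∃ p p' q q', c i = row K p p' q q' ∨ ∃ x : K, c i = Pi.single p 1 - Pi.single p' 1 -
        x • (Pi.single q 1 - Pi.single q' 1)) ∧
      FEmb 2 F T G φ c I J ∧ Pow 2 φ := by
  classical
  obtain ⟨e, he, hdF, hdT, hdG⟩ := common_degree F T G hF hT hG
  obtain ⟨ι', _, F', hF', hFe, hFc⟩ := exists_mult' F hdF
  obtain ⟨κ', _, T', hT', hTe, hTc⟩ := exists_mult' T hdT
  obtain ⟨γ', _, G', hG', hGe, hGc⟩ := exists_mult' G hdG
  obtain ⟨M, v, hv⟩ := exists_mon n e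
  have := Fintype.ofFinite ι'
  have := Fintype.ofFinite κ'
  have := Fintype.ofFinite γ'
  obtain ⟨Λ, hΛ⟩ : ∃ Λ : Finset K, Λ = insert 1
      ((Finset.univ.image fun z : ι' × Fin (M + 1) => vec (K := K) v (F' z.1) z.2) ∪
      ((Finset.univ.image fun z : κ' × Fin (M + 1) => vec (K := K) v (T' z.1) z.2) ∪
      (Finset.univ.image fun z : γ' × Fin (M + 1) => vec (K := K) v (G' z.1) z.2))) := ⟨_, rfl⟩
  have hΛ1 : (1 : K) ∈ Λ := by
    rw [hΛ]
    exact Finset.mem_insert_self _ _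
  let ε : Λ × Fin (M + 1) ≃ Fin (Fintype.card (Λ × Fin (M + 1))) := Fintype.equivFin _
  have hu : ∀ f : Fin (M + 1) → K, (∀ i, f i ∈ Λ) →
      ∃ u : Fin (Fintype.card (Λ × Fin (M + 1))) → ℤ, vecs (fun s => (ε.symm s).2)
        (fun s => ((ε.symm s).1 : K)) u = f := by
    intro f hf
    refine ⟨fun s => if f (ε.symm s).2 = (ε.symm s).1 then 1 else 0, ?_⟩
    funext i
    unfold vecs
    rw [Finset.sum_eq_single (ε (⟨f i, hf i⟩, i))]
    · simp
    · intro s _ hsi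
      split
      · rename_i h
        simp only
        rw [if_neg, Int.cast_zero, zero_mul]
        intro hcon
        apply hsi
        rw [← Equiv.symm_apply_eq]
        refine Prod.ext (Subtype.ext ?_) h
        rw [← hcon]
        exact congrArg f h
      · rfl
    · intro h
      exact absurd (Finset.mem_univ _) h
  obtain ⟨N, k, φ, c, I, J, idx, hc1, hφ, -, hE⟩ := core he hv (l := fun s => (ε.symm s).2)
    (t := fun s => ((ε.symm s).1 : K)) (s₀ := fun i => ε (⟨1, hΛ1⟩, i))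
    (fun i => ⟨by simp, by simp⟩) hF hF' hT' hG'
    (fun Ω _ τ x hx => not_ex (hFe Ω τ x hx)) hTe (fun Ω _ τ x hx => not_ex (hGe Ω τ x hx))
    (fun k => hu _ fun i => by
      rw [hΛ]
      exact Finset.mem_insert_of_mem (Finset.mem_union_left _
        (Finset.mem_image.2 ⟨(k, i), Finset.mem_univ _, rfl⟩))) (fun k => hu _ fun i => by
      rw [hΛ]
      exact Finset.mem_insert_of_mem (Finset.mem_union_right _ (Finset.mem_union_left _
        (Finset.mem_image.2 ⟨(k, i), Finset.mem_univ _, rfl⟩)))) (fun k => hu _ fun i => by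
      rw [hΛ]
      exact Finset.mem_insert_of_mem (Finset.mem_union_right _ (Finset.mem_union_right _
        (Finset.mem_image.2 ⟨(k, i), Finset.mem_univ _, rfl⟩))))
  refine ⟨N, k, φ, c, I, J, fun i => ?_, hE⟩
  obtain ⟨h0, ⟨p, p', q, q', h⟩ | ⟨s, s', h⟩⟩ := hc1 i
  · exact ⟨p, p', q, q', Or.inl h⟩
  · exact ⟨_, _, _, _, Or.inr ⟨_, h⟩⟩

end Pool.Agent.H441.FT
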