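import Pool.Agent.H441.FT.Mapk
import Pool.Graph.R_pool_sql_team_seeded_63374d34.N254.SQ.NullR

/-!
Embedding of a projective variety over a number field in intersections of quadrics
`y_p ^ 2 + y_q ^ 2 = 2 y_s ^ 2 + 2 y_t ^ 2`.
-/

set_option autoImplicit false

namespace Pool.Agent.H441.FT

open MvPolynomial
open Pool.Agent.N254.SQ hiding Extends lin
open Pool.Agent.H441.DQ (dform dform_hom)
open Pool.Agent.H441.UA (FEmb vals pullφ pullφ_eval)
open Pool.Agent.W602.GT (GeneralType coords SubVar val)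

section

variable {K : Type} [Field K] [NumberField K] {n : ℕ}

/-- substitution of `(x, α x)` -/
noncomputable def subst {R : Type} [CommRing R] (a : R) (P : MvPolynomial (Fin (n + 1 + n + 1)) R) :
    MvPolynomial (Fin (n + 1)) R :=
  aeval (app (fun i => (X i : MvPolynomial (Fin (n + 1)) R)) fun i => C a * X i) P

theorem subst_hom {R : Type} [CommRing R] (a : R) {P : MvPolynomial (Fin (n + 1 + n + 1)) R} {e : ℕ}
    (hP : P.IsHomogeneous e) : (subst a P).IsHomogeneous e := by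
  have h1 := hP.aeval (app (fun i => (X i : MvPolynomial (Fin (n + 1)) R)) fun i => C a * X i)
    (n := 1) (fun j => by
      refine Fin.addCases (m := n + 1) (n := n + 1) (fun i => ?_) (fun i => ?_) j
      · have e : app (fun i => (X i : MvPolynomial (Fin (n + 1)) R)) (fun i => C a * X i)
            (Fin.castAdd (n + 1) i) = X i := app_lft _ _ i
        rw [e]
        exact isHomogeneous_X _ _
      · have e : app (fun i => (X i : MvPolynomial (Fin (n + 1)) R)) (fun i => C a * X i)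
            (Fin.natAdd (n + 1) i) = C a * X i := app_rgt _ _ i
        rw [e]
        exact isHomogeneous_C_mul_X _ _)
  rwa [one_mul] at h1

theorem subst_eval {R Ω : Type} [CommRing R] [Field Ω] (τ : R →+* Ω) (a : R)
    (P : MvPolynomial (Fin (n + 1 + n + 1)) R) (x : Fin (n + 1) → Ω) :
    eval₂ τ x (subst a P) = eval₂ τ (app x (τ a • x)) P := by
  unfold subst
  rw [← coe_eval₂Hom, ← coe_eval₂Hom]
  have h1 : (eval₂Hom τ x).comp (aeval (app (fun i => (X i : MvPolynomial (Fin (n + 1)) R))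
      fun i => C a * X i)).toRingHom = eval₂Hom τ (app x (τ a • x)) := by
    apply MvPolynomial.ringHom_ext
    · intro r
      simp
    · intro j
      rw [RingHom.comp_apply, coe_eval₂Hom, coe_eval₂Hom, eval₂_X]
      change eval₂ τ x (aeval _ (X j)) = _
      rw [aeval_X]
      refine Fin.addCases (m := n + 1) (n := n + 1) (fun i => ?_) (fun i => ?_) j
      · have e1 : app (fun i => (X i : MvPolynomial (Fin (n + 1)) R)) (fun i => C a * X i)
            (Fin.castAdd (n + 1) i) = X i := app_lft _ _ i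
        have e2 : app x (τ a • x) (Fin.castAdd (n + 1) i) = x i := app_lft _ _ i
        rw [e1, e2, eval₂_X]
      · have e1 : app (fun i => (X i : MvPolynomial (Fin (n + 1)) R)) (fun i => C a * X i)
            (Fin.natAdd (n + 1) i) = C a * X i := app_rgt _ _ i
        have e2 : app x (τ a • x) (Fin.natAdd (n + 1) i) = τ a * x i := app_rgt _ _ i
        rw [e1, e2, eval₂_mul, eval₂_C, eval₂_X]
  have h2 := RingHom.congr_fun h1 P
  exact h2

/-- roots in extensions of the complex numbers are complex numbers -/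
theorem root_complex {Ω : Type} [Field Ω] [Algebra ℂ Ω] (τ : K →+* Ω) :
    ∃ τ₀ : K →+* ℂ, τ = (algebraMap ℂ Ω).comp τ₀ := by
  have hch : CharZero Ω := charZero_of_injective_algebraMap (algebraMap ℂ Ω).injective
  obtain ⟨f, hf⟩ : ∃ f : Polynomial ℂ, f = (minpoly ℚ (pb K).gen).map (algebraMap ℚ ℂ) :=
    ⟨_, rfl⟩
  have hfm : f.Monic := by
    rw [hf]
    exact (minpoly.monic (Algebra.IsIntegral.isIntegral _)).map _
  have h1 : f.eval₂ (algebraMap ℂ Ω) (τ (pb K).gen) = 0 := by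
    rw [hf, Polynomial.eval₂_map]
    have e1 : (algebraMap ℂ Ω).comp (algebraMap ℚ ℂ) = τ.comp (algebraMap ℚ K) :=
      Subsingleton.elim _ _
    rw [e1, ← Polynomial.hom_eval₂, ← Polynomial.aeval_def, minpoly.aeval, map_zero]
  have h2 := (IsAlgClosed.splits f).eq_prod_roots_of_monic hfm
  rw [h2, Polynomial.eval₂_multiset_prod, Multiset.prod_eq_zero_iff, Multiset.mem_map] at h1
  obtain ⟨p, hp, hp0⟩ := h1
  rw [Multiset.mem_map] at hp
  obtain ⟨t, ht, rfl⟩ := hp
  rw [Polynomial.eval₂_sub, Polynomial.eval₂_X, Polynomial.eval₂_C, sub_eq_zero] at hp0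
  have h3 : f.eval t = 0 := (Polynomial.mem_roots'.1 ht).2
  obtain ⟨τ₀, hτ₀⟩ := exists_hom (K := K) (algebraMap ℚ ℂ) (t := t) (by
    rw [← Polynomial.eval_map, ← hf]
    exact h3)
  refine ⟨τ₀, hom_ext ?_⟩
  rw [RingHom.comp_apply, hτ₀, hp0]

/-- **The embedding of a variety over a number field, with holomorphic maps.** -/
theorem exists_parM {ι : Type} [Finite ι] (F : ι → MvPolynomial (Fin (n + 1)) K)
    (hF : ∀ i, ∃ e, (F i).IsHomogeneous e) :
    ∃ (N k : ℕ) (R : Fin k → Fin 4 → Fin (N + 1)) (e : ℕ)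
      (φ : Fin (N + 1) → MvPolynomial (Fin (n + 1)) K), 1 ≤ e ∧ (∀ j, (φ j).IsHomogeneous e) ∧
      (∀ α : Fin (n + 1) → ℕ, ∑ i, α i = e → ∃ j, φ j = ∏ i, X i ^ α i) ∧
      (∀ (Ω : Type) [Field Ω] (τ : K →+* Ω) (x : Fin (n + 1) → Ω), x ≠ 0 → vals τ φ x ≠ 0) ∧
      (∀ (Ω : Type) [Field Ω] (τ : K →+* Ω) (x x' : Fin (n + 1) → Ω) (s : Ω), x ≠ 0 →
        vals τ φ x = s • vals τ φ x' → ∃ t : Ω, x = t • x') ∧
      (∀ (Ω : Type) [Field Ω] (τ : K →+* Ω) (x : Fin (n + 1) → Ω), x ≠ 0 →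
        ((∀ i, eval₂ τ x (F i) = 0) ↔
          ∀ i, eval₂ (τ.comp (algebraMap ℚ K)) (vals τ φ x) (par R i) = 0)) ∧
      (∀ (L : Type) [Field L] [Algebra ℂ L] (w : ℕ) (y : Fin (N + 1) → L),
        SubVar (fun i => map (algebraMap ℚ ℂ) (par R i)) L w y → ¬ GeneralType ℂ L w →
        ∃ (τ : K →+* ℂ) (ε : Fin (N + 1) → ℂ) (x : Fin (n + 1) → L) (s : L),
          (∀ j, ε j ^ 2 = 1) ∧ x ≠ 0 ∧ s ≠ 0 ∧
          (∀ i, eval₂ ((algebraMap ℂ L).comp τ) x (F i) = 0) ∧
          ∀ j, y j = s * (algebraMap ℂ L (ε j) * vals ((algebraMap ℂ L).comp τ) φ x j)) ∧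
      (∀ (E : Type) [NormedAddCommGroup E] [NormedSpace ℂ E] (f : E → Fin (N + 1) → ℂ),
        Differentiable ℂ f → (∀ z, f z ≠ 0) →
        (∀ z i, eval₂ (algebraMap ℚ ℂ) (f z) (par R i) = 0) → (∃ z w, ∀ b : ℂ, f w ≠ b • f z) →
        ∃ (τ : K →+* ℂ) (ε : Fin (N + 1) → ℂ) (x : E → Fin (n + 1) → ℂ), (∀ j, ε j ^ 2 = 1) ∧
          Differentiable ℂ x ∧ (∀ z, x z ≠ 0) ∧ (∀ z i, eval₂ τ (x z) (F i) = 0) ∧
          ∀ z j, f z j = ε j * vals τ φ (x z) j) ∧
      ∀ (τ : K →+* ℂ) (L : Type) [Field L] [Algebra ℂ L] (w : ℕ) (y : Fin (n + 1) → L), 1 ≤ w →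
        Gen L w y → (∀ P, IsForm P → aeval y P = 0 → ∀ (Ω : Type) [Field Ω] [Algebra ℂ Ω]
          (x : Fin (n + 1) → Ω), (∀ i, eval₂ ((algebraMap ℂ Ω).comp τ) x (F i) = 0) →
            aeval x P = 0) → (∀ i, eval₂ ((algebraMap ℂ L).comp τ) y (F i) = 0) →
        GeneralType ℂ L w → ∀ Q : MvPolynomial (Fin (N + 1)) ℂ → Prop, Idl Q →
        (∀ i, Q (map (algebraMap ℚ ℂ) (par R i))) →
        (∀ (L' : Type) [Field L'] [Algebra ℂ L'] (w' : ℕ) (y' : Fin (N + 1) → L'), 1 ≤ w' →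
          SubVar (fun i : Fin k => map (algebraMap ℚ ℂ) (par R i)) L' w' y' →
          GeneralType ℂ L' w' → ¬ Component Q y') →
        ∃ P, IsForm P ∧ Q P ∧ aeval (vals ((algebraMap ℂ L).comp τ) φ y) P ≠ 0 := by
  obtain ⟨N, k, R, φ, c, J, F', G', hc, -, -, -, hF', -, hE, hpow⟩ :=
    exists_parQ' (conjF F) (fun e : Empty => e.elim) (conjF_hom F hF) (fun e => e.elim)
  obtain ⟨e, he, hφ, hmono⟩ := hE.mono
  have hsub : ∀ (Ω : Type) [Field Ω] (τ : K →+* Ω) (x : Fin (n + 1) → Ω),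
      vals τ (fun j => subst (pb K).gen (map (algebraMap ℚ K) (φ j))) x =
        vals (τ.comp (algebraMap ℚ K)) φ (app x (τ (pb K).gen • x)) := by
    intro Ω _ τ x
    funext j
    unfold vals
    rw [subst_eval, eval₂_map]
  have hcc : ∀ (Ω : Type) [Field Ω] (ρ : ℚ →+* Ω) (y : Fin (N + 1) → Ω),
      (∀ i, eval₂ ρ y (dform 2 (c i)) = 0) ↔ ∀ i, eval₂ ρ y (par R i) = 0 := by
    intro Ω _ ρ y
    simp only [hc]
  refine ⟨N, k, R, e, fun j => subst (pb K).gen (map (algebraMap ℚ K) (φ j)), he,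
    fun j => subst_hom _ ((hφ j).map _), ?_, ?_, ?_, ?_, ?_, ?_, ?_⟩
  · intro α hα
    obtain ⟨j, hj⟩ := hmono (app α 0) (by
      have h1 : ∑ i, app α (0 : Fin (n + 1) → ℕ) i = ∑ i : Fin ((n + 1) + (n + 1)),
        Fin.append α (0 : Fin (n + 1) → ℕ) i := rfl
      rw [h1, Fin.sum_univ_add]
      simp only [Fin.append_left, Fin.append_right, Pi.zero_apply, Finset.sum_const_zero, add_zero]
      exact hα)
    refine ⟨j, ?_⟩
    simp only
    rw [hj, map_prod]
    unfold subst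
    rw [map_prod]
    have h1 : ∏ i : Fin (n + 1 + n + 1), (aeval (app (fun i => (X i : MvPolynomial (Fin (n + 1)) K))
        fun i => C (pb K).gen * X i)) (map (algebraMap ℚ K)
          ((X i : MvPolynomial (Fin (n + 1 + n + 1)) ℚ) ^ app α 0 i)) =
        ∏ i : Fin ((n + 1) + (n + 1)), app (fun i => (X i : MvPolynomial (Fin (n + 1)) K))
          (fun i => C (pb K).gen * X i) i ^ app α 0 i := by
      refine Finset.prod_congr rfl fun i _ => ?_
      rw [map_pow, map_X, map_pow, aeval_X]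
    rw [h1, Fin.prod_univ_add]
    have h2 : ∏ i : Fin (n + 1), app (fun i => (X i : MvPolynomial (Fin (n + 1)) K))
        (fun i => C (pb K).gen * X i) (Fin.natAdd (n + 1) i) ^
          app α (0 : Fin (n + 1) → ℕ) (Fin.natAdd (n + 1) i) = 1 := by
      refine Finset.prod_eq_one fun i _ => ?_
      have : app α (0 : Fin (n + 1) → ℕ) (Fin.natAdd (n + 1) i) = 0 := app_rgt _ _ i
      rw [this, pow_zero]
    rw [h2, mul_one]
    refine Finset.prod_congr rfl fun i _ => ?_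
    have e1 : app (fun i => (X i : MvPolynomial (Fin (n + 1)) K)) (fun i => C (pb K).gen * X i)
        (Fin.castAdd (n + 1) i) = X i := app_lft _ _ i
    have e2 : app α (0 : Fin (n + 1) → ℕ) (Fin.castAdd (n + 1) i) = α i := app_lft _ _ i
    rw [e1, e2]
  · intro Ω _ τ x hx
    rw [hsub]
    exact hE.ne Ω _ _ (app_ne hx)
  · intro Ω _ τ x x' s hx h
    rw [hsub, hsub] at h
    obtain ⟨t, ht⟩ := hE.inj Ω _ _ _ s (app_ne hx) h
    rw [← app_smul] at ht
    exact ⟨t, app_inj ht⟩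
  · intro Ω _ τ x hx
    have hch : CharZero Ω := charZero_of_injective_ringHom τ.injective
    rw [hsub, ← hcc, ← hE.pts Ω _ _ (app_ne hx)]
    simp only [hF']
    constructor
    · intro h
      rw [conj_pts _ (app_ne hx)]
      exact ⟨τ, x, hx, rfl, h⟩
    · intro h i
      have h1 := conj_iff (G := F) (τ.comp (algebraMap ℚ K)) τ hx
      exact h1.1 (fun a => h (Sum.inr (Sum.inr a))) i
  · intro L _ _ w y hy hgt
    have hch : CharZero L := charZero_of_injective_algebraMap (algebraMap ℂ L).injective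
    obtain ⟨ζ, x, s, hζ, hx, hs, hxF, hyx⟩ := hE.sub ℂ (algebraMap ℚ ℂ) L w y hy.ne hy.gen hy.dim
      hgt (fun i => by
        have h1 := hy.mem i
        unfold Pool.Agent.W602.GT.val at h1
        rw [aeval_def, eval₂_map] at h1
        rw [hc]
        exact h1)
    simp only [hF'] at hxF
    obtain ⟨τ, u, hu, hxu, huF⟩ := (conj_pts _ hx).1 hxF
    obtain ⟨τ₀, hτ₀⟩ := root_complex τ
    rw [hτ₀] at huF hxu
    refine ⟨τ₀, ζ, u, s, hζ, hu, hs, huF, fun j => ?_⟩
    have h9 : ((algebraMap ℂ L).comp τ₀).comp (algebraMap ℚ K) =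
        (algebraMap ℂ L).comp (algebraMap ℚ ℂ) := Subsingleton.elim _ _
    rw [hyx j, hsub, ← hxu, h9]
  · intro E _ _ f hf hf0 hfY hnc
    obtain ⟨ζ, x, hζ, hxd, hx0, hxF, hfx⟩ := maps_lift two_ne_zero hE (algebraMap ℚ ℂ) hf hf0
      (fun z => (hcc ℂ _ _).2 (hfY z)) hnc
    simp only [hF'] at hxF
    have h1 := fun z => (conj_pts (F := F) (algebraMap ℚ ℂ) (hx0 z)).1 (hxF z)
    choose τ u hu hxu huF using h1
    have hτ : ∀ z, τ z = τ 0 := fun z => const_conj' hxd hu hxu z 0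
    simp only [hτ] at hxu huF
    have hud : Differentiable ℂ u := by
      rw [differentiable_pi]
      intro i
      have e : (fun z => u z i) = fun z => x z (lft i) := by
        funext z
        rw [hxu, app_lft]
      rw [e]
      exact (differentiable_pi.1 hxd) _
    refine ⟨τ 0, ζ, u, hζ, hud, hu, huF, fun z j => ?_⟩
    have h9 : (τ 0).comp (algebraMap ℚ K) = algebraMap ℚ ℂ := Subsingleton.elim _ _
    rw [hfx, hsub, ← hxu, h9]
  · intro τ L _ _ w y hw hy hirr hyF hgt Q hQ hQR hno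
    have hch : CharZero L := charZero_of_injective_algebraMap (algebraMap ℂ L).injective
    have hy0 : app y (algebraMap ℂ L (τ (pb K).gen) • y) ≠ 0 := app_ne hy.ne
    have hy' : Gen L w (app y (algebraMap ℂ L (τ (pb K).gen) • y)) := by
      refine ⟨hy0, ?_, hy.dim⟩
      rw [eq_top_iff, ← hy.gen]
      unfold coords
      rw [IntermediateField.adjoin_le_iff]
      rintro _ ⟨a, b, hb, rfl⟩
      apply IntermediateField.subset_adjoin
      exact ⟨lft a, lft b, by rw [app_lft]; exact hb, by rw [app_lft, app_lft]⟩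
    obtain ⟨P, hP, hPQ, hPy⟩ := key2 t_comp two_ne_zero (algebraMap ℚ ℂ) hE hpow hw hy' (by
      intro P hP hP0 Ω _ _ x hx hxF hspec
      have hchΩ : CharZero Ω := charZero_of_injective_algebraMap (algebraMap ℂ Ω).injective
      simp only [hF'] at hxF
      obtain ⟨τ', u, hu, hxu, huF⟩ := (conj_pts _ hx).1 hxF
      obtain ⟨τ₀, hτ₀⟩ := root_complex τ'
      -- the conjugate is the given one
      obtain ⟨i, hi⟩ : ∃ i, y i ≠ 0 := by
        by_contra hcon
        push Not at hcon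
        exact hy.ne (funext hcon)
      have h1 := hspec (X (rgt i) - C (τ₀ (pb K).gen) * X (lft i))
        ⟨1, (isHomogeneous_X _ _).sub (isHomogeneous_C_mul_X _ _)⟩ (by
          rw [map_sub, map_mul, aeval_X, aeval_X, aeval_C, hxu, app_rgt, app_lft, hτ₀,
            Pi.smul_apply, smul_eq_mul, RingHom.comp_apply, sub_self])
      rw [map_sub, map_mul, aeval_X, aeval_X, aeval_C, app_rgt, app_lft, Pi.smul_apply,
        smul_eq_mul, ← sub_mul] at h1
      have h2 := (mul_eq_zero.1 h1).resolve_right hi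
      have h3 : τ (pb K).gen = τ₀ (pb K).gen := (algebraMap ℂ L).injective (sub_eq_zero.1 h2)
      have h4 : τ = τ₀ := hom_ext h3
      rw [hτ₀, ← h4] at huF hxu
      have h5 := hirr (subst (τ (pb K).gen) P) (by
        obtain ⟨d, hd⟩ := hP
        exact ⟨d, subst_hom _ hd⟩) (by
          have := subst_eval (algebraMap ℂ L) (τ (pb K).gen) P y
          rw [aeval_def, this]
          exact hP0) Ω u huF
      have h6 := subst_eval (algebraMap ℂ Ω) (τ (pb K).gen) P u
      rw [aeval_def, h6] at h5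
      rw [hxu]
      exact h5) hgt hQ (fun i => by
        rw [hc]
        exact hQR i) (by
        intro L' _ _ w' y' hw' hy' hgt'
        apply hno L' w' y' hw' _ hgt'
        refine ⟨hy'.ne, fun i => ?_, hy'.gen, hy'.dim⟩
        have := hy'.mem i
        rw [hc] at this
        exact this)
    refine ⟨P, hP, hPQ, ?_⟩
    have h9 : ((algebraMap ℂ L).comp τ).comp (algebraMap ℚ K) =
        (algebraMap ℂ L).comp (algebraMap ℚ ℂ) := Subsingleton.elim _ _
    rw [hsub, h9]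
    exact hPy

/-- **The embedding of a variety over a number field.** -/
theorem exists_parK {ι : Type} [Finite ι] (F : ι → MvPolynomial (Fin (n + 1)) K)
    (hF : ∀ i, ∃ e, (F i).IsHomogeneous e) :
    ∃ (N k : ℕ) (R : Fin k → Fin 4 → Fin (N + 1)) (e : ℕ)
      (φ : Fin (N + 1) → MvPolynomial (Fin (n + 1)) K), 1 ≤ e ∧ (∀ j, (φ j).IsHomogeneous e) ∧
      (∀ α : Fin (n + 1) → ℕ, ∑ i, α i = e → ∃ j, φ j = ∏ i, X i ^ α i) ∧
      (∀ (Ω : Type) [Field Ω] (τ : K →+* Ω) (x : Fin (n + 1) → Ω), x ≠ 0 → vals τ φ x ≠ 0) ∧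
      (∀ (Ω : Type) [Field Ω] (τ : K →+* Ω) (x x' : Fin (n + 1) → Ω) (s : Ω), x ≠ 0 →
        vals τ φ x = s • vals τ φ x' → ∃ t : Ω, x = t • x') ∧
      (∀ (Ω : Type) [Field Ω] (τ : K →+* Ω) (x : Fin (n + 1) → Ω), x ≠ 0 →
        ((∀ i, eval₂ τ x (F i) = 0) ↔
          ∀ i, eval₂ (τ.comp (algebraMap ℚ K)) (vals τ φ x) (par R i) = 0)) ∧
      (∀ (L : Type) [Field L] [Algebra ℂ L] (w : ℕ) (y : Fin (N + 1) → L),
        SubVar (fun i => map (algebraMap ℚ ℂ) (par R i)) L w y → ¬ GeneralType ℂ L w →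
        ∃ (τ : K →+* ℂ) (ε : Fin (N + 1) → ℂ) (x : Fin (n + 1) → L) (s : L),
          (∀ j, ε j ^ 2 = 1) ∧ x ≠ 0 ∧ s ≠ 0 ∧
          (∀ i, eval₂ ((algebraMap ℂ L).comp τ) x (F i) = 0) ∧
          ∀ j, y j = s * (algebraMap ℂ L (ε j) * vals ((algebraMap ℂ L).comp τ) φ x j)) ∧
      ∀ (τ : K →+* ℂ) (L : Type) [Field L] [Algebra ℂ L] (w : ℕ) (y : Fin (n + 1) → L), 1 ≤ w →
        Gen L w y → (∀ P, IsForm P → aeval y P = 0 → ∀ (Ω : Type) [Field Ω] [Algebra ℂ Ω]
          (x : Fin (n + 1) → Ω), (∀ i, eval₂ ((algebraMap ℂ Ω).comp τ) x (F i) = 0) →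
            aeval x P = 0) → (∀ i, eval₂ ((algebraMap ℂ L).comp τ) y (F i) = 0) →
        GeneralType ℂ L w → ∀ Q : MvPolynomial (Fin (N + 1)) ℂ → Prop, Idl Q →
        (∀ i, Q (map (algebraMap ℚ ℂ) (par R i))) →
        (∀ (L' : Type) [Field L'] [Algebra ℂ L'] (w' : ℕ) (y' : Fin (N + 1) → L'), 1 ≤ w' →
          SubVar (fun i : Fin k => map (algebraMap ℚ ℂ) (par R i)) L' w' y' →
          GeneralType ℂ L' w' → ¬ Component Q y') →
        ∃ P, IsForm P ∧ Q P ∧ aeval (vals ((algebraMap ℂ L).comp τ) φ y) P ≠ 0 := by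
  obtain ⟨N, k, R, e, φ, h1, h2, h3, h4, h5, h6, h7, -, h8⟩ := exists_parM F hF
  exact ⟨N, k, R, e, φ, h1, h2, h3, h4, h5, h6, h7, h8⟩

end

end Pool.Agent.H441.FT
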