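import Pool.Agent.H441.FT.Val

/-!
Quasi-projective varieties and their exceptional sets: reduction to systems of diagonal equations.
-/

set_option autoImplicit false

namespace Pool.Agent.H441.FT

open MvPolynomial FF
open Pool.Agent.N254.SQ hiding Extends lin
open Pool.Agent.W602.GT (GeneralType LogGeneralType coords SubVar)
open Pool.Agent.H441.DQ (dform dform_hom)
open Pool.Agent.H441.UA (FEmb vals pullφ pullφ_eval)

/-- exceptional sets -/
abbrev ExcSet : Type := ∀ n : ℕ, Set (MvPolynomial (Fin (n + 1)) ℂ) →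
  Set (MvPolynomial (Fin (n + 1)) ℂ) → MvPolynomial (Fin (n + 1)) ℂ → Prop

/-- the exceptional set of the variety is mapped to the exceptional set of the system -/
def Push (P : ExcSet) : Prop :=
  ∀ (n N k m : ℕ) (S : Finset (MvPolynomial (Fin (n + 1)) ℂ)) (κ γ : Type)
    (T : κ → MvPolynomial (Fin (n + 1)) ℂ) (G : γ → MvPolynomial (Fin (n + 1)) ℂ)
    (φ : Fin (N + 1) → MvPolynomial (Fin (n + 1)) ℂ) (c : Fin k → Fin (N + 1) → ℂ)
    (I J : Set (Fin (N + 1))),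
    FEmb m (fun p : S => (p : MvPolynomial (Fin (n + 1)) ℂ)) T G φ c I J →
    ∀ S' : Set (MvPolynomial (Fin (n + 1)) ℂ), (∀ (Ω : Type) [Field Ω] [Algebra ℂ Ω]
      (x : Fin (n + 1) → Ω), (∀ p ∈ S', aeval x p = 0) → ∀ p ∈ S, aeval x p = 0) →
    ∀ (T₁ : Set (MvPolynomial (Fin (n + 1)) ℂ)) (T₂ : Set (MvPolynomial (Fin (N + 1)) ℂ)),
      Match φ T₁ T₂ → ∀ H, IsForm H → P N (Set.range fun i => dform m (c i)) T₂ H →
        P n S' T₁ (pullφ (RingHom.id ℂ) φ H)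

/-- no component of positive dimension of the exceptional set of `V(Y) ∖ V(T)` is of log general
type -/
def NoComp (P : ExcSet) {N k : ℕ} (Y : Fin k → MvPolynomial (Fin (N + 1)) ℂ)
    (T : Set (MvPolynomial (Fin (N + 1)) ℂ)) : Prop :=
  ∀ (L : Type) [Field L] [Algebra ℂ L] (w : ℕ) (y : Fin (N + 1) → L), 1 ≤ w → SubVar Y L w y →
    NotIn T y → LogGeneral T L w y → ¬ Component (P N (Set.range Y) T) y

/-- the exceptional set of the irreducible variety of log general type is a proper subset -/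
def Proper (P : ExcSet) {n : ℕ} (T : Set (MvPolynomial (Fin (n + 1)) ℂ)) : Prop :=
  ∀ (L : Type) [Field L] [Algebra ℂ L] (w : ℕ) (y : Fin (n + 1) → L), 1 ≤ w → Gen L w y →
    NotIn T y → LogGeneral T L w y →
    ∃ G : MvPolynomial (Fin (n + 1)) ℂ, IsForm G ∧ aeval y G ≠ 0 ∧ P n (Eqs y) T G

theorem push_special : Push fun _ S T G => OnSpecialQ S T G := by
  intro n N k m S κ γ T G φ c I J hE S' hS T₁ T₂ hM H hH h L _ _ w x hw hx hT
  have hζ : ∀ j : Fin (N + 1), (fun _ : Fin (N + 1) => (1 : ℂ)) j ≠ 0 := fun _ => one_ne_zero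
  have h1 : SubVar (fun p : Set.range fun i => dform m (c i) =>
      (p : MvPolynomial (Fin (N + 1)) ℂ)) L w (vals (algebraMap ℂ L) φ x) := by
    refine ⟨hE.ne L _ x hx.ne, ?_, hE.coords_eq (RingHom.id ℂ) hx.gen, hx.dim⟩
    rintro ⟨_, i, rfl⟩
    exact (hE.pts L (algebraMap ℂ L) x hx.ne).1
      (fun p => hS L x (fun p hp => hx.mem ⟨p, hp⟩) p p.2) i
  have h2 : NotIn T₂ (vals (algebraMap ℂ L) φ x) :=
    (notIn_copy hM hx.ne one_ne_zero hζ (fun j => vals_one x j)).2 hT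
  rcases h L w _ hw h1 h2 with h3 | h3
  · exact Or.inl ((log_copy hE hM hx.ne one_ne_zero hζ (fun j => vals_one x j)).1 h3)
  · right
    rw [pullφ_eval]
    exact h3

theorem push_curves : Push fun _ S T G => OnCurvesQ S T G := by
  intro n N k m S κ γ T G φ c I J hE S' hS T₁ T₂ hM H hH h f hf hf0 hfS hfT
  have hζ : ∀ j : Fin (N + 1), (fun _ : Fin (N + 1) => (1 : ℂ)) j ≠ 0 := fun _ => one_ne_zero
  rcases h (fun z => vals (algebraMap ℂ ℂ) φ (f z)) (vals_diff' (algebraMap ℂ ℂ) φ hf)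
    (fun z => hE.ne ℂ _ _ (hf0 z)) (by
      rintro z _ ⟨i, rfl⟩
      exact (hE.pts ℂ (algebraMap ℂ ℂ) (f z) (hf0 z)).1
        (fun p => hS ℂ (f z) (fun p hp => hfS z p hp) p p.2) i) (fun z => by
      have h1 : NotIn T₂ (vals (algebraMap ℂ ℂ) φ (f z)) :=
        (notIn_copy hM (hf0 z) one_ne_zero hζ (fun j => vals_one (f z) j)).2 (hfT z)
      exact h1) with h1 | h1
  · left
    intro z w
    obtain ⟨b, hb⟩ := h1 z w
    exact hE.inj ℂ (algebraMap ℂ ℂ) (f w) (f z) b (hf0 w) hb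
  · right
    intro z
    have h2 := h1 z
    rw [← coe_aeval_eq_eval] at h2 ⊢
    change aeval (f z) _ = 0
    rw [pullφ_eval]
    exact h2

theorem log_imp {P : ExcSet} (hP : Exc P) (hpush : Push P) {m : ℕ} (hm : m ≠ 0) {n N k : ℕ}
    {S : Finset (MvPolynomial (Fin (n + 1)) ℂ)} {κ γ : Type}
    {T : κ → MvPolynomial (Fin (n + 1)) ℂ} {G : γ → MvPolynomial (Fin (n + 1)) ℂ}
    {φ : Fin (N + 1) → MvPolynomial (Fin (n + 1)) ℂ} {c : Fin k → Fin (N + 1) → ℂ}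
    {I J : Set (Fin (N + 1))}
    (hE : FEmb m (fun p : S => (p : MvPolynomial (Fin (n + 1)) ℂ)) T G φ c I J)
    {T₁ : Set (MvPolynomial (Fin (n + 1)) ℂ)} {T₂ : Set (MvPolynomial (Fin (N + 1)) ℂ)}
    (hM : Match φ T₁ T₂) {L : Type} [Field L] [Algebra ℂ L] {w : ℕ} {y : Fin (n + 1) → L}
    (hw : 1 ≤ w) (hy : Gen L w y) (hyT : NotIn T₁ y) (hlog : LogGeneral T₁ L w y)
    (hS : ∀ (Ω : Type) [Field Ω] [Algebra ℂ Ω] (x : Fin (n + 1) → Ω),
      (∀ p : S, aeval x (p : MvPolynomial (Fin (n + 1)) ℂ) = 0) ↔ ∀ p ∈ Eqs y, aeval x p = 0)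
    (hno : NoComp P (fun i => dform m (c i)) T₂) :
    ∃ G : MvPolynomial (Fin (n + 1)) ℂ, IsForm G ∧ aeval y G ≠ 0 ∧ P n (Eqs y) T₁ G := by
  have hζ : ∀ j : Fin (N + 1), (fun _ : Fin (N + 1) => (1 : ℂ)) j ≠ 0 := fun _ => one_ne_zero
  have hyT₂ : NotIn T₂ (vals (algebraMap ℂ L) φ y) :=
    (notIn_copy hM hy.ne one_ne_zero hζ (fun j => vals_one y j)).2 hyT
  obtain ⟨H, hH, hHP, hH0⟩ := key3 t_comp hm hE hw hy (fun H hH hyH Ω _ _ x hx =>
      (hS Ω x).1 hx H ⟨hH, hyH⟩) (hP.idl N (Set.range fun i => dform m (c i)) T₂)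
    (fun i => hP.van N _ T₂ _ ⟨m, dform_hom (c i)⟩ fun L _ _ x hx => hx _ ⟨i, rfl⟩)
    (fun L' _ _ w' y' => NotIn T₂ y' ∧ LogGeneral T₂ L' w' y')
    ⟨hyT₂, (log_copy hE hM hy.ne one_ne_zero hζ (fun j => vals_one y j)).2 hlog⟩
    (fun L' _ _ w' y' hw' hs hg hle => ⟨by
      obtain ⟨H, hH, hH0⟩ := hyT₂
      exact ⟨H, hH, fun h0 => hH0 (hle H (hM.form' H hH) h0)⟩,
      t_cent.general N T₂ L' w' y' hg⟩)
    (fun L' _ _ w' y' hw' hs hR => hno L' w' y' hw' hs hR.1 hR.2)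
  refine ⟨pullφ (RingHom.id ℂ) φ H, hE.pull_form (RingHom.id ℂ) hH, ?_, ?_⟩
  · rw [pullφ_eval]
    exact hH0
  · exact hpush n N k m S κ γ T G φ c I J hE (Eqs y)
      (fun Ω _ _ x hx p hp => (hS Ω x).2 hx ⟨p, hp⟩) T₁ T₂ hM H hH hHP

/-- from all varieties to all closed sets -/
theorem log_back {P : ExcSet} (hP : Exc P) {N k : ℕ} {Y : Fin k → MvPolynomial (Fin (N + 1)) ℂ}
    {T : Set (MvPolynomial (Fin (N + 1)) ℂ)} (h : Proper P T) : NoComp P Y T := by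
  intro L _ _ w y hw hy hT hl
  exact t_qforw.imp P hP N T h (Set.range Y) L w y hw ⟨hy.ne, hy.gen, hy.dim⟩ hT hl

theorem eqs_fin {n : ℕ} {L : Type} [Field L] [Algebra ℂ L] (y : Fin (n + 1) → L) :
    ∃ S : Finset (MvPolynomial (Fin (n + 1)) ℂ), (∀ p ∈ S, IsForm p) ∧
      ∀ (Ω : Type) [Field Ω] [Algebra ℂ Ω] (x : Fin (n + 1) → Ω),
      (∀ p : S, aeval x (p : MvPolynomial (Fin (n + 1)) ℂ) = 0) ↔ ∀ p ∈ Eqs y, aeval x p = 0 := by
  obtain ⟨S, hS, h⟩ := exists_fin (Eqs y)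
  exact ⟨S, fun p hp => (hS hp).1, h⟩

/-- **All quasi-projective varieties.** -/
theorem log_quasi {P : ExcSet} (hP : Exc P) (hpush : Push P) {m : ℕ}
    {𝒴 : ∀ N k : ℕ, (Fin k → MvPolynomial (Fin (N + 1)) ℂ) → Prop} (h𝒴 : IsClass m 𝒴) :
    (∀ (n : ℕ) (T : Set (MvPolynomial (Fin (n + 1)) ℂ)), (∀ H ∈ T, IsForm H) → Proper P T) ↔
      ∀ (N k : ℕ) (Y : Fin k → MvPolynomial (Fin (N + 1)) ℂ) (I : Set (Fin (N + 1))), 𝒴 N k Y →
        NoComp P Y (X '' I) := by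
  constructor
  · intro h N k Y I _
    refine log_back hP (h N _ ?_)
    rintro _ ⟨i, -, rfl⟩
    exact ⟨1, isHomogeneous_X _ _⟩
  · intro h n T hT L _ _ w y hw hy hyT hlog
    obtain ⟨S, hSf, hS⟩ := eqs_fin y
    obtain ⟨T₀, hT₀, hT₀'⟩ := exists_fin T
    obtain ⟨N, k, φ, c, I, J, hY, hE⟩ := h𝒴.emb n S T₀ Empty
      (fun p : S => (p : MvPolynomial (Fin (n + 1)) ℂ))
      (fun p : T₀ => (p : MvPolynomial (Fin (n + 1)) ℂ)) (fun e : Empty => e.elim)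
      (fun p => hSf p p.2) (fun p => hT p (hT₀ p.2)) (fun e => e.elim)
    have hm0 : m ≠ 0 := by
      have := h𝒴.pos
      omega
    refine log_imp hP hpush hm0 hE (match_coord hE hT fun Ω _ _ x => ?_) hw hy hyT hlog hS
      (h N k _ I hY)
    have h1 := hT₀' Ω x
    rw [← not_iff_not]
    push Not
    exact h1

/-- **All affine varieties.** -/
theorem log_affine {P : ExcSet} (hP : Exc P) (hpush : Push P) {m : ℕ}
    {𝒴 : ∀ N k : ℕ, (Fin k → MvPolynomial (Fin (N + 1)) ℂ) → Prop} (h𝒴 : IsClass1 m 𝒴) :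
    (∀ (n r : ℕ) (H : MvPolynomial (Fin (n + 1)) ℂ), 1 ≤ r → H.IsHomogeneous r →
        Proper P ({H} : Set (MvPolynomial (Fin (n + 1)) ℂ))) ↔
      ∀ (N k : ℕ) (Y : Fin k → MvPolynomial (Fin (N + 1)) ℂ) (i : Fin (N + 1)), 𝒴 N k Y →
        NoComp P Y {X i} := by
  constructor
  · intro h N k Y i _
    exact log_back hP (h N 1 (X i) le_rfl (isHomogeneous_X _ _))
  · intro h n r H hr hH L _ _ w y hw hy hyT hlog
    obtain ⟨S, hSf, hS⟩ := eqs_fin y
    obtain ⟨N, k, φ, c, i, J, hY, hE⟩ := h𝒴.emb1 n S Empty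
      (fun p : S => (p : MvPolynomial (Fin (n + 1)) ℂ)) (fun e : Empty => e.elim)
      (fun p => hSf p p.2) (fun e => e.elim) H r hr hH
    have hm0 : m ≠ 0 := by
      have := h𝒴.pos
      omega
    have h1 := h N k _ i hY
    rw [← Set.image_singleton (f := X)] at h1
    refine log_imp hP hpush hm0 hE (match_coord hE (fun G hG => ?_) fun Ω _ _ x => ?_) hw hy hyT
      hlog hS h1
    · rw [Set.mem_singleton_iff] at hG
      rw [hG]
      exact ⟨r, hH⟩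
    · simp

/-- **All projective varieties.** -/
theorem log_projective {P : ExcSet} (hP : Exc P) (hpush : Push P) {m : ℕ}
    {𝒴 : ∀ N k : ℕ, (Fin k → MvPolynomial (Fin (N + 1)) ℂ) → Prop} (h𝒴 : IsClass m 𝒴) :
    (∀ n : ℕ, Proper P ({1} : Set (MvPolynomial (Fin (n + 1)) ℂ))) ↔
      ∀ (N k : ℕ) (Y : Fin k → MvPolynomial (Fin (N + 1)) ℂ), 𝒴 N k Y → NoComp P Y {1} := by
  constructor
  · intro h N k Y _
    exact log_back hP (h N)
  · intro h n L _ _ w y hw hy hyT hlog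
    obtain ⟨S, hSf, hS⟩ := eqs_fin y
    obtain ⟨N, k, φ, c, I, J, hY, hE⟩ := h𝒴.emb n S Empty Empty
      (fun p : S => (p : MvPolynomial (Fin (n + 1)) ℂ)) (fun e : Empty => e.elim)
      (fun e : Empty => e.elim) (fun p => hSf p p.2) (fun e => e.elim) (fun e => e.elim)
    have hm0 : m ≠ 0 := by
      have := h𝒴.pos
      omega
    exact log_imp hP hpush hm0 hE match_one hw hy hyT hlog hS (h N k _ hY)

end Pool.Agent.H441.FT
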