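import Pool.Agent.H441.FT.Log

/-!
The copies of a quasi-projective variety.
-/

set_option autoImplicit false

namespace Pool.Agent.H441.FT

open MvPolynomial FF
open Pool.Agent.N254.SQ hiding Extends lin
open Pool.Agent.W602.GT (GeneralType LogGeneralType coords SubVar)
open Pool.Agent.H441.DQ (dform dform_hom dform_eval)
open Pool.Agent.H441.UA (FEmb vals pullφ pullφ_eval)

/-- the points of a copy of a subvariety of `X` generate the same field -/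
theorem copy_coords {K : Type} [Field K] {m n N k : ℕ} {ι κ γ : Type}
    {F : ι → MvPolynomial (Fin (n + 1)) K} {T : κ → MvPolynomial (Fin (n + 1)) K}
    {G : γ → MvPolynomial (Fin (n + 1)) K} {φ : Fin (N + 1) → MvPolynomial (Fin (n + 1)) K}
    {c : Fin k → Fin (N + 1) → K} {I J : Set (Fin (N + 1))} (hE : FEmb m F T G φ c I J)
    {E L : Type} [Field E] [Field L] [Algebra E L] (σ : K →+* E) {x : Fin (n + 1) → L}
    (hx : coords E x = ⊤) {s : L} (hs : s ≠ 0) {ζ : Fin (N + 1) → E} (hζ : ∀ j, ζ j ≠ 0)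
    {y : Fin (N + 1) → L}
    (hyx : ∀ j, y j = s * (algebraMap E L (ζ j) * vals ((algebraMap E L).comp σ) φ x j)) :
    coords E y = ⊤ := by
  obtain ⟨e, he, -, hm⟩ := hE.exists_mono
  rw [eq_top_iff, ← hx]
  unfold coords
  rw [IntermediateField.adjoin_le_iff]
  rintro _ ⟨a, b, hb, rfl⟩
  obtain ⟨j, hj⟩ := hm a b
  obtain ⟨j', hj'⟩ := hm b b
  have e1 : vals ((algebraMap E L).comp σ) φ x j = x a * x b ^ (e - 1) := by
    unfold vals
    rw [hj, eval₂_mul, eval₂_pow, eval₂_X, eval₂_X]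
  have e2 : vals ((algebraMap E L).comp σ) φ x j' = x b * x b ^ (e - 1) := by
    unfold vals
    rw [hj', eval₂_mul, eval₂_pow, eval₂_X]
  have hb' : x b ^ (e - 1) ≠ 0 := pow_ne_zero _ hb
  have hz : ∀ j, algebraMap E L (ζ j) ≠ 0 := fun j => (_root_.map_ne_zero _).2 (hζ j)
  have hy' : y j' ≠ 0 := by
    rw [hyx, e2]
    exact mul_ne_zero hs (mul_ne_zero (hz _) (mul_ne_zero hb hb'))
  have h3 : x a / x b = algebraMap E L (ζ j' / ζ j) * (y j / y j') := by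
    rw [hyx, hyx, e1, e2, map_div₀]
    have := hz j
    have := hz j'
    field_simp
  rw [h3]
  refine mul_mem (IntermediateField.algebraMap_mem _ _) ?_
  apply IntermediateField.subset_adjoin
  exact ⟨j, j', hy', rfl⟩

section

variable {n N k m : ℕ} {κ γ : Type} {S : Set (MvPolynomial (Fin (n + 1)) ℂ)}
  {S₀ : Finset (MvPolynomial (Fin (n + 1)) ℂ)}
  {T : κ → MvPolynomial (Fin (n + 1)) ℂ} {G : γ → MvPolynomial (Fin (n + 1)) ℂ}
  {φ : Fin (N + 1) → MvPolynomial (Fin (n + 1)) ℂ} {c : Fin k → Fin (N + 1) → ℂ}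
  {I J : Set (Fin (N + 1))} {T₁ : Set (MvPolynomial (Fin (n + 1)) ℂ)}
  {T₂ : Set (MvPolynomial (Fin (N + 1)) ℂ)}

/-- curves in the system -/
theorem emb_curves (hE : FEmb m (fun p : S₀ => (p : MvPolynomial (Fin (n + 1)) ℂ)) T G φ c I J)
    (hS : ∀ (Ω : Type) [Field Ω] [Algebra ℂ Ω] (x : Fin (n + 1) → Ω),
      (∀ p : S₀, aeval x (p : MvPolynomial (Fin (n + 1)) ℂ) = 0) ↔ ∀ p ∈ S, aeval x p = 0)
    (f : ℂ → Fin (N + 1) → ℂ) (hf : Differentiable ℂ f) (hf0 : ∀ z, f z ≠ 0)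
    (hfY : ∀ z i, eval (f z) (dform m (c i)) = 0) :
    (∀ z w, ∃ b : ℂ, f w = b • f z) ∨
      ∃ (ζ : Fin (N + 1) → ℂ) (x : ℂ → Fin (n + 1) → ℂ), (∀ j, ζ j ^ m = 1) ∧
        Differentiable ℂ x ∧ (∀ z, x z ≠ 0) ∧ (∀ z, ∀ p ∈ S, eval (x z) p = 0) ∧
        ∀ z j, f z j = ζ j * eval (x z) (φ j) := by
  by_cases hcon : ∀ z w, ∃ b : ℂ, f w = b • f z
  · exact Or.inl hcon
  · right
    push Not at hcon
    obtain ⟨ζ, x, hζ, hxd, hx0, hxF, hfx⟩ := hE.curves (RingHom.id ℂ) f hf hf0 hfY hcon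
    exact ⟨ζ, x, hζ, hxd, hx0, fun z => (hS ℂ (x z)).1 (hxF z), hfx⟩

/-- subvarieties of the system -/
theorem emb_sub (hE : FEmb m (fun p : S₀ => (p : MvPolynomial (Fin (n + 1)) ℂ)) T G φ c I J)
    (hS : ∀ (Ω : Type) [Field Ω] [Algebra ℂ Ω] (x : Fin (n + 1) → Ω),
      (∀ p : S₀, aeval x (p : MvPolynomial (Fin (n + 1)) ℂ) = 0) ↔ ∀ p ∈ S, aeval x p = 0)
    {L : Type} [Field L] [Algebra ℂ L] {w : ℕ} {y : Fin (N + 1) → L}
    (hy : SubVar (fun i => dform m (c i)) L w y) : GeneralType ℂ L w ∨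
      ∃ (ζ : Fin (N + 1) → ℂ) (x : Fin (n + 1) → L) (s : L), (∀ j, ζ j ^ m = 1) ∧ s ≠ 0 ∧
        SubVar (fun p : S => (p : MvPolynomial (Fin (n + 1)) ℂ)) L w x ∧
        ∀ j, y j = s * (algebraMap ℂ L (ζ j) * aeval x (φ j)) := by
  by_cases hg : GeneralType ℂ L w
  · exact Or.inl hg
  · right
    obtain ⟨ζ, x, s, hζ, hx, hs, hxF, hyx⟩ := hE.sub ℂ (RingHom.id ℂ) L w y hy.ne hy.gen
      hy.dim hg (fun i => hy.mem i)
    exact ⟨ζ, x, s, hζ, hs, ⟨hx, fun p => (hS L x).1 hxF p p.2,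
      copy_gen hE (RingHom.id ℂ) hy.gen hx hs hyx, hy.dim⟩, hyx⟩

/-- copies of subvarieties of `X` -/
theorem emb_copies (hm : m ≠ 0)
    (hE : FEmb m (fun p : S₀ => (p : MvPolynomial (Fin (n + 1)) ℂ)) T G φ c I J)
    (hS : ∀ (Ω : Type) [Field Ω] [Algebra ℂ Ω] (x : Fin (n + 1) → Ω),
      (∀ p : S₀, aeval x (p : MvPolynomial (Fin (n + 1)) ℂ) = 0) ↔ ∀ p ∈ S, aeval x p = 0)
    (hM : Match φ T₁ T₂) {L : Type} [Field L] [Algebra ℂ L] {w : ℕ} {ζ : Fin (N + 1) → ℂ}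
    {x : Fin (n + 1) → L} {s : L} (hζ : ∀ j, ζ j ^ m = 1) (hs : s ≠ 0)
    (hx : SubVar (fun p : S => (p : MvPolynomial (Fin (n + 1)) ℂ)) L w x) {y : Fin (N + 1) → L}
    (hyx : ∀ j, y j = s * (algebraMap ℂ L (ζ j) * aeval x (φ j))) :
    SubVar (fun i => dform m (c i)) L w y ∧ (NotIn T₂ y ↔ NotIn T₁ x) ∧
      (LogGeneral T₂ L w y ↔ LogGeneral T₁ L w x) := by
  have hζ0 := root_ne hm hζ
  have hv := hE.ne L (algebraMap ℂ L) x hx.ne
  refine ⟨⟨?_, fun i => ?_, ?_, hx.dim⟩, notIn_copy hM hx.ne hs hζ0 hyx,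
    log_copy hE hM hx.ne hs hζ0 hyx⟩
  · obtain ⟨j, hj⟩ : ∃ j, vals (algebraMap ℂ L) φ x j ≠ 0 := by
      by_contra hcon
      push Not at hcon
      exact hv (funext hcon)
    intro h0
    have h1 := congrFun h0 j
    rw [hyx j] at h1
    exact mul_ne_zero hs (mul_ne_zero ((_root_.map_ne_zero _).2 (hζ0 j)) hj) h1
  · have h1 := (hE.pts L (algebraMap ℂ L) x hx.ne).1
      (fun p => (hS L x).2 (fun p hp => hx.mem ⟨p, hp⟩) p) i
    rw [dform_eval] at h1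
    change eval₂ (algebraMap ℂ L) y (dform m (c i)) = 0
    rw [dform_eval]
    have h2 : ∀ j, algebraMap ℂ L (c i j) * y j ^ m =
        s ^ m * (algebraMap ℂ L (c i j) * vals (algebraMap ℂ L) φ x j ^ m) := by
      intro j
      have h3 : y j = s * (algebraMap ℂ L (ζ j) * vals (algebraMap ℂ L) φ x j) := hyx j
      rw [h3, mul_pow, mul_pow, ← map_pow, hζ, map_one, one_mul]
      ring
    rw [Finset.sum_congr rfl fun j _ => h2 j, ← Finset.mul_sum, h1, mul_zero]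
  · exact copy_coords hE (RingHom.id ℂ) hx.gen hs hζ0 hyx

/-- the points of the open sets -/
theorem emb_open (hM : Match φ T₁ T₂) {x : Fin (n + 1) → ℂ} (hx : x ≠ 0) :
    (∃ H ∈ T₂, eval (fun j => eval x (φ j)) H ≠ 0) ↔ ∃ H ∈ T₁, eval x H ≠ 0 := by
  have h := notIn_copy hM hx one_ne_zero (ζ := fun _ => 1) (fun _ => one_ne_zero)
    (fun j => vals_one x j)
  exact h

end

end Pool.Agent.H441.FT
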