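import Pool.Agent.H441.FT.Maps

/-!
Holomorphic maps to projective varieties over number fields: reduction to intersections of quadrics
`y_p ^ 2 + y_q ^ 2 = 2 y_s ^ 2 + 2 y_t ^ 2` over the rational numbers.
-/

set_option autoImplicit false

namespace Pool.Agent.H441.FT

open MvPolynomial
open Pool.Agent.N254.SQ hiding Extends lin
open Pool.Agent.H441.DQ (dform dform_hom)
open Pool.Agent.H441.UA (FEmb vals)

section conj

variable {K : Type} [Field K] [NumberField K] {n : ℕ} {ι γ : Type}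
  {F : ι → MvPolynomial (Fin (n + 1)) K} {G : γ → MvPolynomial (Fin (n + 1)) K}
  {E : Type} [NormedAddCommGroup E] [NormedSpace ℂ E] {Λ : Set E}

/-- the conjugate of a nonvanishing map is constant -/
theorem const_conj' {f : E → Fin (n + 1 + n + 1) → ℂ} (hf : Differentiable ℂ f)
    {τ : E → K →+* ℂ} {u : E → Fin (n + 1) → ℂ} (hu : ∀ z, u z ≠ 0)
    (hfu : ∀ z, f z = app (u z) (τ z (pb K).gen • u z)) (z w : E) : τ z = τ w := by
  have : NormedSpace ℝ E := NormedSpace.complexToReal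
  have hcont : Continuous fun z => τ z (pb K).gen := by
    rw [continuous_iff_continuousAt]
    intro z₀
    obtain ⟨i, hi⟩ : ∃ i, u z₀ i ≠ 0 := by
      by_contra hcon
      push Not at hcon
      exact hu z₀ (funext hcon)
    have e1 : ∀ z, f z (lft i) = u z i := fun z => by rw [hfu, app_lft]
    have e2 : ∀ z, f z (rgt i) = τ z (pb K).gen * u z i := fun z => by
      rw [hfu, app_rgt, Pi.smul_apply, smul_eq_mul]
    have hc : ∀ j, Continuous fun z => f z j := fun j => (continuous_pi_iff.1 hf.continuous) j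
    have h1 : ContinuousAt (fun z => f z (rgt i) / f z (lft i)) z₀ :=
      (hc _).continuousAt.div (hc _).continuousAt (by rw [e1]; exact hi)
    refine h1.congr ?_
    have h2 : ∀ᶠ z in nhds z₀, f z (lft i) ≠ 0 :=
      (hc (lft i)).continuousAt.eventually_ne (by rw [e1]; exact hi)
    filter_upwards [h2] with z hz
    rw [e1] at hz
    rw [e1, e2, mul_div_assoc, div_self hz, mul_one]
  have hfin : (Set.range fun σ : K →+* ℂ => σ (pb K).gen).Finite := Set.finite_range _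
  apply hom_ext
  have hpre : IsPreconnected (Set.univ : Set E) := (convex_univ (𝕜 := ℝ)).isPreconnected
  exact hpre.constant_of_mapsTo hfin.isDiscrete
    hcont.continuousOn (fun z _ => ⟨τ z, rfl⟩) (Set.mem_univ z) (Set.mem_univ w)

/-- the maps -/
theorem conj_maps : MapsIn E Λ (algebraMap ℚ ℂ) (conjF F) (conjG G) ↔
    ∀ σ : K →+* ℂ, MapsIn E Λ σ F G := by
  constructor
  · rintro h σ f hf hf0 hfF hper ⟨z₀, w₀, hnc⟩ z
    rw [← conj_iff (algebraMap ℚ ℂ) σ (hf0 z)]
    refine h (fun z => app (f z) (σ (pb K).gen • f z)) ?_ (fun z => app_ne (hf0 z))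
      (fun z => (conj_pts _ (app_ne (hf0 z))).2 ⟨σ, f z, hf0 z, rfl, hfF z⟩) ?_
      ⟨z₀, w₀, fun c hc => hnc c ?_⟩ z
    · rw [differentiable_pi]
      intro j
      refine Fin.addCases (m := n + 1) (n := n + 1) (fun i => ?_) (fun i => ?_) j
      · have e : (fun z => app (f z) (σ (pb K).gen • f z) (Fin.castAdd (n + 1) i)) =
            fun z => f z i := by
          funext z
          exact app_lft _ _ i
        rw [e]
        exact (differentiable_pi.1 hf) i
      · have e : (fun z => app (f z) (σ (pb K).gen • f z) (Fin.natAdd (n + 1) i)) =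
            fun z => σ (pb K).gen * f z i := by
          funext z
          exact app_rgt _ _ i
        rw [e]
        exact ((differentiable_pi.1 hf) i).const_mul _
    · intro z l hl
      obtain ⟨b, hb⟩ := hper z l hl
      refine ⟨b, ?_⟩
      rw [hb, ← app_smul]
      congr 1
      rw [smul_comm]
    · rw [← app_smul] at hc
      exact app_inj hc
  · intro h f hf hf0 hfF hper hnc
    have h1 := fun z => (conj_pts (F := F) (algebraMap ℚ ℂ) (hf0 z)).1 (hfF z)
    choose τ u hu hfu huF using h1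
    have hτ : ∀ z, τ z = τ 0 := fun z => const_conj' hf hu hfu z 0
    simp only [hτ] at hfu huF
    obtain ⟨z₀, w₀, hnc⟩ := hnc
    have hud : Differentiable ℂ u := by
      rw [differentiable_pi]
      intro i
      have e : (fun z => u z i) = fun z => f z (lft i) := by
        funext z
        rw [hfu, app_lft]
      rw [e]
      exact (differentiable_pi.1 hf) _
    have h2 := h (τ 0) u hud hu huF (fun z l hl => by
      obtain ⟨b, hb⟩ := hper z l hl
      refine ⟨b, ?_⟩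
      rw [hfu, hfu, ← app_smul] at hb
      exact app_inj hb) ⟨z₀, w₀, fun c hc => hnc c (by
      rw [hfu, hfu, ← app_smul, hc]
      congr 1
      rw [smul_comm])⟩
    intro z
    rw [hfu, conj_iff (algebraMap ℚ ℂ) (τ 0) (hu z)]
    exact h2 z

end conj

/-- all maps from the spaces of a family with the given periods -/
def AllIn {A : Type} (E : A → Type) [∀ a, NormedAddCommGroup (E a)] [∀ a, NormedSpace ℂ (E a)]
    (Λ : ∀ a, Set (E a)) {K : Type} [Field K] {ι γ : Type} {n : ℕ} (σ : K →+* ℂ)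
    (F : ι → MvPolynomial (Fin (n + 1)) K) (G : γ → MvPolynomial (Fin (n + 1)) K) : Prop :=
  ∀ a, MapsIn (E a) (Λ a) σ F G

section

variable {n : ℕ} {ι γ : Type} {A : Type} {E : A → Type} [∀ a, NormedAddCommGroup (E a)]
  [∀ a, NormedSpace ℂ (E a)] {Λ : ∀ a, Set (E a)}

theorem maps_congr {K : Type} [Field K] {σ : K →+* ℂ}
    {F F' : ι → MvPolynomial (Fin (n + 1)) K} {G G' : γ → MvPolynomial (Fin (n + 1)) K}
    (hF : ∀ (Ω : Type) [Field Ω] (ρ : K →+* Ω) (x : Fin (n + 1) → Ω) (i : ι),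
        eval₂ ρ x (F' i) = 0 ↔ eval₂ ρ x (F i) = 0)
    (hG : ∀ (Ω : Type) [Field Ω] (ρ : K →+* Ω) (x : Fin (n + 1) → Ω) (i : γ),
        eval₂ ρ x (G' i) = 0 ↔ eval₂ ρ x (G i) = 0) : AllIn E Λ σ F' G' ↔ AllIn E Λ σ F G := by
  unfold AllIn MapsIn
  simp only [hF, hG]

/-- **From maps to points, over the rational numbers.** -/
theorem mapsQ [Finite ι] [Finite γ]
    (H : ∀ (N k : ℕ) (R : Fin k → Fin 4 → Fin (N + 1)) (J : Set (Fin (N + 1))),
      AllIn E Λ (algebraMap ℚ ℂ) (par R) (coord ℚ J) → PointsIn (par R) (coord ℚ J))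
    (F : ι → MvPolynomial (Fin (n + 1)) ℚ) (G : γ → MvPolynomial (Fin (n + 1)) ℚ)
    (hF : ∀ i, ∃ e, (F i).IsHomogeneous e) (hG : ∀ i, ∃ e, (G i).IsHomogeneous e)
    (h : AllIn E Λ (algebraMap ℚ ℂ) F G) : PointsIn F G := by
  obtain ⟨N, k, R, φ, c, J, F', G', hc, -, -, -, hF', hG', hE⟩ := exists_parQ F G hF hG
  have hc' : (fun i => dform 2 (c i)) = par R := funext hc
  rw [← points_congr hF' hG']
  rw [← maps_congr hF' hG'] at h
  refine points_of hE ?_
  rw [hc']
  apply H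
  rw [← hc']
  intro a
  exact maps_to two_ne_zero hE _ (h a)

/-- **From points to maps, over the rational numbers.** -/
theorem mapsQ' [Finite ι] [Finite γ]
    (H : ∀ (N k : ℕ) (R : Fin k → Fin 4 → Fin (N + 1)) (J : Set (Fin (N + 1))),
      AllIn E Λ (algebraMap ℚ ℂ) (par R) (coord ℚ J) ↔ PointsIn (par R) (coord ℚ J))
    (F : ι → MvPolynomial (Fin (n + 1)) ℚ) (G : γ → MvPolynomial (Fin (n + 1)) ℚ)
    (hF : ∀ i, ∃ e, (F i).IsHomogeneous e) (hG : ∀ i, ∃ e, (G i).IsHomogeneous e)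
    (h : PointsIn F G) : AllIn E Λ (algebraMap ℚ ℂ) F G := by
  obtain ⟨N, k, R, φ, c, J, F', G', hc, -, hF'h, -, hF', hG', hE⟩ := exists_parQ F G hF hG
  have hc' : (fun i => dform 2 (c i)) = par R := funext hc
  rw [← maps_congr hF' hG']
  rw [← points_congr hF' hG'] at h
  obtain ⟨κ₁, _, Z, hZh, hZa, hZb⟩ := hE.copies
  have h1 : PointsIn (fun i => dform 2 (c i)) Z := by
    refine mapsQ (fun N k R J => (H N k R J).1) (fun i => dform 2 (c i)) Z
      (fun i => ⟨2, dform_hom _⟩) hZh ?_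
    intro a f hf hf0 hfX hper hnc z s
    obtain ⟨ζ, x, hζ, hxd, hx0, hxF, hfx⟩ := maps_lift two_ne_zero hE (algebraMap ℚ ℂ) hf hf0 hfX
      hnc
    refine hZa ℂ (algebraMap ℚ ℂ) (x z) (f z) 1 (hxF z) (fun j => ?_) s
    rw [hfx, mul_pow, hζ]
  intro a
  refine maps_of hE _ ?_
  have h2 : AllIn E Λ (algebraMap ℚ ℂ) (fun i => dform 2 (c i)) (coord ℚ J) := by
    rw [hc', H, ← hc']
    exact points_to le_rfl hE hF'h hZb h1 h
  exact h2 a

variable {K : Type} [Field K] [NumberField K]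

theorem conj_all {F : ι → MvPolynomial (Fin (n + 1)) K} {G : γ → MvPolynomial (Fin (n + 1)) K} :
    AllIn E Λ (algebraMap ℚ ℂ) (conjF F) (conjG G) ↔ ∀ σ : K →+* ℂ, AllIn E Λ σ F G := by
  unfold AllIn
  constructor
  · intro h σ a
    exact conj_maps.1 (h a) σ
  · intro h a
    exact conj_maps.2 fun σ => h σ a

/-- **From maps to points.** -/
theorem mapsK [Finite ι] [Finite γ]
    (H : ∀ (N k : ℕ) (R : Fin k → Fin 4 → Fin (N + 1)) (J : Set (Fin (N + 1))),
      AllIn E Λ (algebraMap ℚ ℂ) (par R) (coord ℚ J) → PointsIn (par R) (coord ℚ J))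
    (F : ι → MvPolynomial (Fin (n + 1)) K) (G : γ → MvPolynomial (Fin (n + 1)) K)
    (hF : ∀ i, ∃ e, (F i).IsHomogeneous e) (hG : ∀ i, ∃ e, (G i).IsHomogeneous e)
    (h : ∀ σ : K →+* ℂ, AllIn E Λ σ F G) : PointsIn F G :=
  (conj_points hF hG).1 (mapsQ H _ _ (conjF_hom F hF) (conjG_hom G hG) (conj_all.2 h))

/-- **From points to maps.** -/
theorem mapsK' [Finite ι] [Finite γ]
    (H : ∀ (N k : ℕ) (R : Fin k → Fin 4 → Fin (N + 1)) (J : Set (Fin (N + 1))),
      AllIn E Λ (algebraMap ℚ ℂ) (par R) (coord ℚ J) ↔ PointsIn (par R) (coord ℚ J))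
    (F : ι → MvPolynomial (Fin (n + 1)) K) (G : γ → MvPolynomial (Fin (n + 1)) K)
    (hF : ∀ i, ∃ e, (F i).IsHomogeneous e) (hG : ∀ i, ∃ e, (G i).IsHomogeneous e)
    (h : PointsIn F G) : ∀ σ : K →+* ℂ, AllIn E Λ σ F G :=
  conj_all.1 (mapsQ' H _ _ (conjF_hom F hF) (conjG_hom G hG) ((conj_points hF hG).2 h))

/-- **Maps and finiteness, over the rational numbers.** -/
theorem onlyQ [Finite ι]
    (H : ∀ (N k : ℕ) (R : Fin k → Fin 4 → Fin (N + 1)),
      AllIn E Λ (algebraMap ℚ ℂ) (par R) (fun _ : Unit => 1) →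
        PointsIn (par R) (fun _ : Unit => 1))
    (F : ι → MvPolynomial (Fin (n + 1)) ℚ)
    (hF : ∀ i, ∃ e, (F i).IsHomogeneous e)
    (h : AllIn E Λ (algebraMap ℚ ℂ) F fun _ : Unit => 1) : PointsIn F fun _ : Unit => 1 := by
  obtain ⟨N, k, R, φ, c, J, F', G', hc, -, -, -, hF', hG', hE⟩ := exists_parQ F
    (fun _ : Unit => (1 : MvPolynomial (Fin (n + 1)) ℚ)) hF
    (fun _ => ⟨0, isHomogeneous_one _ _⟩)
  have hc' : (fun i => dform 2 (c i)) = par R := funext hc
  rw [← points_congr hF' hG']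
  rw [← maps_congr hF' hG'] at h
  refine points_of hE ?_
  rw [hc']
  have h1 : AllIn E Λ (algebraMap ℚ ℂ) (par R)
      (fun _ : Unit => (1 : MvPolynomial (Fin (N + 1)) ℚ)) := by
    rw [← hc']
    intro a f hf hf0 hfX hper hnc
    exfalso
    obtain ⟨z₀, w₀, hnc'⟩ := hnc
    obtain ⟨ζ, x, hζ, hxd, hx0, hxF, hfx⟩ := maps_lift two_ne_zero hE _ hf hf0 hfX
      ⟨z₀, w₀, hnc'⟩
    have hζ0 : ∀ j, ζ j ≠ 0 := by
      intro j h0
      have := hζ j
      rw [h0, zero_pow two_ne_zero] at this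
      exact zero_ne_one this
    obtain ⟨e, hsm⟩ := vals_smul hE
    have h2 := h a x hxd hx0 hxF (fun z l hl => by
      obtain ⟨b, hb⟩ := hper z l hl
      refine hE.inj ℂ (algebraMap ℚ ℂ) _ _ b (hx0 _) (funext fun j => ?_)
      have h2 := congrFun hb j
      rw [Pi.smul_apply, smul_eq_mul, hfx, hfx] at h2
      rw [Pi.smul_apply, smul_eq_mul]
      apply mul_left_cancel₀ (hζ0 j)
      linear_combination h2) ⟨z₀, w₀, fun b hb => hnc' (b ^ e) (funext fun j => by
      rw [hfx, hb, hsm, Pi.smul_apply, Pi.smul_apply, smul_eq_mul, smul_eq_mul, hfx]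
      ring)⟩ 0 ()
    rw [hG'] at h2
    simp at h2
  intro L _ _ _
  refine (H N k R h1 L).subset ?_
  rintro P ⟨hP, -⟩
  refine ⟨hP, fun hcon => ?_⟩
  have := hcon ()
  simp at this

/-- **Maps and finiteness.** -/
theorem onlyK [Finite ι]
    (H : ∀ (N k : ℕ) (R : Fin k → Fin 4 → Fin (N + 1)),
      AllIn E Λ (algebraMap ℚ ℂ) (par R) (fun _ : Unit => 1) →
        PointsIn (par R) (fun _ : Unit => 1))
    (F : ι → MvPolynomial (Fin (n + 1)) K)
    (hF : ∀ i, ∃ e, (F i).IsHomogeneous e)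
    (h : ∀ σ : K →+* ℂ, AllIn E Λ σ F fun _ : Unit => 1) : PointsIn F fun _ : Unit => 1 := by
  have hG : ∀ _ : Unit, ∃ e, (1 : MvPolynomial (Fin (n + 1)) K).IsHomogeneous e :=
    fun _ => ⟨0, isHomogeneous_one _ _⟩
  rw [← conj_points hF hG]
  have h1 : AllIn E Λ (algebraMap ℚ ℂ) (conjF F)
      (fun _ : Unit => (1 : MvPolynomial (Fin (n + 1 + n + 1)) ℚ)) := by
    intro a f hf hf0 hfX hper hnc z
    exfalso
    have h2 := conj_maps.2 (fun σ => h σ a) f hf hf0 hfX hper hnc z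
    have h3 := (conj_pts (F := F) (algebraMap ℚ ℂ) (hf0 z)).1 (hfX z)
    obtain ⟨τ, u, hu, hfu, -⟩ := h3
    rw [hfu, conj_iff (algebraMap ℚ ℂ) τ hu] at h2
    have := h2 ()
    simp at this
  intro L _ _ _
  refine (onlyQ H _ (conjF_hom F hF) h1 L).subset ?_
  rintro P ⟨hP, -⟩
  refine ⟨hP, fun hcon => ?_⟩
  have := hcon ()
  simp at this

end

end Pool.Agent.H441.FT
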