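import Pool.Agent.H441.FT.Blv

/-!
Holomorphic maps from complex vector spaces (with periods) to projective varieties and to their
embeddings.
-/

set_option autoImplicit false

namespace Pool.Agent.H441.FT

open MvPolynomial
open Pool.Agent.N254.SQ hiding Extends lin
open Pool.Agent.H441.DF (Cut exists_cut exists_mon lift_pt)
open Pool.Agent.H441.DQ (dform dform_hom dform_eval vec vec_eval)
open Pool.Agent.H441.UA (FEmb vals)

section fun_

variable {E : Type} [NormedAddCommGroup E] [NormedSpace ℂ E]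

/-- the line through two points -/
theorem line_diff (z w : E) : Differentiable ℂ fun s : ℂ => z + s • (w - z) := by
  fun_prop

/-- a product of two entire functions is zero only if one of them is -/
theorem exists_ne_two {f g : E → ℂ} (hf : Differentiable ℂ f) (hg : Differentiable ℂ g)
    (h1 : ∃ z, f z ≠ 0) (h2 : ∃ z, g z ≠ 0) : ∃ z, f z ≠ 0 ∧ g z ≠ 0 := by
  obtain ⟨z₁, hz₁⟩ := h1
  obtain ⟨z₂, hz₂⟩ := h2
  by_contra hcon
  push Not at hcon
  have hF : Differentiable ℂ fun s : ℂ => f (z₁ + s • (z₂ - z₁)) := hf.comp (line_diff z₁ z₂)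
  have hG : Differentiable ℂ fun s : ℂ => g (z₁ + s • (z₂ - z₁)) := hg.comp (line_diff z₁ z₂)
  have hFa : AnalyticOnNhd ℂ (fun s : ℂ => f (z₁ + s • (z₂ - z₁))) Set.univ :=
    fun s _ => hF.analyticAt s
  have hGa : AnalyticOnNhd ℂ (fun s : ℂ => g (z₁ + s • (z₂ - z₁))) Set.univ :=
    fun s _ => hG.analyticAt s
  have h3 : ∀ᶠ s in nhds (0 : ℂ), f (z₁ + s • (z₂ - z₁)) ≠ 0 := by
    apply hF.continuous.continuousAt.eventually_ne
    rw [zero_smul, add_zero]
    exact hz₁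
  have h4 : ∀ᶠ s in nhds (0 : ℂ), g (z₁ + s • (z₂ - z₁)) = 0 := by
    filter_upwards [h3] with s hs
    exact hcon _ hs
  have h5 := hGa.eqOn_zero_of_preconnected_of_eventuallyEq_zero isPreconnected_univ
    (Set.mem_univ 0) h4
  have h6 := h5 (Set.mem_univ 1)
  simp only [one_smul, add_sub_cancel, Pi.zero_apply] at h6
  exact hz₂ h6

/-- a finite number of nonzero entire functions have a common nonzero -/
theorem exists_ne_all {κ : Type} (s : Finset κ) (f : κ → E → ℂ) (hf : ∀ a ∈ s, Differentiable ℂ (f a))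
    (h : ∀ a ∈ s, ∃ z, f a z ≠ 0) : ∃ z, ∀ a ∈ s, f a z ≠ 0 := by
  classical
  have key : ∀ s : Finset κ, (∀ a ∈ s, Differentiable ℂ (f a)) → (∀ a ∈ s, ∃ z, f a z ≠ 0) →
      (Differentiable ℂ fun z => ∏ a ∈ s, f a z) ∧ ∃ z, ∏ a ∈ s, f a z ≠ 0 := by
    intro s
    induction s using Finset.induction_on with
    | empty =>
      intro _ _
      refine ⟨?_, 0, ?_⟩
      · simp only [Finset.prod_empty]
        exact differentiable_const 1
      · simp only [Finset.prod_empty]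
        exact one_ne_zero
    | insert a s ha ih =>
      intro h1 h2
      obtain ⟨h3, h4⟩ := ih (fun b hb => h1 b (Finset.mem_insert_of_mem hb))
        (fun b hb => h2 b (Finset.mem_insert_of_mem hb))
      have h5 := h1 a (Finset.mem_insert_self a s)
      have h6 := h2 a (Finset.mem_insert_self a s)
      simp only [Finset.prod_insert ha]
      refine ⟨h5.mul h3, ?_⟩
      obtain ⟨z, hz1, hz2⟩ := exists_ne_two h5 h3 h6 h4
      exact ⟨z, mul_ne_zero hz1 hz2⟩
  obtain ⟨-, z, hz⟩ := key s hf h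
  exact ⟨z, fun a ha h0 => hz (Finset.prod_eq_zero ha h0)⟩

end fun_

/-- all nonconstant holomorphic maps `E → V(F)` with periods in `Λ` lie in `V(G)` -/
def MapsIn (E : Type) [NormedAddCommGroup E] [NormedSpace ℂ E] (Λ : Set E) {K : Type} [Field K]
    {ι γ : Type} {n : ℕ} (σ : K →+* ℂ) (F : ι → MvPolynomial (Fin (n + 1)) K)
    (G : γ → MvPolynomial (Fin (n + 1)) K) : Prop :=
  ∀ f : E → Fin (n + 1) → ℂ, Differentiable ℂ f → (∀ z, f z ≠ 0) →
    (∀ z i, eval₂ σ (f z) (F i) = 0) → (∀ z, ∀ l ∈ Λ, ∃ b : ℂ, f (z + l) = b • f z) →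
    (∃ z w, ∀ b : ℂ, f w ≠ b • f z) → ∀ z l, eval₂ σ (f z) (G l) = 0

section

variable {K : Type} [Field K] {m n N k : ℕ} {ι κ γ : Type}
  {F : ι → MvPolynomial (Fin (n + 1)) K} {T : κ → MvPolynomial (Fin (n + 1)) K}
  {G : γ → MvPolynomial (Fin (n + 1)) K} {φ : Fin (N + 1) → MvPolynomial (Fin (n + 1)) K}
  {c : Fin k → Fin (N + 1) → K} {I J : Set (Fin (N + 1))}

/-- **Holomorphic maps of several variables.** -/
theorem maps_lift [CharZero K] (hm : m ≠ 0) (hE : FEmb m F T G φ c I J) (σ : K →+* ℂ) {E : Type}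
    [NormedAddCommGroup E] [NormedSpace ℂ E] {f : E → Fin (N + 1) → ℂ} (hf : Differentiable ℂ f)
    (hf0 : ∀ z, f z ≠ 0) (hfY : ∀ z i, eval₂ σ (f z) (dform m (c i)) = 0)
    (hnc : ∃ z w, ∀ b : ℂ, f w ≠ b • f z) :
    ∃ (ζ : Fin (N + 1) → ℂ) (x : E → Fin (n + 1) → ℂ), (∀ j, ζ j ^ m = 1) ∧
      Differentiable ℂ x ∧ (∀ z, x z ≠ 0) ∧ (∀ z i, eval₂ σ (x z) (F i) = 0) ∧
      ∀ z j, f z j = ζ j * vals σ φ (x z) j := by
  classical
  obtain ⟨z₀, w₀, hzw⟩ := hnc
  -- every point is in a copy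
  have h1 : ∀ z, ∃ (ζ : Fin (N + 1) → ℂ) (x : Fin (n + 1) → ℂ), (∀ j, ζ j ^ m = 1) ∧
      x ≠ 0 ∧ ∀ j, f z j = ζ j * vals σ φ x j := by
    intro z
    obtain ⟨w, hw⟩ : ∃ w, ∀ b : ℂ, f w ≠ b • f z := by
      by_contra hcon
      push Not at hcon
      obtain ⟨a, ha⟩ := hcon z₀
      obtain ⟨b, hb⟩ := hcon w₀
      have ha0 : a ≠ 0 := by
        rintro rfl
        rw [zero_smul] at ha
        exact hf0 z₀ ha
      apply hzw (b * a⁻¹)
      rw [ha, smul_smul, mul_assoc, inv_mul_cancel₀ ha0, mul_one]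
      exact hb
    obtain ⟨ζ, x, hζ, -, hx0, -, hfx⟩ := hE.curves σ (fun s => f (z + s • (w - z)))
      (hf.comp (line_diff z w)) (fun s => hf0 _) (fun s => hfY _) ⟨0, 1, fun b hb => hw b (by
        simpa using hb)⟩
    refine ⟨ζ, x 0, hζ, hx0 0, fun j => ?_⟩
    have := hfx 0 j
    rwa [zero_smul, add_zero] at this
  -- the equations of a copy
  obtain ⟨e, he, hφ, hmono⟩ := hE.mono
  obtain ⟨M, v, hv⟩ := exists_mon n e
  have hmono' : ∀ l, ∃ j, φ j = ∏ i, X i ^ v l i := fun l => hmono (v l) (hv.deg l)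
  choose a ha using hmono'
  have hfin : Finite Empty := inferInstance
  obtain ⟨ι', hι', q, hq⟩ := exists_cut (K := ℂ) hv he
    (fun e : Empty => (e.elim : MvPolynomial (Fin (n + 1)) ℂ)) (fun e => e.elim)
  obtain ⟨W, hW⟩ : ∃ W : (Fin (N + 1) → ℂ) → (Fin (N + 1) → ℂ) → Fin (M + 1) → ℂ,
    W = fun ζ y l => (ζ (a l))⁻¹ * y (a l) := ⟨_, rfl⟩
  have hval : ∀ (j : Fin (N + 1)) (x : Fin (n + 1) → ℂ), vals σ φ x j =
      ∑ l, σ (vec (K := K) v (φ j) l) * ver v x l := by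
    intro j x
    have := vec_eval (K := K) hv (hφ j) σ x
    have e1 : σ.comp (algebraMap K K) = σ := RingHom.comp_id σ
    rw [e1] at this
    rw [this]
    rfl
  have hvalm : ∀ (l : Fin (M + 1)) (x : Fin (n + 1) → ℂ), vals σ φ x (a l) = ver v x l := by
    intro l x
    unfold vals ver
    rw [ha, ← coe_eval₂Hom, map_prod]
    refine Finset.prod_congr rfl fun i _ => ?_
    rw [map_pow, coe_eval₂Hom, eval₂_X]
  have hζ0 : ∀ ζ : Fin (N + 1) → ℂ, (∀ j, ζ j ^ m = 1) → ∀ j, ζ j ≠ 0 := by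
    intro ζ hζ j h0
    have := hζ j
    rw [h0, zero_pow hm] at this
    exact zero_ne_one this
  -- points of a copy satisfy them
  have h2 : ∀ (ζ : Fin (N + 1) → ℂ) (x : Fin (n + 1) → ℂ) (y : Fin (N + 1) → ℂ),
      (∀ j, ζ j ^ m = 1) → (∀ j, y j = ζ j * vals σ φ x j) →
      (∀ i, aeval (W ζ y) (q i) = 0) ∧
        ∀ j, y j - ζ j * ∑ l, σ (vec (K := K) v (φ j) l) * W ζ y l = 0 := by
    intro ζ x y hζ hy
    have hWv : W ζ y = ver v x := by
      funext l
      rw [hW]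
      simp only
      rw [hy, hvalm, inv_mul_cancel_left₀ (hζ0 ζ hζ _)]
    constructor
    · intro i
      rw [hWv]
      exact hq.fwd ℂ x (fun e => e.elim) i
    · intro j
      rw [hWv, hy, hval, sub_self]
  have hWd : ∀ ζ, Differentiable ℂ fun z => W ζ (f z) := by
    intro ζ
    rw [differentiable_pi, hW]
    intro l
    exact ((differentiable_pi.1 hf) (a l)).const_mul _
  -- one copy
  have hZ : {ζ : Fin (N + 1) → ℂ | ∀ j, ζ j ^ m = 1}.Finite := by
    have h3 : {t : ℂ | t ^ m = 1}.Finite := by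
      refine (Polynomial.nthRoots m (1 : ℂ)).toFinset.finite_toSet.subset ?_
      intro t ht
      rw [Finset.mem_coe, Multiset.mem_toFinset, Polynomial.mem_nthRoots (by omega)]
      exact ht
    exact Set.Finite.pi' (ι := Fin (N + 1)) (t := fun _ => {t : ℂ | t ^ m = 1}) fun _ => h3
  obtain ⟨ζ, hζ, hA⟩ : ∃ ζ : Fin (N + 1) → ℂ, (∀ j, ζ j ^ m = 1) ∧ ∀ z,
      (∀ i, aeval (W ζ (f z)) (q i) = 0) ∧
        ∀ j, f z j - ζ j * ∑ l, σ (vec (K := K) v (φ j) l) * W ζ (f z) l = 0 := by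
    by_contra hcon
    push Not at hcon
    have h3 : ∀ ζ : Fin (N + 1) → ℂ, (∀ j, ζ j ^ m = 1) → ∃ D : E → ℂ, Differentiable ℂ D ∧
        (∃ z, D z ≠ 0) ∧ ∀ (z : E) (x : Fin (n + 1) → ℂ), (∀ j, f z j = ζ j * vals σ φ x j) →
          D z = 0 := by
      intro ζ hζ
      obtain ⟨z, hz⟩ := hcon ζ hζ
      by_cases h4 : ∀ i, aeval (W ζ (f z)) (q i) = 0
      · obtain ⟨j, hj⟩ := hz h4
        refine ⟨fun z => f z j - ζ j * ∑ l, σ (vec (K := K) v (φ j) l) * W ζ (f z) l, ?_,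
          ⟨z, hj⟩, fun z x hx => (h2 ζ x (f z) hζ hx).2 j⟩
        refine ((differentiable_pi.1 hf) j).sub (Differentiable.const_mul ?_ _)
        refine Differentiable.fun_sum fun l _ => ?_
        exact ((differentiable_pi.1 (hWd ζ)) l).const_mul _
      · push Not at h4
        obtain ⟨i, hi⟩ := h4
        refine ⟨fun z => aeval (W ζ (f z)) (q i), ?_, ⟨z, hi⟩, fun z x hx =>
          (h2 ζ x (f z) hζ hx).1 i⟩
        have h5 : Differentiable ℂ fun x => eval x (q i) := by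
          have := (AnalyticOnNhd.eval_mvPolynomial (q i)).differentiableOn (𝕜 := ℂ)
          exact differentiableOn_univ.1 this
        have h6 := h5.comp (hWd ζ)
        have e1 : (fun z => aeval (W ζ (f z)) (q i)) = (fun x => eval x (q i)) ∘
            fun z => W ζ (f z) := by
          funext z
          rw [Function.comp_apply, ← coe_aeval_eq_eval]
          rfl
        rw [e1]
        exact h6
    choose! D hD1 hD2 hD3 using h3
    obtain ⟨z, hz⟩ := exists_ne_all hZ.toFinset D (fun ζ hζ => hD1 ζ (by simpa using hζ))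
      (fun ζ hζ => hD2 ζ (by simpa using hζ))
    obtain ⟨ζ, x, hζ, -, hx⟩ := h1 z
    exact hz ζ (by simpa using hζ) (hD3 ζ hζ z x hx)
  -- the lift
  have hW0 : ∀ z, W ζ (f z) ≠ 0 := by
    intro z h0
    apply hf0 z
    funext j
    have h3 := (hA z).2 j
    rw [h0] at h3
    simpa using h3
  obtain ⟨x, hxd, hx⟩ := t_lift n M e v hv he E (fun z => W ζ (f z)) (hWd ζ) (fun z => by
    obtain ⟨x, hx, hwx, -⟩ := lift_pt hq hv he (fun e => e.elim) (hW0 z) (hA z).1
    exact ⟨x, hx, hwx⟩)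
  have hx0 : ∀ z, x z ≠ 0 := by
    intro z h0
    apply hW0 z
    rw [hx z, h0]
    funext l
    unfold ver
    obtain ⟨i, hi⟩ : ∃ i, v l i ≠ 0 := by
      by_contra hcon
      push Not at hcon
      have h1 := hv.deg l
      rw [Finset.sum_eq_zero fun i _ => hcon i] at h1
      omega
    exact Finset.prod_eq_zero (Finset.mem_univ i) (by rw [Pi.zero_apply, zero_pow hi])
  have hfx : ∀ z j, f z j = ζ j * vals σ φ (x z) j := by
    intro z j
    have h3 := (hA z).2 j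
    rw [sub_eq_zero] at h3
    rw [h3, hx z, hval]
  refine ⟨ζ, x, hζ, hxd, hx0, fun z => (hE.pts ℂ σ (x z) (hx0 z)).2 fun i => ?_, hfx⟩
  have h3 := hfY z i
  rw [dform_eval] at h3 ⊢
  rw [← h3]
  refine Finset.sum_congr rfl fun j _ => ?_
  rw [hfx, mul_pow, hζ, one_mul]

theorem vals_diff' {E : Type} [NormedAddCommGroup E] [NormedSpace ℂ E] (σ : K →+* ℂ)
    (φ : Fin (N + 1) → MvPolynomial (Fin (n + 1)) K)
    {f : E → Fin (n + 1) → ℂ} (hf : Differentiable ℂ f) :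
    Differentiable ℂ fun z => vals σ φ (f z) := by
  rw [differentiable_pi]
  intro j
  have h1 : Differentiable ℂ fun x => eval x (map σ (φ j)) := by
    have := (AnalyticOnNhd.eval_mvPolynomial (map σ (φ j))).differentiableOn (𝕜 := ℂ)
    exact differentiableOn_univ.1 this
  have h2 := h1.comp hf
  have e1 : (fun z => vals σ φ (f z) j) = (fun x => eval x (map σ (φ j))) ∘ f := by
    funext z
    rw [Function.comp_apply, eval_map]
    rfl
  rw [e1]
  exact h2

variable {E : Type} [NormedAddCommGroup E] [NormedSpace ℂ E] {Λ : Set E}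

theorem maps_to [CharZero K] (hm : m ≠ 0) (hE : FEmb m F T G φ c I J) (σ : K →+* ℂ)
    (h : MapsIn E Λ σ F G) : MapsIn E Λ σ (fun i => dform m (c i)) (coord K J) := by
  obtain ⟨e, hsm⟩ := vals_smul hE
  intro f hf hf0 hfX hper hnc
  obtain ⟨ζ, x, hζ, hxd, hx0, hxF, hfx⟩ := maps_lift hm hE σ hf hf0 hfX hnc
  have hζ0 : ∀ j, ζ j ≠ 0 := by
    intro j h0
    have := hζ j
    rw [h0, zero_pow hm] at this
    exact zero_ne_one this
  obtain ⟨z₀, w₀, hnc⟩ := hnc
  have h1 := h x hxd hx0 hxF (fun z l hl => by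
    obtain ⟨b, hb⟩ := hper z l hl
    refine hE.inj ℂ σ _ _ b (hx0 _) (funext fun j => ?_)
    have h2 := congrFun hb j
    rw [Pi.smul_apply, smul_eq_mul, hfx, hfx] at h2
    rw [Pi.smul_apply, smul_eq_mul]
    apply mul_left_cancel₀ (hζ0 j)
    linear_combination h2) ⟨z₀, w₀, fun b hb => hnc (b ^ e) (funext fun j => by
      rw [hfx, hb, hsm, Pi.smul_apply, Pi.smul_apply, smul_eq_mul, smul_eq_mul, hfx]
      ring)⟩
  intro z j
  unfold coord
  rw [eval₂_X, hfx, (hE.onG ℂ σ (x z) (hx0 z)).2 (h1 z) j j.2, mul_zero]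

theorem maps_of (hE : FEmb m F T G φ c I J) (σ : K →+* ℂ)
    (h : MapsIn E Λ σ (fun i => dform m (c i)) (coord K J)) : MapsIn E Λ σ F G := by
  obtain ⟨e, hsm⟩ := vals_smul hE
  rintro f hf hf0 hfF hper ⟨z₀, w₀, hnc⟩ z
  have h1 := h (fun z => vals σ φ (f z)) (vals_diff' σ φ hf) (fun z => hE.ne ℂ σ (f z) (hf0 z))
    (fun z => (hE.pts ℂ σ (f z) (hf0 z)).1 (hfF z)) (fun z l hl => by
      obtain ⟨b, hb⟩ := hper z l hl
      exact ⟨b ^ e, by rw [hb, hsm]⟩) ⟨z₀, w₀, fun b hb => by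
        obtain ⟨t, ht⟩ := hE.inj ℂ σ _ _ b (hf0 w₀) hb
        exact hnc t ht⟩ z
  refine (hE.onG ℂ σ (f z) (hf0 z)).1 fun j hj => ?_
  have h2 := h1 ⟨j, hj⟩
  unfold coord at h2
  rwa [eval₂_X] at h2

end

end Pool.Agent.H441.FT
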