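import Mathlib

/-!
Functions on a box which satisfy the parallelogram law.
-/

set_option autoImplicit false

namespace Pool.Agent.H441.FT

/-- the integral vectors with entries of absolute value at most `B` -/
def IBox (r B : ℕ) : Set (Fin r → ℤ) := {u | ∀ i, (u i).natAbs ≤ B}

theorem single_abs {r : ℕ} (a : Fin r) (s : ℤ) (i : Fin r) :
    ((Pi.single a s : Fin r → ℤ) i).natAbs = if i = a then s.natAbs else 0 := by
  by_cases h : i = a
  · subst h
    simp
  · simp [h]

section

variable {V : Type} [Field V] [CharZero V] {r B : ℕ}

/-- a function which satisfies the parallelogram law and vanishes at the unit vectors and their sums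
vanishes -/
theorem par_zero (hB : 1 ≤ B) (h : (Fin r → ℤ) → V)
    (hpar : ∀ u v, u ∈ IBox r B → v ∈ IBox r B → u + v ∈ IBox r B → u - v ∈ IBox r B →
      h (u + v) + h (u - v) = 2 * h u + 2 * h v)
    (h1 : ∀ a, h (Pi.single a 1) = 0)
    (h2 : ∀ a b, a ≠ b → h (Pi.single a 1 + Pi.single b 1) = 0) :
    ∀ u ∈ IBox r B, h u = 0 := by
  classical
  have z0 : (0 : Fin r → ℤ) ∈ IBox r B := fun i => by simp
  have h0 : h 0 = 0 := by
    have := hpar 0 0 z0 z0 (by simpa using z0) (by simpa using z0)
    simp only [add_zero, sub_zero] at this
    have e : (2 : V) * h 0 = 0 := by linear_combination -this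
    exact (mul_eq_zero.1 e).resolve_left two_ne_zero
  have heven : ∀ v ∈ IBox r B, h (-v) = h v := by
    intro v hv
    have hv' : -v ∈ IBox r B := fun i => by
      rw [Pi.neg_apply, Int.natAbs_neg]
      exact hv i
    have := hpar 0 v z0 hv (by simpa using hv) (by simpa using hv')
    simp only [zero_add, zero_sub, h0, mul_zero] at this
    linear_combination this
  -- unit vectors with signs
  have hs1 : ∀ (a : Fin r) (s : ℤ), s.natAbs = 1 → h (Pi.single a s) = 0 := by
    intro a s hs
    rcases Int.natAbs_eq s with h3 | h3
    · rw [hs] at h3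
      rw [h3]
      exact h1 a
    · rw [hs] at h3
      have e : (Pi.single a s : Fin r → ℤ) = -Pi.single a 1 := by
        rw [h3]
        simp [Pi.single_neg]
      rw [e, heven]
      · exact h1 a
      · intro i
        rw [single_abs]
        split <;> simp <;> omega
  have hs2 : ∀ (a b : Fin r) (s t : ℤ), a ≠ b → s.natAbs = 1 → t.natAbs = 1 →
      h (Pi.single a s + Pi.single b t) = 0 := by
    intro a b s t hab hs ht
    have hbox : ∀ (p q : ℤ), p.natAbs = 1 → q.natAbs = 1 →
        (Pi.single a p + Pi.single b q : Fin r → ℤ) ∈ IBox r B := by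
      intro p q hp hq i
      rw [Pi.add_apply]
      by_cases hi : i = a
      · subst hi
        simp [hab, hp, hB]
      · by_cases hi' : i = b
        · subst hi'
          simp [hi, hq, hB]
        · simp [hi, hi']
    have hpm : h (Pi.single a 1 + Pi.single b (-1)) = 0 := by
      have h4 := hpar (Pi.single a 1) (Pi.single b 1) (fun i => by
        rw [single_abs]; split <;> simp <;> omega) (fun i => by
        rw [single_abs]; split <;> simp <;> omega) (hbox 1 1 rfl rfl) (by
        have := hbox 1 (-1) rfl rfl
        rwa [Pi.single_neg, ← sub_eq_add_neg] at this)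
      rw [h1, h1, h2 a b hab] at h4
      rw [Pi.single_neg, ← sub_eq_add_neg]
      linear_combination h4
    rcases Int.natAbs_eq s with h3 | h3 <;> rcases Int.natAbs_eq t with h4 | h4 <;>
      rw [hs] at h3 <;> rw [ht] at h4 <;> subst h3 <;> subst h4
    · exact h2 a b hab
    · exact hpm
    · have e : (Pi.single a (-((1 : ℕ) : ℤ)) + Pi.single b ((1 : ℕ) : ℤ) : Fin r → ℤ) =
          -(Pi.single a 1 + Pi.single b (-1)) := by
        rw [neg_add, ← Pi.single_neg, ← Pi.single_neg]
        norm_num
      rw [e, heven _ (hbox 1 (-1) rfl rfl)]
      exact hpm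
    · have e : (Pi.single a (-((1 : ℕ) : ℤ)) + Pi.single b (-((1 : ℕ) : ℤ)) : Fin r → ℤ) =
          -(Pi.single a 1 + Pi.single b 1) := by
        rw [neg_add, ← Pi.single_neg, ← Pi.single_neg]
        norm_num
      rw [e, heven _ (hbox 1 1 rfl rfl)]
      exact h2 a b hab
  -- the induction
  have main : ∀ (n : ℕ) (u : Fin r → ℤ), u ∈ IBox r B → ∑ i, (u i).natAbs ≤ n → h u = 0 := by
    intro n
    induction n with
    | zero =>
      intro u hu hn
      have e : u = 0 := by
        funext i
        have h3 : (u i).natAbs ≤ ∑ i, (u i).natAbs :=
          Finset.single_le_sum (f := fun i => (u i).natAbs) (fun _ _ => Nat.zero_le _)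
            (Finset.mem_univ i)
        have : (u i).natAbs = 0 := by omega
        exact Int.natAbs_eq_zero.1 this
      rw [e, h0]
    | succ n ih =>
      intro u hu hn
      by_cases hA : ∃ a, 2 ≤ (u a).natAbs
      · obtain ⟨a, ha⟩ := hA
        obtain ⟨s, hs1', hs2', hs3⟩ : ∃ s : ℤ, s.natAbs = 1 ∧
            (u a - s).natAbs + 1 = (u a).natAbs ∧ (u a - s - s).natAbs + 2 = (u a).natAbs := by
          rcases Int.natAbs_eq (u a) with h3 | h3
          · exact ⟨1, rfl, by omega, by omega⟩
          · exact ⟨-1, rfl, by omega, by omega⟩
        have hv : (Pi.single a s : Fin r → ℤ) ∈ IBox r B := by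
          intro i
          rw [single_abs]
          split <;> omega
        have c1 : ∀ i, ((u - Pi.single a s : Fin r → ℤ) i).natAbs +
            ((Pi.single a s : Fin r → ℤ) i).natAbs = (u i).natAbs := by
          intro i
          rw [Pi.sub_apply]
          by_cases hi : i = a
          · subst hi
            rw [Pi.single_eq_same]
            omega
          · rw [Pi.single_eq_of_ne hi]
            simp
        have c2 : ∀ i, ((u - Pi.single a s - Pi.single a s : Fin r → ℤ) i).natAbs +
            2 * ((Pi.single a s : Fin r → ℤ) i).natAbs = (u i).natAbs := by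
          intro i
          rw [Pi.sub_apply, Pi.sub_apply]
          by_cases hi : i = a
          · subst hi
            rw [Pi.single_eq_same]
            omega
          · rw [Pi.single_eq_of_ne hi]
            simp
        have sv : ∑ i, ((Pi.single a s : Fin r → ℤ) i).natAbs = 1 := by
          rw [Finset.sum_eq_single a]
          · rw [Pi.single_eq_same, hs1']
          · intro i _ hi
            rw [Pi.single_eq_of_ne hi]
            rfl
          · intro hcon
            exact absurd (Finset.mem_univ a) hcon
        have s1 : ∑ i, ((u - Pi.single a s : Fin r → ℤ) i).natAbs + 1 = ∑ i, (u i).natAbs := by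
          rw [← sv, ← Finset.sum_add_distrib]
          exact Finset.sum_congr rfl fun i _ => c1 i
        have s2 : ∑ i, ((u - Pi.single a s - Pi.single a s : Fin r → ℤ) i).natAbs + 2 =
            ∑ i, (u i).natAbs := by
          have : 2 = ∑ i, 2 * ((Pi.single a s : Fin r → ℤ) i).natAbs := by
            rw [← Finset.mul_sum, sv, mul_one]
          rw [this, ← Finset.sum_add_distrib]
          exact Finset.sum_congr rfl fun i _ => c2 i
        have b1 : (u - Pi.single a s : Fin r → ℤ) ∈ IBox r B := fun i => by
          have := c1 i
          have := hu i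
          omega
        have b2 : (u - Pi.single a s - Pi.single a s : Fin r → ℤ) ∈ IBox r B := fun i => by
          have := c2 i
          have := hu i
          omega
        have h3 := hpar (u - Pi.single a s) (Pi.single a s) b1 hv (by
          rw [sub_add_cancel]
          exact hu) b2
        rw [sub_add_cancel, ih _ b1 (by omega), ih _ b2 (by omega), hs1 a s hs1'] at h3
        linear_combination h3
      · push Not at hA
        have hu1 : ∀ i, (u i).natAbs ≤ 1 := fun i => by
          have := hA i
          omega
        by_cases hu0 : u = 0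
        · rw [hu0, h0]
        obtain ⟨a, ha⟩ : ∃ a, u a ≠ 0 := by
          by_contra hcon
          push Not at hcon
          exact hu0 (funext hcon)
        have ha1 : (u a).natAbs = 1 := by
          have := hu1 a
          have := Int.natAbs_pos.2 ha
          omega
        obtain ⟨x, hx⟩ : ∃ x : Fin r → ℤ, x = Pi.single a (u a) := ⟨_, rfl⟩
        by_cases hw0 : u - x = 0
        · have e : u = Pi.single a (u a) := by
            rw [← hx]
            exact sub_eq_zero.1 hw0
          rw [e]
          exact hs1 a _ ha1
        obtain ⟨b, hb⟩ : ∃ b, (u - x) b ≠ 0 := by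
          by_contra hcon
          push Not at hcon
          exact hw0 (funext hcon)
        have hab : a ≠ b := by
          rintro rfl
          apply hb
          rw [hx, Pi.sub_apply, Pi.single_eq_same, sub_self]
        have hxb : x b = 0 := by
          rw [hx, Pi.single_eq_of_ne hab.symm]
        have hb1 : (u b).natAbs = 1 := by
          have := hu1 b
          have h5 : u b ≠ 0 := by
            rw [Pi.sub_apply, hxb, sub_zero] at hb
            exact hb
          have := Int.natAbs_pos.2 h5
          omega
        obtain ⟨y, hy⟩ : ∃ y : Fin r → ℤ, y = Pi.single b (u b) := ⟨_, rfl⟩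
        obtain ⟨z, hz⟩ : ∃ z : Fin r → ℤ, z = u - x - y := ⟨_, rfl⟩
        by_cases hz0 : z = 0
        · have e : u = Pi.single a (u a) + Pi.single b (u b) := by
            rw [← hx, ← hy]
            rw [hz0] at hz
            have := hz.symm
            rw [sub_sub, sub_eq_zero] at this
            exact this
          rw [e]
          exact hs2 a b _ _ hab ha1 hb1
        have hcase : ∀ i, (x i = u i ∧ y i = 0 ∧ z i = 0) ∨ (x i = 0 ∧ y i = u i ∧ z i = 0) ∨
            (x i = 0 ∧ y i = 0 ∧ z i = u i) := by
          intro i
          have ez : z i = u i - x i - y i := by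
            rw [hz, Pi.sub_apply, Pi.sub_apply]
          by_cases hi : i = a
          · left
            have e1 : x i = u i := by rw [hi, hx, Pi.single_eq_same]
            have e2 : y i = 0 := by rw [hi, hy, Pi.single_eq_of_ne hab]
            exact ⟨e1, e2, by rw [ez, e1, e2]; ring⟩
          · have e1 : x i = 0 := by rw [hx, Pi.single_eq_of_ne hi]
            by_cases hi' : i = b
            · right; left
              have e2 : y i = u i := by rw [hi', hy, Pi.single_eq_same]
              exact ⟨e1, e2, by rw [ez, e1, e2]; ring⟩
            · right; right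
              have e2 : y i = 0 := by rw [hy, Pi.single_eq_of_ne hi']
              exact ⟨e1, e2, by rw [ez, e1, e2]; ring⟩
        have hsum : ∀ i, (x i).natAbs + (y i).natAbs + (z i).natAbs = (u i).natAbs := by
          intro i
          rcases hcase i with ⟨e1, e2, e3⟩ | ⟨e1, e2, e3⟩ | ⟨e1, e2, e3⟩ <;>
            rw [e1, e2, e3] <;> simp
        have hle : ∀ i, (x i).natAbs + (y i).natAbs + (z i).natAbs ≤ B := fun i => by
          have := hsum i
          have := hu i
          omega
        have pos : ∀ w : Fin r → ℤ, w ≠ 0 → 1 ≤ ∑ i, (w i).natAbs := by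
          intro w hw
          obtain ⟨i, hi⟩ : ∃ i, w i ≠ 0 := by
            by_contra hcon
            push Not at hcon
            exact hw (funext hcon)
          have h3 : (w i).natAbs ≤ ∑ i, (w i).natAbs :=
            Finset.single_le_sum (f := fun i => (w i).natAbs) (fun _ _ => Nat.zero_le _)
              (Finset.mem_univ i)
          have := Int.natAbs_pos.2 hi
          omega
        have px : 1 ≤ ∑ i, (x i).natAbs := pos x (by
          intro hcon
          have := congrFun hcon a
          rw [hx, Pi.single_eq_same] at this
          exact ha this)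
        have py : 1 ≤ ∑ i, (y i).natAbs := pos y (by
          intro hcon
          have := congrFun hcon b
          rw [hy, Pi.single_eq_same, Pi.zero_apply] at this
          rw [this] at hb1
          simp at hb1)
        have pz : 1 ≤ ∑ i, (z i).natAbs := pos z hz0
        have tot : ∑ i, (x i).natAbs + ∑ i, (y i).natAbs + ∑ i, (z i).natAbs =
            ∑ i, (u i).natAbs := by
          rw [← Finset.sum_add_distrib, ← Finset.sum_add_distrib]
          exact Finset.sum_congr rfl fun i _ => hsum i
        have tri : ∀ w w' : Fin r → ℤ, ∑ i, ((w + w') i).natAbs ≤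
            ∑ i, (w i).natAbs + ∑ i, (w' i).natAbs := by
          intro w w'
          rw [← Finset.sum_add_distrib]
          refine Finset.sum_le_sum fun i _ => ?_
          rw [Pi.add_apply]
          exact Int.natAbs_add_le _ _
        have bx : x ∈ IBox r B := fun i => by have := hle i; omega
        have by' : y ∈ IBox r B := fun i => by have := hle i; omega
        have bz : z ∈ IBox r B := fun i => by have := hle i; omega
        have bxy : x + y ∈ IBox r B := fun i => by
          have := hle i; rw [Pi.add_apply]; omega
        have byz : y + z ∈ IBox r B := fun i => by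
          have := hle i; rw [Pi.add_apply]; omega
        have bxz : x + z ∈ IBox r B := fun i => by
          have := hle i; rw [Pi.add_apply]; omega
        have bxmz : x - z ∈ IBox r B := fun i => by
          have := hle i; rw [Pi.sub_apply]; omega
        have i1 : h (x + y + z) + h (x + y - z) = 2 * h (x + y) + 2 * h z :=
          hpar _ _ bxy bz (fun i => by
            have := hle i; rw [Pi.add_apply, Pi.add_apply]; omega) (fun i => by
            have := hle i; rw [Pi.sub_apply, Pi.add_apply]; omega)
        have i2 : h (x - z + y) + h (x - z - y) = 2 * h (x - z) + 2 * h y :=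
          hpar _ _ bxmz by' (fun i => by
            have := hle i; rw [Pi.add_apply, Pi.sub_apply]; omega) (fun i => by
            have := hle i; rw [Pi.sub_apply, Pi.sub_apply]; omega)
        have i3 : h (x + (y + z)) + h (x - (y + z)) = 2 * h x + 2 * h (y + z) :=
          hpar _ _ bx byz (fun i => by
            have := hle i; rw [Pi.add_apply, Pi.add_apply]; omega) (fun i => by
            have := hle i; rw [Pi.sub_apply, Pi.add_apply]; omega)
        have i4 : h (x + z) + h (x - z) = 2 * h x + 2 * h z := hpar _ _ bx bz bxz bxmz
        have e1 : x + y - z = x - z + y := by abel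
        have e2 : x - (y + z) = x - z - y := by abel
        have e3 : x + (y + z) = x + y + z := by abel
        rw [e1] at i1
        rw [e2, e3] at i3
        have hxyz : x + y + z = u := by
          rw [hz]
          abel
        rw [← hxyz]
        rw [ih x bx (by omega), ih (y + z) byz (by have := tri y z; omega)] at i3
        rw [ih x bx (by omega), ih z bz (by omega), ih (x + z) bxz (by
          have := tri x z; omega)] at i4
        rw [ih y by' (by omega)] at i2
        rw [ih z bz (by omega), ih (x + y) bxy (by have := tri x y; omega)] at i1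
        have e : (2 : V) * h (x + y + z) = 0 := by
          linear_combination i1 - i2 + i3 - 2 * i4
        exact (mul_eq_zero.1 e).resolve_left two_ne_zero
  exact fun u hu => main _ u hu le_rfl

/-- the coefficients of a function which satisfies the parallelogram law -/
noncomputable def beta (g : (Fin r → ℤ) → V) (a b : Fin r) : V :=
  if a = b then g (Pi.single a 1)
  else (g (Pi.single a 1 + Pi.single b 1) - g (Pi.single a 1) - g (Pi.single b 1)) / 2

theorem beta_symm (g : (Fin r → ℤ) → V) (a b : Fin r) : beta g a b = beta g b a := by
  unfold beta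
  by_cases h : a = b
  · subst h
    rfl
  · have e : (Pi.single a 1 + Pi.single b 1 : Fin r → ℤ) = Pi.single b 1 + Pi.single a 1 :=
      add_comm _ _
    rw [if_neg h, if_neg (Ne.symm h), e]
    ring

/-- **a function which satisfies the parallelogram law is quadratic** -/
theorem par_quad (hB : 1 ≤ B) (g : (Fin r → ℤ) → V)
    (hpar : ∀ u v, u ∈ IBox r B → v ∈ IBox r B → u + v ∈ IBox r B → u - v ∈ IBox r B →
      g (u + v) + g (u - v) = 2 * g u + 2 * g v) :
    ∀ u ∈ IBox r B, g u = ∑ a, ∑ b, beta g a b * ((u a : V) * (u b : V)) := by
  classical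
  obtain ⟨Q, hQ⟩ : ∃ Q : (Fin r → ℤ) → V, ∀ u, Q u =
      ∑ a, ∑ b, beta g a b * ((u a : V) * (u b : V)) := ⟨_, fun _ => rfl⟩
  have hQpar : ∀ u v, Q (u + v) + Q (u - v) = 2 * Q u + 2 * Q v := by
    intro u v
    rw [hQ, hQ, hQ, hQ, Finset.mul_sum, Finset.mul_sum, ← Finset.sum_add_distrib,
      ← Finset.sum_add_distrib]
    refine Finset.sum_congr rfl fun a _ => ?_
    rw [Finset.mul_sum, Finset.mul_sum, ← Finset.sum_add_distrib, ← Finset.sum_add_distrib]
    refine Finset.sum_congr rfl fun b _ => ?_
    rw [Pi.add_apply, Pi.add_apply, Pi.sub_apply, Pi.sub_apply]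
    push_cast
    ring
  have hQ1 : ∀ a, Q (Pi.single a 1) = g (Pi.single a 1) := by
    intro a
    rw [hQ, Finset.sum_eq_single a, Finset.sum_eq_single a]
    · rw [Pi.single_eq_same]
      unfold beta
      rw [if_pos rfl]
      push_cast
      ring
    · intro b _ hb
      rw [Pi.single_eq_of_ne hb]
      push_cast
      ring
    · intro hcon
      exact absurd (Finset.mem_univ a) hcon
    · intro b _ hb
      refine Finset.sum_eq_zero fun c _ => ?_
      rw [Pi.single_eq_of_ne hb]
      push_cast
      ring
    · intro hcon
      exact absurd (Finset.mem_univ a) hcon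
  have hQ2 : ∀ a b, a ≠ b → Q (Pi.single a 1 + Pi.single b 1) =
      g (Pi.single a 1 + Pi.single b 1) := by
    intro a b hab
    have e : Q (Pi.single a 1 + Pi.single b 1) = Q (Pi.single a 1) + Q (Pi.single b 1) +
        2 * beta g a b := by
      have e1 : ∑ c, ∑ d, beta g c d * ((((Pi.single a 1 : Fin r → ℤ) c : ℤ) : V) *
          (((Pi.single b 1 : Fin r → ℤ) d : ℤ) : V)) = beta g a b := by
        rw [Finset.sum_eq_single a, Finset.sum_eq_single b]
        · rw [Pi.single_eq_same, Pi.single_eq_same]
          push_cast
          ring
        · intro c _ hc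
          rw [Pi.single_eq_of_ne hc]
          push_cast
          ring
        · intro hcon
          exact absurd (Finset.mem_univ b) hcon
        · intro c _ hc
          refine Finset.sum_eq_zero fun d _ => ?_
          rw [Pi.single_eq_of_ne hc]
          push_cast
          ring
        · intro hcon
          exact absurd (Finset.mem_univ a) hcon
      have e2 : ∑ c, ∑ d, beta g c d * ((((Pi.single b 1 : Fin r → ℤ) c : ℤ) : V) *
          (((Pi.single a 1 : Fin r → ℤ) d : ℤ) : V)) = beta g a b := by
        rw [← e1, Finset.sum_comm]
        refine Finset.sum_congr rfl fun c _ => Finset.sum_congr rfl fun d _ => ?_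
        rw [beta_symm g d c]
        ring
      have e3 : 2 * beta g a b = beta g a b + beta g a b := by ring
      rw [e3]
      nth_rewrite 1 [← e1]
      rw [← e2, hQ, hQ, hQ, ← Finset.sum_add_distrib, ← Finset.sum_add_distrib,
        ← Finset.sum_add_distrib]
      refine Finset.sum_congr rfl fun c _ => ?_
      rw [← Finset.sum_add_distrib, ← Finset.sum_add_distrib, ← Finset.sum_add_distrib]
      refine Finset.sum_congr rfl fun d _ => ?_
      rw [Pi.add_apply, Pi.add_apply]
      push_cast
      ring
    rw [e, hQ1, hQ1]
    unfold beta
    rw [if_neg hab]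
    ring
  intro u hu
  rw [← hQ]
  have := par_zero hB (fun u => g u - Q u) (fun u v hu hv huv hu' => by
    have h3 := hpar u v hu hv huv hu'
    have h4 := hQpar u v
    linear_combination h3 - h4) (fun a => by
    rw [hQ1, sub_self]) (fun a b hab => by
    rw [hQ2 a b hab, sub_self]) u hu
  exact sub_eq_zero.1 this

/-- the mixed coefficients -/
theorem beta_diff (hB : 2 ≤ B) (g : (Fin r → ℤ) → V)
    (hpar : ∀ u v, u ∈ IBox r B → v ∈ IBox r B → u + v ∈ IBox r B → u - v ∈ IBox r B →
      g (u + v) + g (u - v) = 2 * g u + 2 * g v) (a b : Fin r) :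
    g (Pi.single a 1 + Pi.single b 1) - g (Pi.single a 1 - Pi.single b 1) = 4 * beta g a b := by
  classical
  have bs : ∀ a : Fin r, (Pi.single a 1 : Fin r → ℤ) ∈ IBox r B := by
    intro a i
    rw [single_abs]
    split <;> simp <;> omega
  have b1 : (Pi.single a 1 + Pi.single b 1 : Fin r → ℤ) ∈ IBox r B := by
    intro i
    rw [Pi.add_apply]
    have h1 := single_abs a 1 i
    have h2 := single_abs b 1 i
    have := Int.natAbs_add_le ((Pi.single a 1 : Fin r → ℤ) i) ((Pi.single b 1 : Fin r → ℤ) i)
    split at h1 <;> split at h2 <;> simp at h1 h2 <;> omega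
  have b2 : (Pi.single a 1 - Pi.single b 1 : Fin r → ℤ) ∈ IBox r B := by
    intro i
    rw [Pi.sub_apply]
    have h1 := single_abs a 1 i
    have h2 := single_abs b 1 i
    have := Int.natAbs_sub_le ((Pi.single a 1 : Fin r → ℤ) i) ((Pi.single b 1 : Fin r → ℤ) i)
    split at h1 <;> split at h2 <;> simp at h1 h2 <;> omega
  have h3 := hpar _ _ (bs a) (bs b) b1 b2
  by_cases hab : a = b
  · subst hab
    have z0 : (0 : Fin r → ℤ) ∈ IBox r B := fun i => by simp
    have h0 : g 0 = 0 := by
      have := hpar 0 0 z0 z0 (by simpa using z0) (by simpa using z0)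
      simp only [add_zero, sub_zero] at this
      have e : (2 : V) * g 0 = 0 := by linear_combination -this
      exact (mul_eq_zero.1 e).resolve_left two_ne_zero
    rw [sub_self, h0] at h3 ⊢
    unfold beta
    rw [if_pos rfl]
    linear_combination h3
  · unfold beta
    rw [if_neg hab]
    linear_combination -h3

end

end Pool.Agent.H441.FT
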