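import Pool.Agent.H441.FT.Emb

/-!
Entire curves and rational points of projective varieties and of their embeddings.
-/

set_option autoImplicit false

namespace Pool.Agent.H441.FT

open MvPolynomial
open Pool.Agent.N254.SQ hiding Extends lin
open Pool.Agent.H441.DF (fibre_finite)
open Pool.Agent.H441.DQ (dform dform_hom)
open Pool.Agent.H441.UA (FEmb vals)
open scoped LinearAlgebra.Projectivization

/-- all nonconstant entire curves in `V(F)` lie in `V(G)` -/
def CurvesIn {K : Type} [Field K] {ι γ : Type} {n : ℕ} (σ : K →+* ℂ)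
    (F : ι → MvPolynomial (Fin (n + 1)) K) (G : γ → MvPolynomial (Fin (n + 1)) K) : Prop :=
  ∀ f : ℂ → Fin (n + 1) → ℂ, Differentiable ℂ f → (∀ z, f z ≠ 0) →
    (∀ z i, eval₂ σ (f z) (F i) = 0) → (∃ z w, ∀ c : ℂ, f w ≠ c • f z) →
    ∀ z l, eval₂ σ (f z) (G l) = 0

/-- `(V(F) ∖ V(G))(L)` is finite for all number fields `L` over `K` -/
def PointsIn {K : Type} [Field K] {ι γ : Type} {n : ℕ}
    (F : ι → MvPolynomial (Fin (n + 1)) K) (G : γ → MvPolynomial (Fin (n + 1)) K) : Prop :=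
  ∀ (L : Type) [Field L] [NumberField L] [Algebra K L],
    {P : ℙ L (Fin (n + 1) → L) | (∀ i, eval₂ (algebraMap K L) P.rep (F i) = 0) ∧
      ¬ ∀ l, eval₂ (algebraMap K L) P.rep (G l) = 0}.Finite

/-- the coordinates as forms -/
noncomputable def coord (R : Type) [CommRing R] {N : ℕ} (I : Set (Fin (N + 1))) :
    I → MvPolynomial (Fin (N + 1)) R := fun i => X (i : Fin (N + 1))

section

variable {K : Type} [Field K] {m n N k : ℕ} {ι κ γ : Type}
  {F : ι → MvPolynomial (Fin (n + 1)) K} {T : κ → MvPolynomial (Fin (n + 1)) K}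
  {G : γ → MvPolynomial (Fin (n + 1)) K} {φ : Fin (N + 1) → MvPolynomial (Fin (n + 1)) K}
  {c : Fin k → Fin (N + 1) → K} {I J : Set (Fin (N + 1))}

theorem vals_smul (hE : FEmb m F T G φ c I J) : ∃ e : ℕ, ∀ (Ω : Type) [Field Ω] (τ : K →+* Ω)
    (x : Fin (n + 1) → Ω) (s : Ω), vals τ φ (s • x) = s ^ e • vals τ φ x := by
  obtain ⟨e, -, hφ, -⟩ := hE.mono
  refine ⟨e, fun Ω _ τ x s => funext fun j => ?_⟩
  rw [Pi.smul_apply, smul_eq_mul]
  exact eval₂_scale τ (hφ j) s x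

theorem vals_diff (σ : K →+* ℂ) (φ : Fin (N + 1) → MvPolynomial (Fin (n + 1)) K)
    {f : ℂ → Fin (n + 1) → ℂ} (hf : Differentiable ℂ f) :
    Differentiable ℂ fun z => vals σ φ (f z) := by
  rw [differentiable_pi]
  intro j
  have h1 : Differentiable ℂ fun x => eval x (map σ (φ j)) := by
    have := (AnalyticOnNhd.eval_mvPolynomial (map σ (φ j))).differentiableOn (𝕜 := ℂ)
    exact differentiableOn_univ.1 this
  have h2 := h1.comp hf
  have e1 : (fun z => vals σ φ (f z) j) = (fun x => eval x (map σ (φ j))) ∘ f := by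
    funext z
    rw [Function.comp_apply, eval_map]
    rfl
  rw [e1]
  exact h2

/-- the curves -/
theorem curves_to (hE : FEmb m F T G φ c I J) (σ : K →+* ℂ) (h : CurvesIn σ F G) :
    CurvesIn σ (fun i => dform m (c i)) (coord K J) := by
  obtain ⟨e, hsm⟩ := vals_smul hE
  intro f hf hf0 hfX hnc
  obtain ⟨ζ, x, hζ, hxd, hx0, hxF, hfx⟩ := hE.curves σ f hf hf0 hfX hnc
  obtain ⟨z₀, w₀, hnc⟩ := hnc
  have h1 := h x hxd hx0 hxF ⟨z₀, w₀, fun b hb => hnc (b ^ e) (funext fun j => by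
      rw [hfx, hb, hsm, Pi.smul_apply, Pi.smul_apply, smul_eq_mul, smul_eq_mul, hfx]
      ring)⟩
  intro z j
  unfold coord
  rw [eval₂_X, hfx, (hE.onG ℂ σ (x z) (hx0 z)).2 (h1 z) j j.2, mul_zero]

theorem curves_of (hE : FEmb m F T G φ c I J) (σ : K →+* ℂ)
    (h : CurvesIn σ (fun i => dform m (c i)) (coord K J)) : CurvesIn σ F G := by
  rintro f hf hf0 hfF ⟨z₀, w₀, hnc⟩ z
  have h1 := h (fun z => vals σ φ (f z)) (vals_diff σ φ hf) (fun z => hE.ne ℂ σ (f z) (hf0 z))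
    (fun z => (hE.pts ℂ σ (f z) (hf0 z)).1 (hfF z)) ⟨z₀, w₀, fun b hb => by
        obtain ⟨t, ht⟩ := hE.inj ℂ σ _ _ b (hf0 w₀) hb
        exact hnc t ht⟩ z
  refine (hE.onG ℂ σ (f z) (hf0 z)).1 fun j hj => ?_
  have h2 := h1 ⟨j, hj⟩
  unfold coord at h2
  rwa [eval₂_X] at h2

/-- the map of the points -/
noncomputable def phi (hE : FEmb m F T G φ c I J) {L : Type} [Field L] [Algebra K L]
    (P : ℙ L (Fin (n + 1) → L)) : ℙ L (Fin (N + 1) → L) :=
  Projectivization.mk L (vals (algebraMap K L) φ P.rep) (hE.ne L _ _ P.rep_nonzero)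

theorem phi_inj (hE : FEmb m F T G φ c I J) {L : Type} [Field L] [Algebra K L] :
    Function.Injective (phi hE : ℙ L (Fin (n + 1) → L) → ℙ L (Fin (N + 1) → L)) := by
  intro P P' h
  unfold phi at h
  rw [Projectivization.mk_eq_mk_iff'] at h
  obtain ⟨c, hc⟩ := h
  obtain ⟨c', hc'⟩ := hE.inj L _ _ _ c P.rep_nonzero hc.symm
  rw [← P.mk_rep, ← P'.mk_rep, Projectivization.mk_eq_mk_iff']
  exact ⟨c', hc'.symm⟩

theorem phi_rep (hE : FEmb m F T G φ c I J) {L : Type} [Field L] [Algebra K L]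
    (P : ℙ L (Fin (n + 1) → L)) : ∃ u : L, u ≠ 0 ∧
      (phi hE P).rep = u • vals (algebraMap K L) φ P.rep := by
  obtain ⟨u, hu⟩ := Projectivization.exists_smul_eq_mk_rep L (vals (algebraMap K L) φ P.rep)
    (hE.ne L _ _ P.rep_nonzero)
  exact ⟨u, u.ne_zero, hu.symm⟩

/-- points of `V` are points of `X` -/
theorem points_of (hE : FEmb m F T G φ c I J)
    (h : PointsIn (fun i => dform m (c i)) (coord K J)) : PointsIn F G := by
  intro L _ _ _
  refine Set.Finite.of_finite_image ((h L).subset ?_) (phi_inj hE).injOn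
  rintro _ ⟨P, ⟨hPF, hPG⟩, rfl⟩
  obtain ⟨u, hu0, hu⟩ := phi_rep hE P
  refine ⟨fun i => ?_, fun hq => hPG ?_⟩
  · rw [hu, eval₂_scale (algebraMap K L) (dform_hom _),
      (hE.pts L _ _ P.rep_nonzero).1 hPF i, mul_zero]
  · refine (hE.onG L _ _ P.rep_nonzero).1 fun j hj => ?_
    have h2 := hq ⟨j, hj⟩
    unfold coord at h2
    rw [eval₂_X, hu, Pi.smul_apply, smul_eq_mul] at h2
    exact (mul_eq_zero.1 h2).resolve_left hu0

/-- points of `X` in the copies of `V` -/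
theorem points_to (hm : 2 ≤ m) (hE : FEmb m F T G φ c I J)
    (hF : ∀ i, ∃ e, (F i).IsHomogeneous e) {κ₁ : Type}
    {Z : κ₁ → MvPolynomial (Fin (N + 1)) K}
    (hZ : ∀ (Ω : Type) [Field Ω] (τ : K →+* Ω) (y : Fin (N + 1) → Ω), y ≠ 0 →
      (∀ i, eval₂ τ y (dform m (c i)) = 0) → (∀ s, eval₂ τ y (Z s) = 0) →
      ∃ (x : Fin (n + 1) → Ω) (t : Ω), x ≠ 0 ∧ t ≠ 0 ∧ (∀ i, eval₂ τ x (F i) = 0) ∧
        ∀ j, y j ^ m = t * vals τ φ x j ^ m)
    (h1 : PointsIn (fun i => dform m (c i)) Z) (h : PointsIn F G) :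
    PointsIn (fun i => dform m (c i)) (coord K J) := by
  intro L _ _ _
  obtain ⟨e, hsm⟩ := vals_smul hE
  refine ((h1 L).union ((h L).biUnion fun P' _ =>
    fibre_finite hm (fun j => vals (algebraMap K L) φ P'.rep j ^ m))).subset ?_
  rintro P ⟨hPX, hPJ⟩
  by_cases hP1 : ∀ s, eval₂ (algebraMap K L) P.rep (Z s) = 0
  · right
    obtain ⟨x, t, hx0, ht, hxF, hyx⟩ := hZ L (algebraMap K L) P.rep P.rep_nonzero hPX hP1
    obtain ⟨u, hu⟩ := Projectivization.exists_smul_eq_mk_rep L x hx0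
    have hu' : (Projectivization.mk L x hx0).rep = (u : L) • x := hu.symm
    have hu0 : (u : L) ≠ 0 := u.ne_zero
    rw [Set.mem_iUnion₂]
    have hy' : ∀ j, P.rep j ^ m = t * ((u : L)⁻¹ ^ e) ^ m *
        vals (algebraMap K L) φ (Projectivization.mk L x hx0).rep j ^ m := by
      intro j
      rw [hyx j, hu', hsm, Pi.smul_apply, smul_eq_mul, mul_pow]
      have h6 : ((u : L)⁻¹ ^ e) ^ m * ((u : L) ^ e) ^ m = 1 := by
        rw [← mul_pow, ← mul_pow, inv_mul_cancel₀ hu0, one_pow, one_pow]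
      linear_combination (-(t * vals (algebraMap K L) φ x j ^ m)) * h6
    have ht' : t * ((u : L)⁻¹ ^ e) ^ m ≠ 0 :=
      mul_ne_zero ht (pow_ne_zero _ (pow_ne_zero _ (inv_ne_zero hu0)))
    have hrep := (Projectivization.mk L x hx0).rep_nonzero
    have hz : ∀ j, vals (algebraMap K L) φ (Projectivization.mk L x hx0).rep j = 0 →
        P.rep j = 0 := by
      intro j h0
      have h3 := hy' j
      rw [h0, zero_pow (by omega), mul_zero] at h3
      exact eq_zero_of_pow_eq_zero h3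
    refine ⟨Projectivization.mk L x hx0, ⟨?_, fun hxG => hPJ ?_⟩, _, ht', hy'⟩
    · intro i
      obtain ⟨d, hd⟩ := hF i
      rw [hu', eval₂_scale (algebraMap K L) hd, hxF i, mul_zero]
    · intro j
      unfold coord
      rw [eval₂_X]
      exact hz j ((hE.onG L (algebraMap K L) _ hrep).2 hxG j j.2)
  · left
    exact ⟨hPX, hP1⟩

end

end Pool.Agent.H441.FT
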