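import Pool.Agent.H441.FT.Par
import Pool.Agent.H441.DQ.Emb

/-!
The relations between the squares of linear forms are generated by relations with at most four terms.
-/

set_option autoImplicit false

namespace Pool.Agent.H441.FT

open MvPolynomial
open Pool.Agent.H441.DQ (linK linK_hom comb comb_apply comb_single rel mem_rel dform)
open Pool.Agent.H441.DF (mult)

section

set_option linter.unusedSectionVars false

variable {K : Type} [Field K] [CharZero K] {M N r B : ℕ}

/-- the coefficients of `y_p ^ 2 + y_q ^ 2 - 2 (y_s ^ 2 + y_t ^ 2)` -/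
noncomputable def row (K : Type) [Field K] {N : ℕ} (p q s t : Fin (N + 1)) : Fin (N + 1) → K :=
  Pi.single p 1 + Pi.single q 1 - (2 : K) • (Pi.single s 1 + Pi.single t 1)

theorem dform_add (m : ℕ) (c c' : Fin (N + 1) → K) :
    dform m (c + c') = dform m c + dform m c' := by
  unfold dform
  rw [← Finset.sum_add_distrib]
  refine Finset.sum_congr rfl fun j _ => ?_
  rw [Pi.add_apply, C_add, add_mul]

theorem dform_smul (m : ℕ) (x : K) (c : Fin (N + 1) → K) :
    dform m (x • c) = C x * dform m c := by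
  unfold dform
  rw [Finset.mul_sum]
  refine Finset.sum_congr rfl fun j _ => ?_
  rw [Pi.smul_apply, smul_eq_mul, C_mul, mul_assoc]

theorem dform_single (m : ℕ) (p : Fin (N + 1)) :
    dform m (Pi.single p 1 : Fin (N + 1) → K) = X p ^ m := by
  unfold dform
  rw [Finset.sum_eq_single p]
  · rw [Pi.single_eq_same, C_1, one_mul]
  · intro b _ hb
    rw [Pi.single_eq_of_ne hb, C_0, zero_mul]
  · intro h
    exact absurd (Finset.mem_univ p) h

theorem dform_row (p q s t : Fin (N + 1)) :
    dform 2 (row K p q s t) = X p ^ 2 + X q ^ 2 - 2 * (X s ^ 2 + X t ^ 2) := by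
  unfold row
  rw [sub_eq_add_neg, ← neg_smul, dform_add, dform_smul, dform_add, dform_add, dform_single,
    dform_single, dform_single, dform_single]
  have : (C (-2 : K) : MvPolynomial (Fin (N + 1)) K) = -2 := by
    rw [C_neg]
    rfl
  rw [this]
  ring

theorem comb_row (A : Fin (N + 1) → Fin (M + 1) → K) (p q s t : Fin (N + 1)) :
    comb 2 A (row K p q s t) = linK (A p) ^ 2 + linK (A q) ^ 2 -
      (2 : K) • (linK (A s) ^ 2 + linK (A t) ^ 2) := by
  unfold row
  rw [map_sub, map_smul, map_add, map_add, comb_single, comb_single, comb_single, comb_single]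

/-- the vector of an integral vector -/
noncomputable def vecs (l : Fin r → Fin (M + 1)) (t : Fin r → K) (u : Fin r → ℤ) :
    Fin (M + 1) → K := fun i => ∑ s, if l s = i then (u s : K) * t s else 0

theorem vecs_add (l : Fin r → Fin (M + 1)) (t : Fin r → K) (u v : Fin r → ℤ) :
    vecs l t (u + v) = vecs l t u + vecs l t v := by
  funext i
  rw [Pi.add_apply]
  unfold vecs
  rw [← Finset.sum_add_distrib]
  refine Finset.sum_congr rfl fun s _ => ?_
  split
  · rw [Pi.add_apply]
    push_cast
    ring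
  · rw [add_zero]

theorem vecs_sub (l : Fin r → Fin (M + 1)) (t : Fin r → K) (u v : Fin r → ℤ) :
    vecs l t (u - v) = vecs l t u - vecs l t v := by
  rw [eq_sub_iff_add_eq, ← vecs_add, sub_add_cancel]

theorem vecs_single (l : Fin r → Fin (M + 1)) (t : Fin r → K) (s : Fin r) :
    vecs l t (Pi.single s 1) = Pi.single (l s) (t s) := by
  classical
  funext i
  unfold vecs
  rw [Finset.sum_eq_single s]
  · by_cases h : l s = i
    · subst h
      rw [if_pos rfl, Pi.single_eq_same, Pi.single_eq_same]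
      push_cast
      ring
    · rw [if_neg h, Pi.single_eq_of_ne (Ne.symm h)]
  · intro b _ hb
    rw [Pi.single_eq_of_ne hb]
    split
    · push_cast
      ring
    · rfl
  · intro h
    exact absurd (Finset.mem_univ s) h

theorem linK_add (A A' : Fin (M + 1) → K) : linK (A + A') = linK A + linK A' := by
  unfold linK
  rw [← Finset.sum_add_distrib]
  refine Finset.sum_congr rfl fun i _ => ?_
  rw [Pi.add_apply, add_smul]

theorem linK_smul (x : K) (A : Fin (M + 1) → K) : linK (x • A) = x • linK A := by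
  unfold linK
  rw [Finset.smul_sum]
  refine Finset.sum_congr rfl fun i _ => ?_
  rw [Pi.smul_apply, smul_assoc]

theorem linK_sub (A A' : Fin (M + 1) → K) : linK (A - A') = linK A - linK A' := by
  rw [sub_eq_add_neg, linK_add, ← neg_one_smul K A', linK_smul, neg_one_smul, sub_eq_add_neg]

theorem linK_single (i : Fin (M + 1)) (x : K) : linK (Pi.single i x) = x • X i := by
  unfold linK
  rw [Finset.sum_eq_single i]
  · rw [Pi.single_eq_same]
  · intro b _ hb
    rw [Pi.single_eq_of_ne hb, zero_smul]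
  · intro h
    exact absurd (Finset.mem_univ i) h

/-- the functional with the values `γ` -/
noncomputable def Lam (γ : Fin (M + 1) → Fin (M + 1) → K) :
    MvPolynomial (Fin (M + 1)) K →ₗ[K] K :=
  ∑ a, ∑ b, (γ a b / 2) •
    ((lcoeff K (0 : Fin (M + 1) →₀ ℕ)).comp ((pderiv a).toLinearMap.comp (pderiv b).toLinearMap))

theorem pderiv_linK (A : Fin (M + 1) → K) (b : Fin (M + 1)) : pderiv b (linK A) = C (A b) := by
  unfold linK
  rw [map_sum, Finset.sum_eq_single b]
  · rw [Derivation.map_smul, pderiv_X_self, smul_eq_C_mul, mul_one]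
  · intro i _ hi
    rw [Derivation.map_smul, pderiv_X_of_ne hi, smul_zero]
  · intro h
    exact absurd (Finset.mem_univ b) h

theorem Lam_sq (γ : Fin (M + 1) → Fin (M + 1) → K) (A : Fin (M + 1) → K) :
    Lam γ (linK A ^ 2) = ∑ a, ∑ b, γ a b * (A a * A b) := by
  unfold Lam
  rw [LinearMap.sum_apply]
  refine Finset.sum_congr rfl fun a _ => ?_
  rw [LinearMap.sum_apply]
  refine Finset.sum_congr rfl fun b _ => ?_
  rw [LinearMap.smul_apply, LinearMap.comp_apply, LinearMap.comp_apply]
  have e1 : (pderiv b).toLinearMap (linK A ^ 2) = (2 * A b) • linK A := by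
    change pderiv b (linK A ^ 2) = _
    rw [Derivation.leibniz_pow, pderiv_linK, smul_eq_mul, smul_eq_C_mul, C_mul]
    simp only [Nat.add_one_sub_one, pow_one, nsmul_eq_mul, Nat.cast_ofNat]
    have : (C (2 : K) : MvPolynomial (Fin (M + 1)) K) = 2 := rfl
    rw [this]
    ring
  have e2 : (pderiv a).toLinearMap ((2 * A b) • linK A) = C (2 * A b * A a) := by
    change pderiv a ((2 * A b) • linK A) = _
    rw [Derivation.map_smul, pderiv_linK, smul_eq_C_mul, ← C_mul]
  rw [e1, e2, lcoeff_apply, coeff_zero_C, smul_eq_mul]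
  ring

theorem sum_fib {f : Fin (M + 1) → K} (l : Fin r → Fin (M + 1)) (x : Fin r → K) :
    ∑ i, f i * (∑ s, if l s = i then x s else 0) = ∑ s, f (l s) * x s := by
  classical
  simp only [Finset.mul_sum]
  rw [Finset.sum_comm]
  refine Finset.sum_congr rfl fun s _ => ?_
  rw [Finset.sum_eq_single (l s)]
  · rw [if_pos rfl]
  · intro i _ hi
    rw [if_neg (Ne.symm hi), mul_zero]
  · intro h
    exact absurd (Finset.mem_univ _) h

theorem sum_vecs (γ : Fin (M + 1) → Fin (M + 1) → K) (l : Fin r → Fin (M + 1)) (t : Fin r → K)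
    (u : Fin r → ℤ) : ∑ a, ∑ b, γ a b * (vecs l t u a * vecs l t u b) =
      ∑ s, ∑ s', γ (l s) (l s') * (t s * t s') * ((u s : K) * (u s' : K)) := by
  unfold vecs
  have e1 : ∀ a, ∑ b, γ a b * ((∑ s, if l s = a then (u s : K) * t s else 0) *
      (∑ s, if l s = b then (u s : K) * t s else 0)) =
      (∑ s', γ a (l s') * ((u s' : K) * t s')) *
        (∑ s, if l s = a then (u s : K) * t s else 0) := by
    intro a
    rw [← sum_fib (f := γ a) l fun s => (u s : K) * t s, Finset.sum_mul]
    refine Finset.sum_congr rfl fun b _ => ?_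
    ring
  rw [Finset.sum_congr rfl fun a _ => e1 a, sum_fib (f := fun a =>
    ∑ s', γ a (l s') * ((u s' : K) * t s')) l fun s => (u s : K) * t s]
  refine Finset.sum_congr rfl fun s _ => ?_
  rw [Finset.sum_mul]
  refine Finset.sum_congr rfl fun s' _ => ?_
  ring

/-- the vector of a relation with at most four terms -/
noncomputable def tvec (idx : (Fin r → ℤ) → Fin (N + 1)) (l : Fin r → Fin (M + 1)) (t : Fin r → K)
    (s₀ : Fin (M + 1) → Fin r) (s s' : Fin r) : Fin (N + 1) → K :=
  Pi.single (idx (Pi.single s 1 + Pi.single s' 1)) 1 -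
    Pi.single (idx (Pi.single s 1 - Pi.single s' 1)) 1 -
    (t s * t s') • (Pi.single (idx (Pi.single (s₀ (l s)) 1 + Pi.single (s₀ (l s')) 1)) 1 -
      Pi.single (idx (Pi.single (s₀ (l s)) 1 - Pi.single (s₀ (l s')) 1)) 1)

theorem box_pm {r B : ℕ} (hB : 2 ≤ B) (a b : Fin r) :
    (Pi.single a 1 + Pi.single b 1 : Fin r → ℤ) ∈ IBox r B ∧
      (Pi.single a 1 - Pi.single b 1 : Fin r → ℤ) ∈ IBox r B := by
  constructor
  · intro i
    rw [Pi.add_apply]
    have h1 := single_abs a 1 i
    have h2 := single_abs b 1 i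
    have := Int.natAbs_add_le ((Pi.single a 1 : Fin r → ℤ) i) ((Pi.single b 1 : Fin r → ℤ) i)
    split at h1 <;> split at h2 <;> simp at h1 h2 <;> omega
  · intro i
    rw [Pi.sub_apply]
    have h1 := single_abs a 1 i
    have h2 := single_abs b 1 i
    have := Int.natAbs_sub_le ((Pi.single a 1 : Fin r → ℤ) i) ((Pi.single b 1 : Fin r → ℤ) i)
    split at h1 <;> split at h2 <;> simp at h1 h2 <;> omega

variable {l : Fin r → Fin (M + 1)} {t : Fin r → K} {s₀ : Fin (M + 1) → Fin r}
  {a : Fin (N + 1) → Fin r → ℤ} {idx : (Fin r → ℤ) → Fin (N + 1)}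

theorem comb_tvec (hs : ∀ i, l (s₀ i) = i ∧ t (s₀ i) = 1)
    (hidx : ∀ u ∈ IBox r B, a (idx u) = u) (hB : 2 ≤ B) (s s' : Fin r) :
    comb 2 (fun j => vecs l t (a j)) (tvec idx l t s₀ s s') = 0 := by
  unfold tvec
  rw [map_sub, map_sub, map_smul, map_sub, comb_single, comb_single, comb_single, comb_single,
    hidx _ (box_pm hB s s').1, hidx _ (box_pm hB s s').2,
    hidx _ (box_pm hB (s₀ (l s)) (s₀ (l s'))).1, hidx _ (box_pm hB (s₀ (l s)) (s₀ (l s'))).2]
  simp only [vecs_add, vecs_sub, vecs_single, linK_add, linK_sub, linK_single, (hs _).1, (hs _).2,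
    one_smul, smul_eq_C_mul, C_mul]
  ring

theorem mem_rel_of_zero {ι : Type} {A : Fin (N + 1) → Fin (M + 1) → K}
    {q : ι → MvPolynomial (Fin (M + 1)) K} {c : Fin (N + 1) → K} (h : comb 2 A c = 0) :
    c ∈ rel 2 A q := by
  rw [mem_rel, h]
  exact Submodule.zero_mem _

theorem comb_par (hidx : ∀ u ∈ IBox r B, a (idx u) = u) {u v : Fin r → ℤ} (hu : u ∈ IBox r B)
    (hv : v ∈ IBox r B) (h1 : u + v ∈ IBox r B) (h2 : u - v ∈ IBox r B) :
    comb 2 (fun j => vecs l t (a j)) (row K (idx (u + v)) (idx (u - v)) (idx u) (idx v)) = 0 := by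
  rw [comb_row, hidx _ h1, hidx _ h2, hidx _ hu, hidx _ hv, vecs_add, vecs_sub, linK_add,
    linK_sub, smul_eq_C_mul]
  have : (C (2 : K) : MvPolynomial (Fin (M + 1)) K) = 2 := rfl
  rw [this]
  ring

/-- **The relations are generated by the relations with at most four terms.** -/
theorem span_rows (hs : ∀ i, l (s₀ i) = i ∧ t (s₀ i) = 1)
    (hidx : ∀ u ∈ IBox r B, a (idx u) = u) (hidx' : ∀ j, idx (a j) = j)
    (hab : ∀ j, a j ∈ IBox r B) (hB : 2 ≤ B) {ι : Type} {q : ι → MvPolynomial (Fin (M + 1)) K}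
    (hq : ∀ i, ∃ (c : Fin (N + 1) → K) (x : K), (∃ p p' p'' p''', c = row K p p' p'' p''') ∧
      x ≠ 0 ∧ comb 2 (fun j => vecs l t (a j)) c = x • q i) :
    Submodule.span K ({c | (∃ p p' p'' p''', c = row K p p' p'' p''') ∧
      c ∈ rel 2 (fun j => vecs l t (a j)) q} ∪ Set.range fun s : Fin r × Fin r =>
        tvec idx l t s₀ s.1 s.2) = rel 2 (fun j => vecs l t (a j)) q := by
  classical
  apply le_antisymm
  · rw [Submodule.span_le]
    rintro c (⟨-, hc⟩ | ⟨⟨s, s'⟩, rfl⟩)
    · exact hc
    · exact mem_rel_of_zero (comb_tvec hs hidx hB s s')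
  · intro c hc
    by_contra hcon
    obtain ⟨ψ, hψ, hker⟩ := Submodule.exists_le_ker_of_notMem hcon
    apply hψ
    rw [Submodule.span_le] at hker
    obtain ⟨g, hg⟩ : ∃ g : (Fin r → ℤ) → K, ∀ u, g u = ψ (Pi.single (idx u) 1) := ⟨_, fun _ => rfl⟩
    have hpar : ∀ u v, u ∈ IBox r B → v ∈ IBox r B → u + v ∈ IBox r B → u - v ∈ IBox r B →
        g (u + v) + g (u - v) = 2 * g u + 2 * g v := by
      intro u v hu hv h1 h2
      have h3 : ψ (row K (idx (u + v)) (idx (u - v)) (idx u) (idx v)) = 0 :=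
        hker (Or.inl ⟨⟨_, _, _, _, rfl⟩, mem_rel_of_zero (comb_par hidx hu hv h1 h2)⟩)
      unfold row at h3
      rw [map_sub, map_smul, map_add, map_add, ← hg, ← hg, ← hg, ← hg, smul_eq_mul] at h3
      linear_combination h3
    have hquad := par_quad (by omega) g hpar
    have hbeta : ∀ s s', beta g s s' =
        beta g (s₀ (l s)) (s₀ (l s')) * (t s * t s') := by
      intro s s'
      have h3 : ψ (tvec idx l t s₀ s s') = 0 := hker (Or.inr ⟨(s, s'), rfl⟩)
      unfold tvec at h3
      rw [map_sub, map_sub, map_smul, map_sub, ← hg, ← hg, ← hg, ← hg,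
        beta_diff hB g hpar, beta_diff hB g hpar, smul_eq_mul] at h3
      have h4 : (4 : K) * (beta g s s' - beta g (s₀ (l s)) (s₀ (l s')) * (t s * t s')) = 0 := by
        linear_combination h3
      have h5 := (mul_eq_zero.1 h4).resolve_left (by norm_num)
      exact sub_eq_zero.1 h5
    obtain ⟨γ, hγ⟩ : ∃ γ : Fin (M + 1) → Fin (M + 1) → K, ∀ i i', γ i i' =
        beta g (s₀ i) (s₀ i') := ⟨_, fun _ _ => rfl⟩
    have hgj : ∀ j, g (a j) = Lam γ (linK (vecs l t (a j)) ^ 2) := by
      intro j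
      rw [hquad _ (hab j), Lam_sq, sum_vecs]
      refine Finset.sum_congr rfl fun s _ => Finset.sum_congr rfl fun s' _ => ?_
      rw [hbeta s s', hγ]
    have hψc : ∀ c, ψ c = Lam γ (comb 2 (fun j => vecs l t (a j)) c) := by
      intro c
      have e1 : c = ∑ j, c j • (Pi.single j 1 : Fin (N + 1) → K) := by
        funext i
        rw [Finset.sum_apply, Finset.sum_eq_single i]
        · rw [Pi.smul_apply, Pi.single_eq_same, smul_eq_mul, mul_one]
        · intro b _ hb
          rw [Pi.smul_apply, Pi.single_eq_of_ne (Ne.symm hb), smul_zero]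
        · intro h
          exact absurd (Finset.mem_univ i) h
      conv_lhs => rw [e1]
      rw [map_sum, comb_apply, map_sum]
      refine Finset.sum_congr rfl fun j _ => ?_
      rw [map_smul, map_smul, ← hgj, hg, hidx']
    rw [hψc]
    have hq0 : ∀ i, Lam γ (q i) = 0 := by
      intro i
      obtain ⟨d, x, hd, hx, hdq⟩ := hq i
      have h6 : d ∈ rel 2 (fun j => vecs l t (a j)) q := by
        rw [mem_rel, hdq]
        refine Submodule.smul_mem _ _ (Submodule.subset_span ⟨i, 0, ?_⟩)
        rw [Nat.sub_self, pow_zero, mul_one]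
      have h7 : ψ d = 0 := hker (Or.inl ⟨hd, h6⟩)
      rw [hψc, hdq, map_smul, smul_eq_mul] at h7
      exact (mul_eq_zero.1 h7).resolve_left hx
    have hc' : comb 2 (fun j => vecs l t (a j)) c ∈ mult 2 q := hc
    refine Submodule.span_induction (p := fun G _ => Lam γ G = 0) ?_ ?_ ?_ ?_ hc'
    · rintro _ ⟨i, j, rfl⟩
      rw [Nat.sub_self, pow_zero, mul_one]
      exact hq0 i
    · exact map_zero _
    · intro x y _ _ hx hy
      rw [map_add, hx, hy, add_zero]
    · intro x y _ hy
      rw [map_smul, hy, smul_zero]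

end

end Pool.Agent.H441.FT
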