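import Pool.Agent.H441.FT.Conj

/-!
Entire curves and rational points of a projective variety and of the union of its conjugates.
-/

set_option autoImplicit false

namespace Pool.Agent.H441.FT

open MvPolynomial
open Pool.Agent.N254.SQ hiding Extends lin
open scoped LinearAlgebra.Projectivization

section

variable {K : Type} [Field K] [NumberField K] {n : ℕ} {ι γ : Type}
  {F : ι → MvPolynomial (Fin (n + 1)) K} {G : γ → MvPolynomial (Fin (n + 1)) K}

theorem app_inj {Ω : Type} {u v u' v' : Fin (n + 1) → Ω} (h : app u v = app u' v') :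
    u = u' := by
  funext i
  rw [← app_lft u v i, h, app_lft]

/-- the conjugate of a nonvanishing curve is constant -/
theorem const_conj {f : ℂ → Fin (n + 1 + n + 1) → ℂ} (hf : Differentiable ℂ f)
    {τ : ℂ → K →+* ℂ} {u : ℂ → Fin (n + 1) → ℂ} (hu : ∀ z, u z ≠ 0)
    (hfu : ∀ z, f z = app (u z) (τ z (pb K).gen • u z)) (z w : ℂ) : τ z = τ w := by
  have hcont : Continuous fun z => τ z (pb K).gen := by
    rw [continuous_iff_continuousAt]
    intro z₀
    obtain ⟨i, hi⟩ : ∃ i, u z₀ i ≠ 0 := by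
      by_contra hcon
      push Not at hcon
      exact hu z₀ (funext hcon)
    have e1 : ∀ z, f z (lft i) = u z i := fun z => by rw [hfu, app_lft]
    have e2 : ∀ z, f z (rgt i) = τ z (pb K).gen * u z i := fun z => by
      rw [hfu, app_rgt, Pi.smul_apply, smul_eq_mul]
    have hc : ∀ j, Continuous fun z => f z j := fun j => (continuous_pi_iff.1 hf.continuous) j
    have h1 : ContinuousAt (fun z => f z (rgt i) / f z (lft i)) z₀ :=
      (hc _).continuousAt.div (hc _).continuousAt (by rw [e1]; exact hi)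
    refine h1.congr ?_
    have h2 : ∀ᶠ z in nhds z₀, f z (lft i) ≠ 0 :=
      (hc (lft i)).continuousAt.eventually_ne (by rw [e1]; exact hi)
    filter_upwards [h2] with z hz
    rw [e1] at hz
    rw [e1, e2, mul_div_assoc, div_self hz, mul_one]
  have hfin : (Set.range fun σ : K →+* ℂ => σ (pb K).gen).Finite := Set.finite_range _
  apply hom_ext
  exact isPreconnected_univ.constant_of_mapsTo hfin.isDiscrete
    hcont.continuousOn (fun z _ => ⟨τ z, rfl⟩) (Set.mem_univ z) (Set.mem_univ w)

/-- the curves -/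
theorem conj_curves : CurvesIn (algebraMap ℚ ℂ) (conjF F) (conjG G) ↔
    ∀ σ : K →+* ℂ, CurvesIn σ F G := by
  constructor
  · rintro h σ f hf hf0 hfF ⟨z₀, w₀, hnc⟩ z
    rw [← conj_iff (algebraMap ℚ ℂ) σ (hf0 z)]
    refine h (fun z => app (f z) (σ (pb K).gen • f z)) ?_ (fun z => app_ne (hf0 z))
      (fun z => (conj_pts _ (app_ne (hf0 z))).2 ⟨σ, f z, hf0 z, rfl, hfF z⟩)
      ⟨z₀, w₀, fun c hc => hnc c ?_⟩ z
    · rw [differentiable_pi]
      intro j
      refine Fin.addCases (m := n + 1) (n := n + 1) (fun i => ?_) (fun i => ?_) j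
      · have e : (fun z => app (f z) (σ (pb K).gen • f z) (Fin.castAdd (n + 1) i)) =
            fun z => f z i := by
          funext z
          exact app_lft _ _ i
        rw [e]
        exact (differentiable_pi.1 hf) i
      · have e : (fun z => app (f z) (σ (pb K).gen • f z) (Fin.natAdd (n + 1) i)) =
            fun z => σ (pb K).gen * f z i := by
          funext z
          exact app_rgt _ _ i
        rw [e]
        exact ((differentiable_pi.1 hf) i).const_mul _
    · rw [← app_smul] at hc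
      exact app_inj hc
  · intro h f hf hf0 hfF hnc
    have h1 := fun z => (conj_pts (F := F) (algebraMap ℚ ℂ) (hf0 z)).1 (hfF z)
    choose τ u hu hfu huF using h1
    have hτ : ∀ z, τ z = τ 0 := fun z => const_conj hf hu hfu z 0
    simp only [hτ] at hfu huF
    obtain ⟨z₀, w₀, hnc⟩ := hnc
    have hud : Differentiable ℂ u := by
      rw [differentiable_pi]
      intro i
      have e : (fun z => u z i) = fun z => f z (lft i) := by
        funext z
        rw [hfu, app_lft]
      rw [e]
      exact (differentiable_pi.1 hf) _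
    have h2 := h (τ 0) u hud hu huF ⟨z₀, w₀, fun c hc => hnc c (by
      rw [hfu, hfu, ← app_smul, hc]
      congr 1
      rw [smul_comm])⟩
    intro z
    rw [hfu, conj_iff (algebraMap ℚ ℂ) (τ 0) (hu z)]
    exact h2 z

/-- the points of one conjugate -/
noncomputable def cmap {L : Type} [Field L] (τ : K →+* L) (P : ℙ L (Fin (n + 1) → L)) :
    ℙ L (Fin (n + 1 + n + 1) → L) :=
  Projectivization.mk L (app P.rep (τ (pb K).gen • P.rep)) (app_ne P.rep_nonzero)

theorem cmap_inj {L : Type} [Field L] (τ : K →+* L) :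
    Function.Injective (cmap τ : ℙ L (Fin (n + 1) → L) → ℙ L (Fin (n + 1 + n + 1) → L)) := by
  intro P P' h
  unfold cmap at h
  rw [Projectivization.mk_eq_mk_iff'] at h
  obtain ⟨c, hc⟩ := h
  rw [← app_smul] at hc
  have := app_inj hc
  rw [← P.mk_rep, ← P'.mk_rep, Projectivization.mk_eq_mk_iff']
  exact ⟨c, this⟩

theorem cmap_rep {L : Type} [Field L] (τ : K →+* L) (P : ℙ L (Fin (n + 1) → L)) :
    ∃ b : L, b ≠ 0 ∧ (cmap τ P).rep = app (b • P.rep) (τ (pb K).gen • b • P.rep) := by
  obtain ⟨b, hb⟩ := Projectivization.exists_smul_eq_mk_rep L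
    (app P.rep (τ (pb K).gen • P.rep)) (app_ne P.rep_nonzero)
  refine ⟨b, b.ne_zero, ?_⟩
  have : (cmap τ P).rep = (b : L) • app P.rep (τ (pb K).gen • P.rep) := hb.symm
  rw [this, ← app_smul, smul_comm]

/-- the points -/
theorem conj_points (hF : ∀ i, ∃ e, (F i).IsHomogeneous e) (hG : ∀ i, ∃ e, (G i).IsHomogeneous e) :
    PointsIn (conjF F) (conjG G) ↔ PointsIn F G := by
  constructor
  · intro h L _ _ _
    refine Set.Finite.of_finite_image ((h L).subset ?_) (cmap_inj (algebraMap K L)).injOn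
    rintro _ ⟨P, ⟨hPF, hPG⟩, rfl⟩
    obtain ⟨b, hb0, hb⟩ := cmap_rep (algebraMap K L) P
    have hbP : b • P.rep ≠ 0 := smul_ne_zero hb0 P.rep_nonzero
    constructor
    · rw [conj_pts (algebraMap ℚ L) (Projectivization.rep_nonzero _)]
      refine ⟨algebraMap K L, b • P.rep, hbP, hb, fun i => ?_⟩
      obtain ⟨d, hd⟩ := hF i
      rw [eval₂_scale (algebraMap K L) hd, hPF i, mul_zero]
    · intro hcon
      apply hPG
      rw [hb, conj_iff (algebraMap ℚ L) (algebraMap K L) hbP] at hcon
      intro l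
      obtain ⟨d, hd⟩ := hG l
      have h1 := hcon l
      rw [eval₂_scale (algebraMap K L) hd] at h1
      exact (mul_eq_zero.1 h1).resolve_left (pow_ne_zero _ hb0)
  · intro h L _ _ _
    have hfin : ∀ τ : K →+* L, {P : ℙ L (Fin (n + 1) → L) | (∀ i, eval₂ τ P.rep (F i) = 0) ∧
        ¬ ∀ l, eval₂ τ P.rep (G l) = 0}.Finite := by
      intro τ
      let _ : Algebra K L := τ.toAlgebra
      exact h L
    refine (Set.finite_iUnion fun τ : K →+* L => (hfin τ).image (cmap τ)).subset ?_
    rintro P ⟨hPF, hPG⟩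
    rw [conj_pts (algebraMap ℚ L) P.rep_nonzero] at hPF
    obtain ⟨τ, u, hu, hPu, huF⟩ := hPF
    rw [hPu, conj_iff (algebraMap ℚ L) τ hu] at hPG
    obtain ⟨b, hb⟩ := Projectivization.exists_smul_eq_mk_rep L u hu
    have hb' : (Projectivization.mk L u hu).rep = (b : L) • u := hb.symm
    have hb0 : (b : L) ≠ 0 := b.ne_zero
    rw [Set.mem_iUnion]
    refine ⟨τ, Projectivization.mk L u hu, ⟨fun i => ?_, fun hcon => hPG fun l => ?_⟩, ?_⟩
    · obtain ⟨d, hd⟩ := hF i
      rw [hb', eval₂_scale τ hd, huF i, mul_zero]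
    · obtain ⟨d, hd⟩ := hG l
      have h1 := hcon l
      rw [hb', eval₂_scale τ hd] at h1
      exact (mul_eq_zero.1 h1).resolve_left (pow_ne_zero _ hb0)
    · unfold cmap
      rw [← P.mk_rep, Projectivization.mk_eq_mk_iff']
      refine ⟨(b : L), ?_⟩
      rw [hPu, ← app_smul, hb', smul_comm]

end

section integral

/-- integral multiples -/
theorem exists_int {n : ℕ} (P : MvPolynomial (Fin (n + 1)) ℚ) : ∃ b : ℚ, b ≠ 0 ∧
    ∀ s, ∃ z : ℤ, coeff s (C b * P) = (z : ℚ) := by
  classical
  obtain ⟨d, hd⟩ : ∃ d : ℕ, d = ∏ s ∈ P.support, (coeff s P).den := ⟨_, rfl⟩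
  refine ⟨d, ?_, fun s => ?_⟩
  · rw [hd]
    exact_mod_cast Finset.prod_ne_zero_iff.2 fun s _ => (coeff s P).den_nz
  · rw [coeff_C_mul]
    by_cases hs : s ∈ P.support
    · obtain ⟨q, hq⟩ : (coeff s P).den ∣ d := by
        rw [hd]
        exact Finset.dvd_prod_of_mem _ hs
      refine ⟨q * (coeff s P).num, ?_⟩
      rw [hq]
      push_cast
      have h1 : ((coeff s P).den : ℚ) * coeff s P = (coeff s P).num := by
        rw [mul_comm]
        exact Rat.mul_den_eq_num _
      linear_combination (q : ℚ) * h1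
    · rw [notMem_support_iff.1 hs, mul_zero]
      exact ⟨0, by rw [Int.cast_zero]⟩

/-- integral multiples of a family of forms -/
theorem exists_ints {n : ℕ} {ι : Type} (F : ι → MvPolynomial (Fin (n + 1)) ℚ)
    (hF : ∀ i, ∃ e, (F i).IsHomogeneous e) : ∃ F' : ι → MvPolynomial (Fin (n + 1)) ℚ,
      (∀ i, ∃ e, (F' i).IsHomogeneous e) ∧ (∀ i s, ∃ z : ℤ, coeff s (F' i) = (z : ℚ)) ∧
      ∀ (Ω : Type) [Field Ω] (ρ : ℚ →+* Ω) (x : Fin (n + 1) → Ω) (i : ι),
        eval₂ ρ x (F' i) = 0 ↔ eval₂ ρ x (F i) = 0 := by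
  choose b hb0 hb using fun i => exists_int (F i)
  refine ⟨fun i => C (b i) * F i, fun i => ?_, hb, fun Ω _ ρ x i => ?_⟩
  · obtain ⟨e, he⟩ := hF i
    have h1 := (isHomogeneous_C (Fin (n + 1)) (b i)).mul he
    exact ⟨_, h1⟩
  · rw [eval₂_mul, eval₂_C, mul_eq_zero]
    constructor
    · rintro (h | h)
      · exact absurd ((map_eq_zero ρ).1 h) (hb0 i)
      · exact h
    · exact fun h => Or.inr h

end integral

end Pool.Agent.H441.FT
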