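import Pool.Agent.H441.FT.Aff
import Pool.Graph.R_pool_sql_team_seeded_63374d34.N254.SQ.Cent
import Pool.Graph.R_pool_sql_team_seeded_63374d34.N254.SQ.Qspec
import Pool.Graph.R_pool_sql_team_seeded_63374d34.N254.SQ.Qcurv
import Pool.Graph.R_pool_sql_team_seeded_63374d34.N254.SQ.Qforw

/-!
Values of places and logarithmic general type under the embeddings.
-/

set_option autoImplicit false

namespace Pool.Agent.H441.FT

open MvPolynomial FF
open Pool.Agent.N254.SQ hiding Extends lin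
open Pool.Agent.W602.GT (GeneralType LogGeneralType coords SubVar)
open Pool.Agent.H441.DQ (dform dform_hom)
open Pool.Agent.H441.UA (FEmb vals pullφ pullφ_eval twist twist_eval twist_form)

section

variable {L : Type} [Field L] [Algebra ℂ L] (P : Place ℂ L) {n : ℕ}

/-- the residue of the value of a polynomial -/
theorem red_poly {u : Fin (n + 1) → L} (hu : ∀ j, P.Reg (u j)) (H : MvPolynomial (Fin (n + 1)) ℂ) :
    P.Reg (aeval u H) ∧ P.red (aeval u H) = aeval (fun j => P.red (u j)) H := by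
  induction H using MvPolynomial.induction_on with
  | C b =>
    rw [aeval_C, aeval_C]
    exact ⟨P.reg_const b, (P.algebraMap_RF b).symm⟩
  | add p q hp hq =>
    rw [map_add, map_add]
    exact ⟨P.reg_add hp.1 hq.1, by rw [P.red_add hp.1 hq.1, hp.2, hq.2]⟩
  | mul_X p i hp =>
    rw [map_mul, map_mul, aeval_X, aeval_X]
    exact ⟨P.reg_mul hp.1 (hu i), by rw [P.red_mul hp.1 (hu i), hp.2]⟩

theorem unit_iff {f : L} (hf : P.Reg f) : (f ≠ 0 ∧ P.ord f = 0) ↔ P.red f ≠ 0 := by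
  rw [Ne, Ne, P.red_eq_zero_iff hf]
  constructor
  · rintro ⟨h1, h2⟩
    push Not
    exact ⟨h1, h2.le⟩
  · intro h
    push Not at h
    exact ⟨h.1, le_antisymm h.2 ((P.reg_iff h.1).1 hf)⟩

theorem ceU_iff {u : Fin (n + 1) → L} :
    CeU P u ↔ (∀ j, P.Reg (u j)) ∧ (fun j => P.red (u j)) ≠ 0 := by
  constructor
  · rintro ⟨h1, j, h2, h3⟩
    exact ⟨h1, fun h0 => (unit_iff P (h1 j)).1 ⟨h2, h3⟩ (congrFun h0 j)⟩
  · rintro ⟨h1, h2⟩
    obtain ⟨j, hj⟩ : ∃ j, P.red (u j) ≠ 0 := by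
      by_contra hcon
      push Not at hcon
      exact h2 (funext hcon)
    obtain ⟨h3, h4⟩ := (unit_iff P (h1 j)).2 hj
    exact ⟨h1, j, h3, h4⟩

/-- the value at a place does not depend on the multiple -/
theorem value_iff {T : Set (MvPolynomial (Fin (n + 1)) ℂ)} (hT : ∀ H ∈ T, IsForm H)
    {y : Fin (n + 1) → L} {c : L} (hc : CeU P (c • y)) :
    ValueNotIn T y P ↔ ∃ H ∈ T, aeval (fun j => P.red (c * y j)) H ≠ 0 := by
  have hred : ∀ H : MvPolynomial (Fin (n + 1)) ℂ, P.Reg (aeval (c • y) H) ∧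
      P.red (aeval (c • y) H) = aeval (fun j => P.red (c * y j)) H := fun H => red_poly P hc.1 H
  constructor
  · rintro ⟨c', h1, h2, H, hH, h3, h4⟩
    refine ⟨H, hH, ?_⟩
    have hc' : CeU P (c' • y) := ⟨h1, h2⟩
    have hc0 : c ≠ 0 := by
      rintro rfl
      obtain ⟨-, j, hj, -⟩ := hc
      apply hj
      rw [zero_smul, Pi.zero_apply]
    have e1 : c' • y = (c' / c) • (c • y) := by
      rw [smul_smul, div_mul_cancel₀ _ hc0]
    rw [e1] at hc' h3 h4
    obtain ⟨ht0, ht⟩ := ce_ord P hc hc'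
    obtain ⟨e, he⟩ := hT H hH
    rw [aeval_scale he] at h3 h4
    have h5 := right_ne_zero_of_mul h3
    rw [P.ord_mul (pow_ne_zero _ ht0) h5, P.ord_pow, ht, mul_zero, zero_add] at h4
    rw [← (hred H).2]
    exact (unit_iff P (hred H).1).1 ⟨h5, h4⟩
  · rintro ⟨H, hH, h1⟩
    rw [← (hred H).2] at h1
    obtain ⟨h2, h3⟩ := (unit_iff P (hred H).1).2 h1
    exact ⟨c, hc.1, hc.2, H, hH, h2, h3⟩

end

/-- the forms in `T'` vanish at a point of a copy if and only if the forms in `T` vanish at the point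
of `P^n` -/
structure Match {n N : ℕ} (φ : Fin (N + 1) → MvPolynomial (Fin (n + 1)) ℂ)
    (T : Set (MvPolynomial (Fin (n + 1)) ℂ)) (T' : Set (MvPolynomial (Fin (N + 1)) ℂ)) : Prop where
  form : ∀ H ∈ T, IsForm H
  form' : ∀ H ∈ T', IsForm H
  zeros : ∀ (Ω : Type) [Field Ω] [Algebra ℂ Ω] (ζ : Fin (N + 1) → ℂ) (x : Fin (n + 1) → Ω),
    (∀ j, ζ j ≠ 0) → x ≠ 0 →
    ((∃ H ∈ T', aeval (fun j => algebraMap ℂ Ω (ζ j) * vals (algebraMap ℂ Ω) φ x j) H ≠ 0) ↔
      ∃ H ∈ T, aeval x H ≠ 0)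

section

variable {n N k m : ℕ} {ι κ γ : Type} {F : ι → MvPolynomial (Fin (n + 1)) ℂ}
  {T : κ → MvPolynomial (Fin (n + 1)) ℂ} {G : γ → MvPolynomial (Fin (n + 1)) ℂ}
  {φ : Fin (N + 1) → MvPolynomial (Fin (n + 1)) ℂ} {c : Fin k → Fin (N + 1) → ℂ}
  {I J : Set (Fin (N + 1))} {T₁ : Set (MvPolynomial (Fin (n + 1)) ℂ)}
  {T₂ : Set (MvPolynomial (Fin (N + 1)) ℂ)}

/-- coordinate subspaces -/
theorem match_coord (hE : FEmb m F T G φ c I J) (hT₁ : ∀ H ∈ T₁, IsForm H)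
    (h : ∀ (Ω : Type) [Field Ω] [Algebra ℂ Ω] (x : Fin (n + 1) → Ω),
      (∃ k, aeval x (T k) ≠ 0) ↔ ∃ H ∈ T₁, aeval x H ≠ 0) : Match φ T₁ (X '' I) := by
  refine ⟨hT₁, ?_, ?_⟩
  · rintro _ ⟨i, -, rfl⟩
    exact ⟨1, isHomogeneous_X _ _⟩
  · intro Ω _ _ ζ x hζ hx
    rw [← h]
    have h1 := hE.onT Ω (algebraMap ℂ Ω) x hx
    have h2 : (∃ k, aeval x (T k) ≠ 0) ↔ ∃ i ∈ I, vals (algebraMap ℂ Ω) φ x i ≠ 0 := h1.symm
    rw [h2]
    constructor
    · rintro ⟨_, ⟨i, hi, rfl⟩, h3⟩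
      rw [aeval_X] at h3
      exact ⟨i, hi, right_ne_zero_of_mul h3⟩
    · rintro ⟨i, hi, h3⟩
      refine ⟨X i, ⟨i, hi, rfl⟩, ?_⟩
      rw [aeval_X]
      exact mul_ne_zero ((_root_.map_ne_zero _).2 (hζ i)) h3

theorem match_one : Match φ {1} {1} := by
  refine ⟨?_, ?_, ?_⟩
  · intro H hH
    rw [Set.mem_singleton_iff] at hH
    rw [hH]
    exact ⟨0, isHomogeneous_one _ _⟩
  · intro H hH
    rw [Set.mem_singleton_iff] at hH
    rw [hH]
    exact ⟨0, isHomogeneous_one _ _⟩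
  · intro Ω _ _ ζ x _ _
    constructor
    · intro _
      exact ⟨1, rfl, by rw [map_one]; exact one_ne_zero⟩
    · intro _
      exact ⟨1, rfl, by rw [map_one]; exact one_ne_zero⟩

theorem vals_scale (hE : FEmb m F T G φ c I J) : ∃ e : ℕ, ∀ (Ω : Type) [Field Ω] [Algebra ℂ Ω]
    (x : Fin (n + 1) → Ω) (s : Ω) (j : Fin (N + 1)),
    vals (algebraMap ℂ Ω) φ (s • x) j = s ^ e * vals (algebraMap ℂ Ω) φ x j := by
  obtain ⟨e, he⟩ := vals_smul hE
  refine ⟨e, fun Ω _ _ x s j => ?_⟩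
  rw [he, Pi.smul_apply, smul_eq_mul]

/-- the values of the points of the copies -/
theorem value_copy (hE : FEmb m F T G φ c I J) (hM : Match φ T₁ T₂) {L : Type} [Field L]
    [Algebra ℂ L] {x : Fin (n + 1) → L} (hx : x ≠ 0) {s : L} (hs : s ≠ 0) {ζ : Fin (N + 1) → ℂ}
    (hζ : ∀ j, ζ j ≠ 0) {y : Fin (N + 1) → L}
    (hyx : ∀ j, y j = s * (algebraMap ℂ L (ζ j) * vals (algebraMap ℂ L) φ x j))
    (P : Place ℂ L) : ValueNotIn T₂ y P ↔ ValueNotIn T₁ x P := by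
  obtain ⟨e, hsc⟩ := vals_scale hE
  obtain ⟨a, ha, hu⟩ := ce_exists P hx
  have hu' := (ceU_iff P).1 hu
  obtain ⟨x', hx'⟩ : ∃ x' : Fin (n + 1) → P.RF, x' = fun j => P.red ((a • x) j) := ⟨_, rfl⟩
  have hx'0 : x' ≠ 0 := by
    rw [hx']
    exact hu'.2
  -- the multiple of `y`
  have e1 : ∀ j, (a ^ e / s) * y j = algebraMap ℂ L (ζ j) *
      vals (algebraMap ℂ L) φ (a • x) j := by
    intro j
    rw [hsc, hyx]
    field_simp
  have hreg : ∀ j, P.Reg (vals (algebraMap ℂ L) φ (a • x) j) ∧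
      P.red (vals (algebraMap ℂ L) φ (a • x) j) = vals (algebraMap ℂ P.RF) φ x' j := by
    intro j
    have := red_poly P hu.1 (φ j)
    rw [hx']
    exact this
  have e2 : ∀ j, P.Reg ((a ^ e / s) * y j) ∧ P.red ((a ^ e / s) * y j) =
      algebraMap ℂ P.RF (ζ j) * vals (algebraMap ℂ P.RF) φ x' j := by
    intro j
    rw [e1]
    refine ⟨P.reg_mul (P.reg_const _) (hreg j).1, ?_⟩
    rw [P.red_mul (P.reg_const _) (hreg j).1, (hreg j).2, P.algebraMap_RF]
  have hv : CeU P ((a ^ e / s) • y) := by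
    rw [ceU_iff]
    refine ⟨fun j => (e2 j).1, fun h0 => ?_⟩
    apply hE.ne P.RF (algebraMap ℂ P.RF) x' hx'0
    funext j
    have h1 := congrFun h0 j
    simp only [Pi.smul_apply, smul_eq_mul] at h1
    rw [(e2 j).2] at h1
    exact (mul_eq_zero.1 h1).resolve_left ((_root_.map_ne_zero _).2 (hζ j))
  rw [value_iff P hM.form' hv, value_iff P hM.form hu]
  have h3 := hM.zeros P.RF ζ x' hζ hx'0
  have e3 : (fun j => P.red (a ^ e / s * y j)) =
      fun j => algebraMap ℂ P.RF (ζ j) * vals (algebraMap ℂ P.RF) φ x' j :=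
    funext fun j => (e2 j).2
  rw [e3, h3, hx']
  rfl

theorem notIn_copy (hM : Match φ T₁ T₂) {L : Type} [Field L]
    [Algebra ℂ L] {x : Fin (n + 1) → L} (hx : x ≠ 0) {s : L} (hs : s ≠ 0) {ζ : Fin (N + 1) → ℂ}
    (hζ : ∀ j, ζ j ≠ 0) {y : Fin (N + 1) → L}
    (hyx : ∀ j, y j = s * (algebraMap ℂ L (ζ j) * vals (algebraMap ℂ L) φ x j)) :
    NotIn T₂ y ↔ NotIn T₁ x := by
  unfold NotIn
  rw [← hM.zeros L ζ x hζ hx]
  have e1 : y = s • fun j => algebraMap ℂ L (ζ j) * vals (algebraMap ℂ L) φ x j := by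
    funext j
    rw [hyx, Pi.smul_apply, smul_eq_mul]
  have h1 : ∀ H ∈ T₂, (aeval y H ≠ 0 ↔
      aeval (fun j => algebraMap ℂ L (ζ j) * vals (algebraMap ℂ L) φ x j) H ≠ 0) := by
    intro H hH
    rw [e1]
    exact not_congr (aeval_zero_of (hM.form' H hH) hs _)
  constructor
  · rintro ⟨H, hH, h2⟩
    exact ⟨H, hH, (h1 H hH).1 h2⟩
  · rintro ⟨H, hH, h2⟩
    exact ⟨H, hH, (h1 H hH).2 h2⟩

theorem log_copy (hE : FEmb m F T G φ c I J) (hM : Match φ T₁ T₂) {L : Type} [Field L]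
    [Algebra ℂ L] {w : ℕ} {x : Fin (n + 1) → L} (hx : x ≠ 0) {s : L} (hs : s ≠ 0)
    {ζ : Fin (N + 1) → ℂ} (hζ : ∀ j, ζ j ≠ 0) {y : Fin (N + 1) → L}
    (hyx : ∀ j, y j = s * (algebraMap ℂ L (ζ j) * vals (algebraMap ℂ L) φ x j)) :
    LogGeneral T₂ L w y ↔ LogGeneral T₁ L w x := by
  unfold LogGeneral
  have h1 : (fun P : Place ℂ L => ¬ ValueNotIn T₂ y P) = fun P => ¬ ValueNotIn T₁ x P := by
    funext P
    exact propext (not_congr (value_copy hE hM hx hs hζ hyx P))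
  rw [h1]

/-- the case `s = 1`, `ζ = 1` -/
theorem vals_one {L : Type} [Field L] [Algebra ℂ L] (x : Fin (n + 1) → L) (j : Fin (N + 1)) :
    vals (algebraMap ℂ L) φ x j = 1 * (algebraMap ℂ L ((fun _ : Fin (N + 1) => (1 : ℂ)) j) *
      vals (algebraMap ℂ L) φ x j) := by
  simp

/-- **The key lemma**, for any property `R` of subvarieties -/
theorem key3 (hC : Comp_stm) (hm : m ≠ 0) (hE : FEmb m F T G φ c I J) {L : Type}
    [Field L] [Algebra ℂ L] {w : ℕ} {y : Fin (n + 1) → L} (hw : 1 ≤ w) (hy : Gen L w y)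
    (hirr : ∀ P, IsForm P → aeval y P = 0 → ∀ (Ω : Type) [Field Ω] [Algebra ℂ Ω]
      (x : Fin (n + 1) → Ω), (∀ i, aeval x (F i) = 0) → aeval x P = 0)
    {Q : MvPolynomial (Fin (N + 1)) ℂ → Prop} (hQ : Idl Q)
    (hQc : ∀ i, Q (dform m (c i)))
    (R : ∀ (L' : Type) [Field L'] [Algebra ℂ L'], ℕ → (Fin (N + 1) → L') → Prop)
    (hR0 : R L w (vals (algebraMap ℂ L) φ y))
    (hR1 : ∀ (L' : Type) [Field L'] [Algebra ℂ L'] (w' : ℕ) (y' : Fin (N + 1) → L'), 1 ≤ w' →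
      SubVar (fun i : Fin k => dform m (c i)) L' w' y' → GeneralType ℂ L' w' →
      (∀ P, IsForm P → aeval y' P = 0 → aeval (vals (algebraMap ℂ L) φ y) P = 0) → R L' w' y')
    (hno : ∀ (L' : Type) [Field L'] [Algebra ℂ L'] (w' : ℕ) (y' : Fin (N + 1) → L'), 1 ≤ w' →
      SubVar (fun i : Fin k => dform m (c i)) L' w' y' → R L' w' y' → ¬ Component Q y') :
    ∃ P, IsForm P ∧ Q P ∧ aeval (vals (algebraMap ℂ L) φ y) P ≠ 0 := by
  by_contra hcon
  push Not at hcon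
  have hform : ∀ i, IsForm (dform m (c i)) := fun i => ⟨m, dform_hom (c i)⟩
  have hsub : ∀ (L' : Type) [Field L'] [Algebra ℂ L'] (w' : ℕ) (y' : Fin (N + 1) → L'),
      Gen L' w' y' → (∀ P, IsForm P → Q P → aeval y' P = 0) →
      SubVar (fun i : Fin k => dform m (c i)) L' w' y' := by
    intro L' _ _ w' y' hg hv
    exact ⟨hg.ne, fun i => hv _ (hform i) (hQc i), hg.gen, hg.dim⟩
  rcases hC N Q hQ L w _ (hE.gen (RingHom.id ℂ) hy) hcon with ⟨H, hH, hH0, hHI⟩ |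
    ⟨L', iF, iA, w', y', hgen, hw', hI', hle, ⟨P, hP, hP0, hP1⟩, hcomp⟩
  · exact hno L w _ hw (hsub L w _ (hE.gen (RingHom.id ℂ) hy) hcon) hR0 ⟨hcon, H, hH, hH0, hHI⟩
  · have hs := hsub L' w' y' hgen hI'
    by_cases hg : GeneralType ℂ L' w'
    · exact hno L' w' y' hw' hs (hR1 L' w' y' hw' hs hg hle) ⟨hI', hcomp⟩
    · obtain ⟨ζ, x, s, hζ, hx, hs0, hxF, hyx⟩ := hE.sub ℂ (RingHom.id ℂ) L' w' y' hgen.ne
        hgen.gen hgen.dim hg (fun i => hs.mem i)
      have hζ0 : ∀ j, ζ j ≠ 0 := root_ne hm hζ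
      -- if `P` vanishes at the point of `X`, then it vanishes at the twist of `y'`
      have h1 : ∀ P, IsForm P → aeval (vals (algebraMap ℂ L) φ y) P = 0 →
          aeval y' (twist (fun j => (ζ j)⁻¹) P) = 0 := by
        intro P hP h0
        have h2 := hirr (pullφ (RingHom.id ℂ) φ P) (hE.pull_form (RingHom.id ℂ) hP) (by
          rw [pullφ_eval]
          exact h0) L' x hxF
        rw [pullφ_eval] at h2
        rw [twist_eval]
        have e1 : (fun j => algebraMap ℂ L' (ζ j)⁻¹ * y' j) =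
            fun j => s * vals ((algebraMap ℂ L').comp (RingHom.id ℂ)) φ x j := by
          funext j
          rw [hyx j, map_inv₀]
          have : algebraMap ℂ L' (ζ j) ≠ 0 := (_root_.map_ne_zero _).2 (hζ0 j)
          field_simp
        rw [e1]
        exact (Pool.Agent.H441.UA.form_smul hP hs0 _).2 h2
      have h2 : ∀ (r : ℕ) (P : MvPolynomial (Fin (N + 1)) ℂ), IsForm P → aeval y' P = 0 →
          aeval y' (twist (fun j => (ζ j)⁻¹ ^ r) P) = 0 := by
        intro r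
        induction r with
        | zero =>
          intro P hP h0
          rw [twist_eval]
          simpa using h0
        | succ r ih =>
          intro P hP h0
          have h3 := ih _ (twist_form (fun j => (ζ j)⁻¹) hP) (h1 P hP (hle P hP h0))
          rw [twist_eval, twist_eval] at h3
          rw [twist_eval]
          have e1 : (fun j => algebraMap ℂ L' ((ζ j)⁻¹ ^ (r + 1)) * y' j) =
              fun j => algebraMap ℂ L' (ζ j)⁻¹ * (algebraMap ℂ L' ((ζ j)⁻¹ ^ r) * y' j) := by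
            funext j
            rw [pow_succ, map_mul]
            ring
          rw [e1]
          exact h3
      apply hP1
      obtain ⟨r, hr⟩ : ∃ r, m = r + 1 := ⟨m - 1, by omega⟩
      have h3 := h2 r _ (twist_form (fun j => (ζ j)⁻¹) hP) (h1 P hP hP0)
      rw [twist_eval, twist_eval] at h3
      have e1 : (fun j => algebraMap ℂ L' (ζ j)⁻¹ * (algebraMap ℂ L' ((ζ j)⁻¹ ^ r) * y' j)) =
          y' := by
        funext j
        rw [← mul_assoc, ← map_mul]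
        have : (ζ j)⁻¹ * (ζ j)⁻¹ ^ r = 1 := by
          rw [← pow_succ', ← hr, inv_pow, hζ, inv_one]
        rw [this, map_one, one_mul]
      rwa [e1] at h3

end

end Pool.Agent.H441.FT
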